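import Mathlib

/-!
# n-th diameters of compact plane sets

`vprod w` is the product of the mutual distances of the points `w 0, …, w (n-1)`,
`maxProd E n` is its maximum over `E ^ n` and
`nDiam E n` is the `n`-th diameter `d_n(E)`, i.e. `d_n(E) ^ (n(n-1)/2) = maxProd E n`.
-/

set_option autoImplicit false

open Filter Topology Set

namespace Pool.Agent.H655R3.Dia

/-- product of the distances of all pairs `i < j` of the points `w 0, …, w (n-1)` -/
noncomputable def vprod {n : ℕ} (w : Fin n → ℂ) : ℝ :=
  ∏ i : Fin n, ∏ j ∈ Finset.Ioi i, ‖w i - w j‖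

/-- the maximum (supremum) of the product of the mutual distances of `n` points of `E` -/
noncomputable def maxProd (E : Set ℂ) (n : ℕ) : ℝ :=
  sSup (vprod '' {w : Fin n → ℂ | ∀ i, w i ∈ E})

/-- the `n`-th diameter of `E`: the nonnegative number with
`d_n(E) ^ (n(n-1)/2) = maxProd E n` -/
noncomputable def nDiam (E : Set ℂ) (n : ℕ) : ℝ :=
  (maxProd E n) ^ ((2 : ℝ) / ((n : ℝ) * ((n : ℝ) - 1)))

/-- `E` has transfinite diameter `d`: the `n`-th diameters tend to `d` -/
def HasTransfiniteDiam (E : Set ℂ) (d : ℝ) : Prop :=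
  Tendsto (fun n => nDiam E n) atTop (𝓝 d)

end Pool.Agent.H655R3.Dia
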