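import Mathlib
import Pool.Agent.H655R3.DiaDefs

set_option autoImplicit false

open Filter Topology Set Polynomial

namespace Pool.Agent.H655R3.Dia

theorem vprod_eq_det {n : ℕ} (w : Fin n → ℂ) : vprod w = ‖(Matrix.vandermonde w).det‖ := by
  rw [Matrix.det_vandermonde, norm_prod]
  unfold vprod
  refine Finset.prod_congr rfl fun i _ => ?_
  rw [norm_prod]
  refine Finset.prod_congr rfl fun j _ => ?_
  rw [norm_sub_rev]

theorem vprod_nonneg {n : ℕ} (w : Fin n → ℂ) : 0 ≤ vprod w := by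
  rw [vprod_eq_det]; exact norm_nonneg _

theorem continuous_vprod (n : ℕ) : Continuous (fun w : Fin n → ℂ => vprod w) := by
  unfold vprod
  fun_prop

theorem vprod_perm {n : ℕ} (w : Fin n → ℂ) (σ : Equiv.Perm (Fin n)) : vprod (w ∘ σ) = vprod w := by
  rw [vprod_eq_det, vprod_eq_det]
  have : Matrix.vandermonde (w ∘ σ) = (Matrix.vandermonde w).submatrix σ id := by
    ext i j
    simp [Matrix.vandermonde]
  rw [this, Matrix.det_permute, norm_mul]
  rcases Int.units_eq_one_or (Equiv.Perm.sign σ) with h | h <;> simp [h]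

theorem vprod_cons {n : ℕ} (z : ℂ) (w : Fin n → ℂ) :
    vprod (Fin.cons z w : Fin (n + 1) → ℂ) = (∏ j, ‖z - w j‖) * vprod w := by
  unfold vprod
  rw [Fin.prod_univ_succ]
  congr 1
  · rw [Fin.prod_Ioi_zero]
    simp
  · refine Finset.prod_congr rfl fun i _ => ?_
    rw [Fin.prod_Ioi_succ]
    simp

/-- if a monic polynomial of degree `k` is bounded by `ρ` on `E`, products of distances are small -/
theorem vprod_le {E : Set ℂ} {q : ℂ[X]} (hq : q.Monic) {k : ℕ} (hk : q.natDegree = k) (hk0 : 0 < k)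
    {M ρ : ℝ} (hM : 1 ≤ M) (hEM : ∀ z ∈ E, ‖z‖ ≤ M) (hρ : 0 < ρ) (hqρ : ∀ z ∈ E, ‖q.eval z‖ ≤ ρ)
    {N : ℕ} (w : Fin N → ℂ) (hw : ∀ i, w i ∈ E) :
    vprod w ≤ (N.factorial : ℝ) * (M ^ k) ^ N * ρ ^ (∑ j ∈ Finset.range N, j / k) := by
  set p : Fin N → ℂ[X] := fun j => X ^ ((j : ℕ) % k) * q ^ ((j : ℕ) / k) with hp
  have hpm : ∀ j, (p j).Monic := fun j => (monic_X_pow _).mul (hq.pow _)
  have hpd : ∀ j, (p j).natDegree = j := by
    intro j
    rw [hp]
    simp only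
    rw [(monic_X_pow _).natDegree_mul (hq.pow _), natDegree_X_pow, hq.natDegree_pow, hk]
    exact Nat.mod_add_div' (j : ℕ) k
  rw [vprod_eq_det, Matrix.det_eval_matrixOfPolynomials_eq_det_vandermonde w p hpd hpm]
  set v : Fin N → ℂ := fun j => (((ρ ^ ((j : ℕ) / k) : ℝ) : ℂ)) with hv
  set B : Matrix (Fin N) (Fin N) ℂ := Matrix.of (fun (i j : Fin N) => (v j)⁻¹ * (p j).eval (w i)) with hB
  have e1 : (Matrix.of (fun (i j : Fin N) => ((p j).eval (w i)))) =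
      Matrix.of (fun (i j : Fin N) => v j * B i j) := by
    ext i j
    simp only [Matrix.of_apply, hB]
    rw [← mul_assoc, mul_inv_cancel₀, one_mul]
    show (((ρ ^ ((j : ℕ) / k) : ℝ) : ℂ)) ≠ 0
    exact_mod_cast (pow_pos hρ _).ne'
  rw [e1, Matrix.det_mul_row v B]
  rw [norm_mul, norm_prod]
  have e2 : ∏ j : Fin N, ‖(((ρ ^ ((j : ℕ) / k) : ℝ) : ℂ))‖ = ρ ^ (∑ j ∈ Finset.range N, j / k) := by
    rw [← Finset.prod_pow_eq_pow_sum, ← Fin.prod_univ_eq_prod_range (fun j => ρ ^ (j / k))]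
    refine Finset.prod_congr rfl fun j _ => ?_
    rw [Complex.norm_real, Real.norm_of_nonneg (pow_nonneg hρ.le _)]
  rw [e2]
  have e3 : ‖B.det‖ ≤ (N.factorial : ℝ) * (M ^ k) ^ N := by
    have := Matrix.det_le (A := B) (abv := NormedField.toAbsoluteValue ℂ) (x := M ^ k) ?_
    · rw [Fintype.card_fin, nsmul_eq_mul] at this
      exact this
    · intro i j
      change ‖B i j‖ ≤ _
      rw [hB, Matrix.of_apply, hv, norm_mul, norm_inv, Complex.norm_real, Real.norm_of_nonneg (pow_nonneg hρ.le _)]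
      rw [hp]
      simp only [eval_mul, eval_pow, eval_X, norm_mul, norm_pow]
      have h1 : ‖w i‖ ^ ((j : ℕ) % k) ≤ M ^ k := by
        calc ‖w i‖ ^ ((j : ℕ) % k) ≤ M ^ ((j : ℕ) % k) := by
              gcongr; exact hEM _ (hw i)
          _ ≤ M ^ k := pow_le_pow_right₀ hM (Nat.mod_lt _ hk0).le
      have h2 : ‖q.eval (w i)‖ ^ ((j : ℕ) / k) ≤ ρ ^ ((j : ℕ) / k) := by
        gcongr; exact hqρ _ (hw i)
      have h3 : 0 < ρ ^ ((j : ℕ) / k) := pow_pos hρ _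
      calc (ρ ^ ((j : ℕ) / k))⁻¹ * (‖w i‖ ^ ((j : ℕ) % k) * ‖q.eval (w i)‖ ^ ((j : ℕ) / k))
          ≤ (ρ ^ ((j : ℕ) / k))⁻¹ * (M ^ k * ρ ^ ((j : ℕ) / k)) := by gcongr
        _ = M ^ k := by field_simp
  calc ρ ^ (∑ j ∈ Finset.range N, j / k) * _ ≤ ρ ^ (∑ j ∈ Finset.range N, j / k) * ((N.factorial : ℝ) * (M ^ k) ^ N) := by
        gcongr
    _ = _ := by ring

end Pool.Agent.H655R3.Dia
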