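import Mathlib
import Pool.Agent.H655R3.DiaVan

set_option autoImplicit false

open Filter Topology Set Polynomial

namespace Pool.Agent.H655R3.Dia

theorem isCompact_tuples {E : Set ℂ} (hE : IsCompact E) (n : ℕ) :
    IsCompact {w : Fin n → ℂ | ∀ i, w i ∈ E} := by
  have := isCompact_univ_pi (fun _ : Fin n => hE)
  convert this using 1
  ext w; simp

theorem bddAbove_vprod {E : Set ℂ} (hE : IsCompact E) (n : ℕ) :
    BddAbove (vprod '' {w : Fin n → ℂ | ∀ i, w i ∈ E}) :=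
  ((isCompact_tuples hE n).image (continuous_vprod n)).bddAbove

theorem le_maxProd {E : Set ℂ} (hE : IsCompact E) {n : ℕ} {w : Fin n → ℂ} (hw : ∀ i, w i ∈ E) :
    vprod w ≤ maxProd E n :=
  le_csSup (bddAbove_vprod hE n) ⟨w, hw, rfl⟩

theorem maxProd_nonneg (E : Set ℂ) (n : ℕ) : 0 ≤ maxProd E n := by
  apply Real.sSup_nonneg
  rintro _ ⟨w, _, rfl⟩
  exact vprod_nonneg w

theorem exists_fekete {E : Set ℂ} (hE : IsCompact E) (hne : E.Nonempty) (n : ℕ) :
    ∃ w : Fin n → ℂ, (∀ i, w i ∈ E) ∧ vprod w = maxProd E n := by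
  obtain ⟨z, hz⟩ := hne
  have hc := (isCompact_tuples hE n).image (continuous_vprod n)
  have hn : (vprod '' {w : Fin n → ℂ | ∀ i, w i ∈ E}).Nonempty := ⟨_, fun _ => z, fun _ => hz, rfl⟩
  obtain ⟨w, hw, hw2⟩ := hc.sSup_mem hn
  exact ⟨w, hw, hw2⟩

theorem sum_div (k L : ℕ) (hk : 0 < k) : 2 * (∑ j ∈ Finset.range (k * L), j / k) + k * L = k * L * L := by
  induction L with
  | zero => simp
  | succ L ih =>
    have e : ∑ j ∈ Finset.range (k * (L + 1)), j / k = (∑ j ∈ Finset.range (k * L), j / k) + k * L := by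
      rw [mul_add, mul_one, Finset.sum_range_add]
      congr 1
      rw [Finset.sum_congr rfl (g := fun _ => L)]
      · simp
      · intro j hj
        have hj := Finset.mem_range.1 hj
        rw [Nat.mul_add_div hk, Nat.div_eq_of_lt hj, add_zero]
    rw [e]
    nlinarith [ih]

theorem monic_ge {E : Set ℂ} (hE : IsCompact E) (hd : HasTransfiniteDiam E 1) {q : ℂ[X]} (hq : q.Monic)
    (hk0 : 0 < q.natDegree) : ∃ z ∈ E, 1 ≤ ‖q.eval z‖ := by
  by_contra hcon
  push Not at hcon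
  obtain ⟨M, hM, hEM⟩ : ∃ M : ℝ, 1 ≤ M ∧ ∀ z ∈ E, ‖z‖ ≤ M := by
    obtain ⟨M, hM⟩ := hE.isBounded.exists_norm_le
    exact ⟨max 1 M, le_max_left _ _, fun z hz => (hM z hz).trans (le_max_right _ _)⟩
  obtain ⟨ρ, hρ0, hρ1, hqρ⟩ : ∃ ρ : ℝ, 0 < ρ ∧ ρ < 1 ∧ ∀ z ∈ E, ‖q.eval z‖ ≤ ρ := by
    rcases E.eq_empty_or_nonempty with h | h
    · exact ⟨1/2, by norm_num, by norm_num, by simp [h]⟩
    · obtain ⟨z, hz, hz2⟩ := hE.exists_isMaxOn h (f := fun z => ‖q.eval z‖) (by fun_prop)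
      refine ⟨max (1/2) ‖q.eval z‖, by positivity, max_lt (by norm_num) (hcon z hz), fun y hy => ?_⟩
      exact (hz2 hy).trans (le_max_right _ _)
  set k := q.natDegree with hk
  have key : ∀ N : ℕ, maxProd E N ≤ (N.factorial : ℝ) * (M ^ k) ^ N * ρ ^ (∑ j ∈ Finset.range N, j / k) := by
    intro N
    apply Real.sSup_le
    · rintro _ ⟨w, hw, rfl⟩
      exact vprod_le hq hk.symm hk0 hM hEM hρ0 hqρ w hw
    · positivity
  have hlρ : Real.log ρ < 0 := Real.log_neg hρ0 hρ1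
  have hkR : (0:ℝ) < k := by exact_mod_cast hk0
  set ε : ℝ := - Real.log ρ / (20 * k) with hε
  have hε0 : 0 < ε := by rw [hε]; apply div_pos <;> linarith
  have ev1 : ∀ᶠ N : ℕ in atTop, Real.exp (-ε) < nDiam E N := by
    have : Real.exp (-ε) < 1 := by rw [Real.exp_lt_one_iff]; linarith
    exact hd.eventually (lt_mem_nhds this)
  have ev2 : ∀ᶠ N : ℕ in atTop, Real.log N ≤ ε * N := by
    have h := Real.isLittleO_log_id_atTop.def hε0
    have h2 := tendsto_natCast_atTop_atTop (R := ℝ) |>.eventually h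
    filter_upwards [h2] with N hN
    have := (le_abs_self _).trans hN
    simpa using this
  have ev3 : ∀ᶠ N : ℕ in atTop, k * Real.log M ≤ ε * N := by
    have h := (tendsto_natCast_atTop_atTop (R := ℝ)).const_mul_atTop hε0
    exact h.eventually_ge_atTop _
  have hL : Tendsto (fun L : ℕ => k * L) atTop atTop := by
    exact tendsto_id.const_mul_atTop' hk0
  obtain ⟨L, ⟨⟨h1, h2⟩, h3⟩, hL2⟩ := ((hL.eventually ((ev1.and ev2).and ev3)).and (eventually_ge_atTop 2)).exists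
  set N := k * L with hN
  have hN2 : 2 ≤ N := by nlinarith
  have hNR : (2:ℝ) ≤ N := by exact_mod_cast hN2
  have hmp : 0 < maxProd E N := by
    rcases (maxProd_nonneg E N).lt_or_eq with h | h
    · exact h
    · exfalso
      have : nDiam E N = 0 := by
        unfold nDiam
        rw [← h]
        apply Real.zero_rpow
        have : (0:ℝ) < (N:ℝ) * ((N:ℝ) - 1) := by nlinarith
        positivity
      rw [this] at h1
      exact absurd h1 (not_lt.2 (Real.exp_pos _).le)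
  have hlog1 : -ε < Real.log (nDiam E N) := by
    rw [Real.lt_log_iff_exp_lt ((Real.exp_pos _).trans h1)]; exact h1
  have hlog2 : Real.log (nDiam E N) = 2 / ((N:ℝ) * ((N:ℝ) - 1)) * Real.log (maxProd E N) := by
    unfold nDiam
    rw [Real.log_rpow hmp]
  have hNN : (0:ℝ) < (N:ℝ) * ((N:ℝ) - 1) := by nlinarith
  have hN1 : (N:ℝ) - 1 ≠ 0 := by
    intro h; linarith
  have hlog3 : -ε * ((N:ℝ) * ((N:ℝ) - 1) / 2) ≤ Real.log (maxProd E N) := by
    rw [hlog2] at hlog1
    have := mul_lt_mul_of_pos_right hlog1 (show (0:ℝ) < (N:ℝ) * ((N:ℝ) - 1) / 2 by positivity)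
    have e : 2 / ((N:ℝ) * ((N:ℝ) - 1)) * Real.log (maxProd E N) * ((N:ℝ) * ((N:ℝ) - 1) / 2) = Real.log (maxProd E N) := by
      field_simp
    rw [e] at this
    exact this.le
  have hlog4 : Real.log (maxProd E N) ≤ N * Real.log N + N * (k * Real.log M) + (∑ j ∈ Finset.range N, j / k : ℕ) * Real.log ρ := by
    have h := Real.log_le_log hmp (key N)
    rw [Real.log_mul (by positivity) (by positivity), Real.log_mul (by positivity) (by positivity),
      Real.log_pow, Real.log_pow, Real.log_pow] at h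
    have h5 : Real.log (N.factorial : ℝ) ≤ N * Real.log N := by
      rw [← Real.log_pow]
      apply Real.log_le_log (by positivity)
      exact_mod_cast Nat.factorial_le_pow N
    linarith
  have hS : (N:ℝ)^2 / (4 * k) ≤ ((∑ j ∈ Finset.range N, j / k : ℕ) : ℝ) := by
    have h := sum_div k L hk0
    have hR : 2 * ((∑ j ∈ Finset.range N, j / k : ℕ) : ℝ) + k * L = k * L * L := by exact_mod_cast h
    have hLR : (2:ℝ) ≤ L := by exact_mod_cast hL2
    have hNe : (N:ℝ) = k * L := by rw [hN]; push_cast; ring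
    rw [hNe]
    have : ((k:ℝ) * L)^2 / (4 * k) = k * L * L / 4 := by field_simp
    rw [this]
    nlinarith [mul_pos hkR (by linarith : (0:ℝ) < L)]
  have h6 : ((∑ j ∈ Finset.range N, j / k : ℕ) : ℝ) * Real.log ρ ≤ -(5 * ε * (N:ℝ)^2) := by
    have : ((∑ j ∈ Finset.range N, j / k : ℕ) : ℝ) * Real.log ρ ≤ (N:ℝ)^2 / (4 * k) * Real.log ρ :=
      mul_le_mul_of_nonpos_right hS hlρ.le
    refine this.trans (le_of_eq ?_)
    rw [hε]
    field_simp
    ring
  have h7 : (N:ℝ) * Real.log N ≤ ε * (N:ℝ)^2 := by nlinarith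
  have h8 : (N:ℝ) * (k * Real.log M) ≤ ε * (N:ℝ)^2 := by nlinarith
  have h9 : -(ε * (N:ℝ)^2) ≤ -ε * ((N:ℝ) * ((N:ℝ) - 1) / 2) := by nlinarith [mul_pos hε0 (by linarith : (0:ℝ) < N)]
  nlinarith [mul_pos hε0 (by positivity : (0:ℝ) < (N:ℝ)^2)]

end Pool.Agent.H655R3.Dia
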