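import Mathlib
import Pool.Agent.H655R3.DiaCheb

set_option autoImplicit false

open Filter Topology Set Polynomial

namespace Pool.Agent.H655R3.Dia

theorem vprod_pos_iff {n : ℕ} (w : Fin n → ℂ) : 0 < vprod w ↔ Function.Injective w := by
  rw [vprod_eq_det, norm_pos_iff, Matrix.det_vandermonde_ne_zero_iff]

theorem infinite_of {E : Set ℂ} (hd : HasTransfiniteDiam E 1) : E.Infinite := by
  intro hfin
  have ev : ∀ᶠ N : ℕ in atTop, nDiam E N = 0 := by
    filter_upwards [eventually_ge_atTop (hfin.toFinset.card + 2)] with N hN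
    have h0 : maxProd E N = 0 := by
      apply le_antisymm _ (maxProd_nonneg E N)
      apply Real.sSup_le _ le_rfl
      rintro _ ⟨w, hw, rfl⟩
      by_contra hcon
      push Not at hcon
      rw [vprod_pos_iff] at hcon
      have h1 : (Finset.univ.image w).card ≤ hfin.toFinset.card := by
        apply Finset.card_le_card
        intro z hz
        obtain ⟨i, _, rfl⟩ := Finset.mem_image.1 hz
        simpa using hw i
      rw [Finset.card_image_of_injective _ hcon, Finset.card_univ, Fintype.card_fin] at h1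
      omega
    unfold nDiam
    rw [h0]
    apply Real.zero_rpow
    have : (2:ℝ) ≤ N := by exact_mod_cast (by omega : 2 ≤ N)
    have : (0:ℝ) < (N:ℝ) * ((N:ℝ) - 1) := by nlinarith
    positivity
  have h1 : Tendsto (fun n => nDiam E n) atTop (𝓝 0) := by
    apply (tendsto_congr' ev).2 tendsto_const_nhds
  have := tendsto_nhds_unique hd h1
  norm_num at this

theorem maxProd_pos {E : Set ℂ} (hE : IsCompact E) (hinf : E.Infinite) (n : ℕ) : 0 < maxProd E n := by
  have f := hinf.natEmbedding
  have hw : ∀ i : Fin n, ((f (i : ℕ)) : ℂ) ∈ E := fun i => (f (i:ℕ)).2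
  refine lt_of_lt_of_le ?_ (le_maxProd hE hw)
  rw [vprod_pos_iff]
  intro i j hij
  exact Fin.ext (f.injective (Subtype.ext hij))

theorem fekete_ge {E : Set ℂ} (hE : IsCompact E) (hd : HasTransfiniteDiam E 1) {k : ℕ}
    {w : Fin (k + 1) → ℂ} (hw : ∀ i, w i ∈ E) (hmax : vprod w = maxProd E (k + 1)) (i : Fin (k + 1)) :
    1 ≤ ‖∏ j ∈ Finset.univ.erase i, (w i - w j)‖ := by
  set σ : Equiv.Perm (Fin (k + 1)) := Equiv.swap 0 i with hσ
  set u : Fin (k + 1) → ℂ := w ∘ σ with hu
  have hu0 : u 0 = w i := by simp [hu, hσ]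
  set t : Fin k → ℂ := Fin.tail u with ht
  have hcons : (Fin.cons (u 0) t : Fin (k + 1) → ℂ) = u := Fin.cons_self_tail u
  have hpos : 0 < vprod u := by
    rw [hu, vprod_perm, hmax]; exact maxProd_pos hE (infinite_of hd) _
  have htE : ∀ j, t j ∈ E := fun j => hw _
  have hvt : 0 < vprod t := by
    rw [← hcons, vprod_cons] at hpos
    rcases (vprod_nonneg t).lt_or_eq with h | h
    · exact h
    · rw [← h, mul_zero] at hpos; exact absurd hpos (lt_irrefl _)
  have hz : ∀ z ∈ E, (∏ j, ‖z - t j‖) ≤ ∏ j, ‖w i - t j‖ := by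
    intro z hz
    have h1 : vprod (Fin.cons z t : Fin (k + 1) → ℂ) ≤ vprod (Fin.cons (u 0) t : Fin (k + 1) → ℂ) := by
      rw [hcons, hu, vprod_perm, hmax]
      apply le_maxProd hE
      intro j
      refine Fin.cases ?_ (fun j => ?_) j
      · simpa using hz
      · simpa using htE j
    rw [vprod_cons, vprod_cons, hu0] at h1
    exact le_of_mul_le_mul_right h1 hvt
  have hfin : ‖∏ j ∈ Finset.univ.erase i, (w i - w j)‖ = ∏ j, ‖w i - t j‖ := by
    rw [norm_prod]
    symm
    refine Finset.prod_bij (fun j _ => σ j.succ) ?_ ?_ ?_ ?_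
    · intro j _
      rw [Finset.mem_erase]
      refine ⟨fun h => ?_, Finset.mem_univ _⟩
      have : σ j.succ = σ 0 := by rw [h, hσ, Equiv.swap_apply_left]
      exact (Fin.succ_ne_zero j) (σ.injective this)
    · intro a _ b _ hab
      exact Fin.succ_injective _ (σ.injective hab)
    · intro b hb
      rw [Finset.mem_erase] at hb
      have h1 : σ b ≠ 0 := by
        intro h
        apply hb.1
        have : σ (σ b) = σ 0 := by rw [h]
        rw [hσ, Equiv.swap_apply_self, Equiv.swap_apply_left] at this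
        exact this
      obtain ⟨j, hj⟩ := Fin.exists_succ_eq.2 h1
      refine ⟨j, Finset.mem_univ _, ?_⟩
      show σ j.succ = b
      rw [hj, hσ, Equiv.swap_apply_self]
    · intro j _
      rfl
  rw [hfin]
  rcases Nat.eq_zero_or_pos k with hk | hk
  · subst hk; simp
  · obtain ⟨z, hzE, hz1⟩ := monic_ge hE hd (q := ∏ j : Fin k, (X - C (t j))) (monic_prod_of_monic _ _ (fun j _ => monic_X_sub_C _)) (by
      rw [natDegree_prod_of_monic _ _ (fun j _ => monic_X_sub_C _)]
      simpa using hk)
    refine hz1.trans (le_trans (le_of_eq ?_) (hz z hzE))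
    rw [eval_prod, norm_prod]
    simp

/-- divided differences at Fekete points -/
theorem exists_functional {E : Set ℂ} (hE : IsCompact E) (hd : HasTransfiniteDiam E 1) (k : ℕ) :
    ∃ x lam : ℕ → ℂ, (∀ i ∈ Finset.range (k + 1), x i ∈ E) ∧
      (∑ i ∈ Finset.range (k + 1), ‖lam i‖ ≤ (k : ℝ) + 1) ∧
      (∀ j < k, ∑ i ∈ Finset.range (k + 1), lam i * x i ^ j = 0) ∧
      (∑ i ∈ Finset.range (k + 1), lam i * x i ^ k = 1) := by
  obtain ⟨w, hw, hmax⟩ := exists_fekete hE (infinite_of hd).nonempty (k + 1)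
  have hinj : Function.Injective w := by
    rw [← vprod_pos_iff, hmax]; exact maxProd_pos hE (infinite_of hd) _
  refine ⟨fun i => if h : i < k + 1 then w ⟨i, h⟩ else 0,
    fun i => if h : i < k + 1 then (∏ j ∈ Finset.univ.erase (⟨i, h⟩ : Fin (k+1)), (w ⟨i, h⟩ - w j))⁻¹ else 0, ?_, ?_, ?_, ?_⟩
  · intro i hi
    have := Finset.mem_range.1 hi
    simp only [this, dif_pos]
    exact hw _
  · rw [Finset.sum_range]
    calc _ ≤ ∑ i : Fin (k + 1), (1:ℝ) := by
          apply Finset.sum_le_sum
          intro i _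
          have : (i : ℕ) < k + 1 := i.2
          simp only [this, dif_pos, norm_inv]
          exact inv_le_one_of_one_le₀ (fekete_ge hE hd hw hmax i)
      _ = _ := by simp
  · intro j hj
    rw [Finset.sum_range]
    have h := Lagrange.coeff_eq_sum (s := (Finset.univ : Finset (Fin (k + 1)))) (v := w) hinj.injOn (P := (X ^ j : ℂ[X])) (by
      rw [degree_X_pow]; simp; exact_mod_cast (by omega : j < k + 1))
    rw [coeff_X_pow] at h
    simp only [Finset.card_univ, Fintype.card_fin, Nat.add_sub_cancel, eval_pow, eval_X] at h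
    rw [if_neg (by omega)] at h
    refine Eq.trans ?_ h.symm
    apply Finset.sum_congr rfl
    intro i _
    have : (i : ℕ) < k + 1 := i.2
    simp only [this, dif_pos]
    rw [div_eq_mul_inv, mul_comm]
  · rw [Finset.sum_range]
    have h := Lagrange.coeff_eq_sum (s := (Finset.univ : Finset (Fin (k + 1)))) (v := w) hinj.injOn (P := (X ^ k : ℂ[X])) (by
      rw [degree_X_pow]; simp; exact_mod_cast (by omega : k < k + 1))
    rw [coeff_X_pow] at h
    simp only [Finset.card_univ, Fintype.card_fin, Nat.add_sub_cancel, eval_pow, eval_X, if_true] at h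
    refine Eq.trans ?_ h.symm
    apply Finset.sum_congr rfl
    intro i _
    have : (i : ℕ) < k + 1 := i.2
    simp only [this, dif_pos]
    rw [div_eq_mul_inv, mul_comm]

end Pool.Agent.H655R3.Dia
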