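import Mathlib
import Pool.Agent.H655R3.DiaFek

set_option autoImplicit false

open Filter Topology Set

namespace Pool.Agent.H655R3.Dia

theorem coeff_bound {E : Set ℂ} (hE : IsCompact E) (hd : HasTransfiniteDiam E 1) {n T : ℕ}
    {G : MvPolynomial (Fin n) ℂ} (hG : G.IsHomogeneous T) {B : ℝ}
    (hB : ∀ w : Fin n → ℂ, (∀ i, w i ∈ E) → ‖MvPolynomial.eval w G‖ ≤ B) (e : Fin n →₀ ℕ)
    (he : G.coeff e ≠ 0) : ‖G.coeff e‖ ≤ ((T : ℝ) + 1) ^ n * B := by
  choose x lam hx hlam h0 h1 using fun k => exists_functional hE hd k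
  have heT : ∑ l, e l = T := by
    have := hG he
    rw [Finsupp.weight_apply] at this
    rw [← this, Finsupp.sum_fintype _ _ (by simp)]
    simp
  have key : ∑ p ∈ Fintype.piFinset (fun l => Finset.range (e l + 1)),
      (∏ l, lam (e l) (p l)) * MvPolynomial.eval (fun l => x (e l) (p l)) G = G.coeff e := by
    simp_rw [MvPolynomial.eval_eq', Finset.mul_sum]
    rw [Finset.sum_comm]
    have h2 : ∀ d ∈ G.support, ∑ p ∈ Fintype.piFinset (fun l => Finset.range (e l + 1)),
        (∏ l, lam (e l) (p l)) * (G.coeff d * ∏ l, x (e l) (p l) ^ d l) = if d = e then G.coeff e else 0 := by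
      intro d hd
      have h3 : ∑ p ∈ Fintype.piFinset (fun l => Finset.range (e l + 1)),
        (∏ l, lam (e l) (p l)) * (G.coeff d * ∏ l, x (e l) (p l) ^ d l) =
        G.coeff d * ∏ l, ∑ i ∈ Finset.range (e l + 1), lam (e l) i * x (e l) i ^ d l := by
        rw [Finset.prod_univ_sum, Finset.mul_sum]
        apply Finset.sum_congr rfl
        intro p _
        rw [Finset.prod_mul_distrib]
        ring
      rw [h3]
      split_ifs with hde
      · subst hde
        rw [Finset.prod_congr rfl (fun l _ => h1 (d l))]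
        simp
      · have hdT : ∑ l, d l = T := by
          have := hG (MvPolynomial.mem_support_iff.1 hd)
          rw [Finsupp.weight_apply] at this
          rw [← this, Finsupp.sum_fintype _ _ (by simp)]
          simp
        obtain ⟨l, hl⟩ : ∃ l, d l < e l := by
          by_contra hcon
          push Not at hcon
          apply hde
          have : ∀ l ∈ Finset.univ, e l = d l := by
            rw [← Finset.sum_eq_sum_iff_of_le (fun l _ => hcon l)]
            rw [heT, hdT]
          ext l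
          exact (this l (Finset.mem_univ _)).symm
        rw [Finset.prod_eq_zero (Finset.mem_univ l) (h0 (e l) (d l) hl), mul_zero]
    rw [Finset.sum_congr rfl h2, Finset.sum_ite_eq', if_pos (MvPolynomial.mem_support_iff.2 he)]
  have hne := (infinite_of hd).nonempty
  have hB0 : 0 ≤ B := by
    obtain ⟨z, hz⟩ := hne
    exact (norm_nonneg _).trans (hB (fun _ => z) (fun _ => hz))
  rw [← key]
  calc ‖∑ p ∈ Fintype.piFinset (fun l => Finset.range (e l + 1)),
      (∏ l, lam (e l) (p l)) * MvPolynomial.eval (fun l => x (e l) (p l)) G‖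
      ≤ ∑ p ∈ Fintype.piFinset (fun l => Finset.range (e l + 1)),
      (∏ l, ‖lam (e l) (p l)‖) * B := by
        refine (norm_sum_le _ _).trans (Finset.sum_le_sum fun p hp => ?_)
        rw [norm_mul, norm_prod]
        have : ‖MvPolynomial.eval (fun l => x (e l) (p l)) G‖ ≤ B := by
          apply hB
          intro l
          exact hx _ _ (Fintype.mem_piFinset.1 hp l)
        gcongr
    _ = (∏ l, ∑ i ∈ Finset.range (e l + 1), ‖lam (e l) i‖) * B := by
        rw [Finset.prod_univ_sum, Finset.sum_mul]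
    _ ≤ (∏ l : Fin n, ((T : ℝ) + 1)) * B := by
        gcongr with l hl
        refine (hlam (e l)).trans ?_
        have : e l ≤ T := by
          rw [← heT]
          exact Finset.single_le_sum (f := fun l => e l) (fun _ _ => Nat.zero_le _) (Finset.mem_univ l)
        have : (e l : ℝ) ≤ T := by exact_mod_cast this
        linarith
    _ = _ := by simp

theorem support_card {n T : ℕ} {G : MvPolynomial (Fin n) ℂ} (hG : G.IsHomogeneous T) :
    G.support.card ≤ (T + 1) ^ n := by
  have h : (G.support.card) ≤ (Fintype.piFinset (fun _ : Fin n => Finset.range (T + 1))).card := by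
    apply Finset.card_le_card_of_injOn (fun e l => e l)
    · intro e he
      have he := Finset.mem_coe.1 he
      have heT : ∑ l, e l = T := by
        have := hG (MvPolynomial.mem_support_iff.1 he)
        rw [Finsupp.weight_apply] at this
        rw [← this, Finsupp.sum_fintype _ _ (by simp)]
        simp
      rw [Finset.mem_coe, Fintype.mem_piFinset]
      intro l
      rw [Finset.mem_range]
      have : e l ≤ T := by
        rw [← heT]
        exact Finset.single_le_sum (f := fun l => e l) (fun _ _ => Nat.zero_le _) (Finset.mem_univ l)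
      show e l < T + 1
      omega
    · intro a _ b _ hab
      exact DFunLike.coe_injective hab
  rw [Fintype.card_piFinset] at h
  simpa using h

/-- a homogeneous polynomial on the closed unit polydisc is bounded by its maximum on `E ^ n` -/
theorem eval_le {E : Set ℂ} (hE : IsCompact E) (hd : HasTransfiniteDiam E 1) {n D : ℕ}
    {G : MvPolynomial (Fin n) ℂ} (hG : G.IsHomogeneous D) {B : ℝ}
    (hB : ∀ w : Fin n → ℂ, (∀ i, w i ∈ E) → ‖MvPolynomial.eval w G‖ ≤ B)
    (om : Fin n → ℂ) (hom : ∀ i, ‖om i‖ ≤ 1) : ‖MvPolynomial.eval om G‖ ≤ B := by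
  have hne := (infinite_of hd).nonempty
  have hB0 : 0 ≤ B := by
    obtain ⟨z, hz⟩ := hne
    exact (norm_nonneg _).trans (hB (fun _ => z) (fun _ => hz))
  have main : ∀ m : ℕ, ‖MvPolynomial.eval om G‖ ^ m ≤ ((((D * m : ℕ) : ℝ) + 1) ^ n) ^ 2 * B ^ m := by
    intro m
    have hGm : (G ^ m).IsHomogeneous (D * m) := hG.pow m
    rw [← norm_pow, ← map_pow, MvPolynomial.eval_eq']
    refine (norm_sum_le _ _).trans ?_
    have h1 : ∀ e ∈ (G ^ m).support, ‖(G ^ m).coeff e * ∏ i, om i ^ e i‖ ≤ (((D * m : ℕ) : ℝ) + 1) ^ n * B ^ m := by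
      intro e he
      rw [norm_mul]
      have h2 : ‖∏ i, om i ^ e i‖ ≤ 1 := by
        rw [norm_prod]
        apply Finset.prod_le_one
        · intro i _; exact norm_nonneg _
        · intro i _; rw [norm_pow]; exact pow_le_one₀ (norm_nonneg _) (hom i)
      have h3 : ‖(G ^ m).coeff e‖ ≤ (((D * m : ℕ) : ℝ) + 1) ^ n * B ^ m := by
        apply coeff_bound hE hd hGm _ e (MvPolynomial.mem_support_iff.1 he)
        intro w hw
        rw [map_pow, norm_pow]
        have := hB w hw
        gcongr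
      calc _ ≤ ((((D * m : ℕ) : ℝ) + 1) ^ n * B ^ m) * 1 := by gcongr
        _ = _ := mul_one _
    refine (Finset.sum_le_sum h1).trans ?_
    rw [Finset.sum_const, nsmul_eq_mul]
    have h4 : ((G ^ m).support.card : ℝ) ≤ (((D * m : ℕ) : ℝ) + 1) ^ n := by
      exact_mod_cast support_card hGm
    calc _ ≤ (((D * m : ℕ) : ℝ) + 1) ^ n * ((((D * m : ℕ) : ℝ) + 1) ^ n * B ^ m) := by gcongr
      _ = _ := by ring
  by_contra hcon
  push Not at hcon
  set v := ‖MvPolynomial.eval om G‖ with hv
  have hv0 : 0 < v := lt_of_le_of_lt hB0 hcon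
  -- choose B' > 0 with B ≤ B' < v
  set B' := (B + v) / 2 with hB'
  have hB'0 : 0 < B' := by rw [hB']; linarith
  have hB'v : B' < v := by rw [hB']; linarith
  have hBB' : B ≤ B' := by rw [hB']; linarith
  have hr : 1 < v / B' := by rw [lt_div_iff₀ hB'0]; linarith
  have hlim := tendsto_pow_const_div_const_pow_of_one_lt (2 * n) hr
  have h5 : ∀ m : ℕ, 1 ≤ m → 1 ≤ (((D:ℝ) + 1) ^ (2 * n)) * ((m:ℝ) ^ (2 * n) / (v / B') ^ m) := by
    intro m hm
    have hmR : (1:ℝ) ≤ m := by exact_mod_cast hm
    have h6 := main m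
    have h7 : (((D * m : ℕ) : ℝ) + 1) ≤ ((D:ℝ) + 1) * m := by push_cast; nlinarith [Nat.cast_nonneg (α := ℝ) D]
    have h8 : v ^ m ≤ (((((D:ℝ) + 1) * m)) ^ n) ^ 2 * B' ^ m := by
      refine h6.trans ?_
      gcongr
    have h9 : (((((D:ℝ) + 1) * m)) ^ n) ^ 2 = (((D:ℝ) + 1) ^ (2 * n)) * (m:ℝ) ^ (2 * n) := by
      rw [← pow_mul, mul_comm n 2, mul_pow]
    rw [h9] at h8
    rw [div_pow]
    have hvm : 0 < v ^ m := pow_pos hv0 m
    have hBm : 0 < B' ^ m := pow_pos hB'0 m
    rw [← mul_div_assoc, le_div_iff₀ (by positivity), one_mul, div_le_iff₀ hBm]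
    exact h8
  have h10 : Tendsto (fun m : ℕ => (((D:ℝ) + 1) ^ (2 * n)) * ((m:ℝ) ^ (2 * n) / (v / B') ^ m)) atTop (𝓝 0) := by
    have := hlim.const_mul (((D:ℝ) + 1) ^ (2 * n))
    simpa using this
  have h11 := ge_of_tendsto h10 ((eventually_ge_atTop 1).mono h5)
  norm_num at h11

/-- the Vandermonde polynomial -/
noncomputable def vanPoly (n : ℕ) : MvPolynomial (Fin n) ℂ :=
  ∏ i : Fin n, ∏ j ∈ Finset.Ioi i, (MvPolynomial.X i - MvPolynomial.X j)

theorem vanPoly_hom (n : ℕ) : ∃ D, (vanPoly n).IsHomogeneous D := by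
  refine ⟨∑ i : Fin n, ∑ j ∈ Finset.Ioi i, 1, ?_⟩
  unfold vanPoly
  apply MvPolynomial.IsHomogeneous.prod
  intro i _
  apply MvPolynomial.IsHomogeneous.prod
  intro j _
  exact (MvPolynomial.isHomogeneous_X ℂ i).sub (MvPolynomial.isHomogeneous_X ℂ j)

theorem norm_eval_vanPoly {n : ℕ} (w : Fin n → ℂ) : ‖MvPolynomial.eval w (vanPoly n)‖ = vprod w := by
  unfold vanPoly vprod
  simp [map_prod, norm_prod]

theorem vprod_le_maxProd {E : Set ℂ} (hE : IsCompact E) (hd : HasTransfiniteDiam E 1) {n : ℕ}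
    (om : Fin n → ℂ) (hom : ∀ i, ‖om i‖ ≤ 1) : vprod om ≤ maxProd E n := by
  obtain ⟨D, hD⟩ := vanPoly_hom n
  rw [← norm_eval_vanPoly]
  apply eval_le hE hd hD _ om hom
  intro w hw
  rw [norm_eval_vanPoly]
  exact le_maxProd hE hw

end Pool.Agent.H655R3.Dia
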