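import Mathlib
import Pool.Agent.H655R3.DiaCoef

set_option autoImplicit false

open Filter Topology Set

namespace Pool.Agent.H655R3.Dia

/-- the `n`-th roots of unity -/
noncomputable def rt (n : ℕ) (i : Fin n) : ℂ := Complex.exp (2 * Real.pi * Complex.I / n) ^ (i : ℕ)

theorem norm_rt (n : ℕ) (i : Fin n) : ‖rt n i‖ = 1 := by
  unfold rt
  rw [norm_pow]
  have : ‖Complex.exp (2 * Real.pi * Complex.I / n)‖ = 1 := by
    have e : (2 * Real.pi * Complex.I / n : ℂ) = ((2 * Real.pi / n : ℝ) : ℂ) * Complex.I := by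
      push_cast; ring
    rw [e, Complex.norm_exp_ofReal_mul_I]
  rw [this, one_pow]

theorem vprod_rt {n : ℕ} (hn : 0 < n) : vprod (rt n) = (n : ℝ) ^ ((n : ℝ) / 2) := by
  have hprim := Complex.isPrimitiveRoot_exp n hn.ne'
  set ζ := Complex.exp (2 * Real.pi * Complex.I / n) with hζ
  have hn1 : ∀ i, ‖rt n i‖ = 1 := norm_rt n
  have hVV : Matrix.vandermonde (rt n) * (Matrix.vandermonde (rt n)).conjTranspose = (n : ℂ) • (1 : Matrix (Fin n) (Fin n) ℂ) := by
    ext i j
    rw [Matrix.mul_apply, Matrix.smul_apply, Matrix.one_apply]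
    simp only [Matrix.vandermonde_apply, Matrix.conjTranspose_apply, star_pow]
    have e1 : ∀ l : Fin n, rt n i ^ (l : ℕ) * star (rt n j) ^ (l : ℕ) = (rt n i * star (rt n j)) ^ (l : ℕ) := by
      intro l; rw [mul_pow]
    simp_rw [e1]
    rw [Fin.sum_univ_eq_sum_range (fun l => (rt n i * star (rt n j)) ^ l) n]
    have hjj : rt n j * star (rt n j) = 1 := by
      have := Complex.mul_conj (rt n j)
      rw [Complex.star_def, this, Complex.normSq_eq_norm_sq, hn1]
      simp
    split_ifs with hij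
    · subst hij
      rw [hjj]
      simp
    · have hne : rt n i * star (rt n j) ≠ 1 := by
        intro h
        have h2 : rt n i = rt n j := by
          have : rt n i * (star (rt n j) * rt n j) = rt n j := by rw [← mul_assoc, h, one_mul]
          rw [mul_comm (star _), hjj, mul_one] at this
          exact this
        apply hij
        unfold rt at h2
        exact Fin.ext (hprim.pow_inj i.2 j.2 h2)
      have hpow : (rt n i * star (rt n j)) ^ n = 1 := by
        have h3 : ∀ i, (rt n i) ^ n = 1 := by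
          intro i
          unfold rt
          rw [← pow_mul, mul_comm (i : ℕ) n, pow_mul, ← hζ, hprim.pow_eq_one, one_pow]
        rw [mul_pow, ← star_pow, h3, h3]
        simp
      have hg := mul_neg_geom_sum (rt n i * star (rt n j)) n
      rw [hpow, sub_self] at hg
      have := (mul_eq_zero.1 hg).resolve_left (sub_ne_zero.2 (Ne.symm hne))
      rw [this]
      simp
  have hdet := congrArg Matrix.det hVV
  rw [Matrix.det_mul, Matrix.det_conjTranspose, Matrix.det_smul, Matrix.det_one, mul_one, Fintype.card_fin,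
    Complex.star_def, Complex.mul_conj, Complex.normSq_eq_norm_sq, ← vprod_eq_det] at hdet
  have h4 : vprod (rt n) ^ 2 = (n : ℝ) ^ n := by exact_mod_cast hdet
  have h5 : vprod (rt n) = Real.sqrt ((n : ℝ) ^ n) := by
    rw [← h4, Real.sqrt_sq (vprod_nonneg _)]
  rw [h5, Real.sqrt_eq_rpow, ← Real.rpow_natCast, ← Real.rpow_mul (by positivity)]
  congr 1
  ring

theorem maxProd_ge {E : Set ℂ} (hE : IsCompact E) (hd : HasTransfiniteDiam E 1) {n : ℕ} (hn : 0 < n) :
    (n : ℝ) ^ ((n : ℝ) / 2) ≤ maxProd E n := by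
  rw [← vprod_rt hn]
  exact vprod_le_maxProd hE hd _ (fun i => (norm_rt n i).le)

/-- Q1: every compact plane set of transfinite diameter one has `d_n(E) ≥ n ^ (1/(n-1))`. -/
theorem main {E : Set ℂ} (hE : IsCompact E) (hd : HasTransfiniteDiam E 1) {n : ℕ} (hn : 2 ≤ n) :
    (∃ w : Fin n → ℂ, (∀ i, w i ∈ E) ∧ (n : ℝ) ^ ((n : ℝ) / 2) ≤ ∏ i : Fin n, ∏ j ∈ Finset.Ioi i, ‖w i - w j‖) ∧
    (n : ℝ) ^ ((1 : ℝ) / ((n : ℝ) - 1)) ≤ nDiam E n := by
  have h := maxProd_ge hE hd (n := n) (by omega)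
  constructor
  · obtain ⟨w, hw, hmax⟩ := exists_fekete hE (infinite_of hd).nonempty n
    refine ⟨w, hw, ?_⟩
    rw [← hmax] at h
    exact h
  · unfold nDiam
    have hnR : (2:ℝ) ≤ n := by exact_mod_cast hn
    have hn1 : (n:ℝ) - 1 ≠ 0 := by intro h; linarith
    have h2 : (n : ℝ) ^ ((1 : ℝ) / ((n : ℝ) - 1)) = ((n : ℝ) ^ ((n : ℝ) / 2)) ^ ((2 : ℝ) / ((n : ℝ) * ((n : ℝ) - 1))) := by
      rw [← Real.rpow_mul (by positivity)]
      congr 1
      field_simp
    rw [h2]
    apply Real.rpow_le_rpow (by positivity) h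
    have : (0:ℝ) < (n:ℝ) * ((n:ℝ) - 1) := by nlinarith
    positivity

end Pool.Agent.H655R3.Dia
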