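import Pool.Agent.H655R3.HoleDefs

/-!
# Deterministic estimates for the Gaussian entire function
-/

set_option autoImplicit false

open MeasureTheory Set Filter Topology

namespace Pool.Agent.H655R3.Hole

/-- the basis functions `zⁿ / √(n!)` -/
noncomputable def bas (n : ℕ) (z : ℂ) : ℂ := z ^ n / ((√(n.factorial : ℝ) : ℝ) : ℂ)

lemma bas_norm (n : ℕ) (z : ℂ) : ‖bas n z‖ = ‖z‖ ^ n / √(n.factorial : ℝ) := by
  unfold bas
  rw [norm_div, norm_pow, Complex.norm_real, Real.norm_eq_abs, abs_of_nonneg (Real.sqrt_nonneg _)]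

lemma bas_norm_sq (n : ℕ) (z : ℂ) : ‖bas n z‖ ^ 2 = (‖z‖ ^ 2) ^ n / n.factorial := by
  rw [bas_norm, div_pow, Real.sq_sqrt (by positivity)]
  ring

/-- the polynomial part -/
noncomputable def FF (N : ℕ) (w : Fin N → ℂ) (z : ℂ) : ℂ := ∑ n : Fin N, w n * bas n z

/-- euclidean norm -/
noncomputable def nw {N : ℕ} (w : Fin N → ℂ) : ℝ := √(∑ n, ‖w n‖ ^ 2)

lemma nw_nonneg {N : ℕ} (w : Fin N → ℂ) : 0 ≤ nw w := Real.sqrt_nonneg _

lemma FF_bound (N : ℕ) (w : Fin N → ℂ) (z : ℂ) :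
    ‖FF N w z‖ ≤ nw w * Real.exp (‖z‖ ^ 2 / 2) := by
  have h1 : ‖FF N w z‖ ≤ ∑ n : Fin N, ‖w n‖ * ‖bas n z‖ := by
    unfold FF
    refine (norm_sum_le _ _).trans (Finset.sum_le_sum fun n _ => ?_)
    rw [norm_mul]
  have h2 : (∑ n : Fin N, ‖w n‖ * ‖bas n z‖) ^ 2 ≤
      (∑ n : Fin N, ‖w n‖ ^ 2) * ∑ n : Fin N, ‖bas n z‖ ^ 2 :=
    Finset.sum_mul_sq_le_sq_mul_sq _ _ _
  have h3 : ∑ n : Fin N, ‖bas n z‖ ^ 2 ≤ Real.exp (‖z‖ ^ 2) := by
    simp_rw [bas_norm_sq]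
    rw [Fin.sum_univ_eq_sum_range (fun n => (‖z‖ ^ 2) ^ n / (n.factorial : ℝ)) N]
    exact Real.sum_le_exp_of_nonneg (by positivity) N
  have h4 : ∑ n : Fin N, ‖w n‖ * ‖bas n z‖ ≤ nw w * Real.exp (‖z‖ ^ 2 / 2) := by
    apply le_of_sq_le_sq _ (by have := nw_nonneg w; positivity)
    rw [mul_pow, nw, Real.sq_sqrt (Finset.sum_nonneg fun n _ => by positivity), ← Real.exp_nat_mul]
    refine h2.trans ?_
    have : Real.exp (((2 : ℕ) : ℝ) * (‖z‖ ^ 2 / 2)) = Real.exp (‖z‖ ^ 2) := by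
      congr 1; push_cast; ring
    rw [this]
    gcongr
  exact h1.trans h4

lemma FF_sub (N : ℕ) (w w' : Fin N → ℂ) (z : ℂ) : FF N (w - w') z = FF N w z - FF N w' z := by
  unfold FF
  rw [← Finset.sum_sub_distrib]
  refine Finset.sum_congr rfl fun n _ => ?_
  rw [Pi.sub_apply, sub_mul]

lemma FF_diff (N : ℕ) (w : Fin N → ℂ) : Differentiable ℂ (FF N w) := by
  unfold FF bas
  fun_prop

/-- the recentred function at the real point `s` -/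
noncomputable def gl (N : ℕ) (w : Fin N → ℂ) (s : ℝ) (u : ℂ) : ℂ :=
  FF N w (s + u) * Complex.exp (-(s * u) - s ^ 2 / 2)

lemma gl_diff (N : ℕ) (w : Fin N → ℂ) (s : ℝ) : Differentiable ℂ (gl N w s) := by
  have := FF_diff N w
  unfold gl
  fun_prop

lemma exp_norm (s : ℝ) (u : ℂ) : ‖Complex.exp (-(s * u) - s ^ 2 / 2)‖ =
    Real.exp (-(s * u.re) - s ^ 2 / 2) := by
  rw [Complex.norm_exp]
  congr 1
  have : (s : ℂ) ^ 2 / 2 = ((s ^ 2 / 2 : ℝ) : ℂ) := by push_cast; ring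
  rw [this, Complex.sub_re, Complex.neg_re, Complex.re_ofReal_mul, Complex.ofReal_re]

lemma normsq_shift (s : ℝ) (u : ℂ) : ‖(s : ℂ) + u‖ ^ 2 = s ^ 2 + 2 * s * u.re + ‖u‖ ^ 2 := by
  rw [← Complex.normSq_eq_norm_sq, ← Complex.normSq_eq_norm_sq, Complex.normSq_apply,
    Complex.normSq_apply]
  simp
  ring

lemma gl_bound (N : ℕ) (w : Fin N → ℂ) (s : ℝ) (u : ℂ) :
    ‖gl N w s u‖ ≤ nw w * Real.exp (‖u‖ ^ 2 / 2) := by
  unfold gl
  rw [norm_mul, exp_norm]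
  calc ‖FF N w (s + u)‖ * Real.exp (-(s * u.re) - s ^ 2 / 2)
      ≤ (nw w * Real.exp (‖(s : ℂ) + u‖ ^ 2 / 2)) * Real.exp (-(s * u.re) - s ^ 2 / 2) := by
        gcongr
        exact FF_bound N w _
    _ = nw w * Real.exp (‖u‖ ^ 2 / 2) := by
        rw [mul_assoc, ← Real.exp_add, normsq_shift]
        congr 2
        ring

lemma FF_of_gl (N : ℕ) (w : Fin N → ℂ) (s : ℝ) (u : ℂ) :
    ‖FF N w (s + u)‖ ≤ ‖gl N w s u‖ * Real.exp (‖(s : ℂ) + u‖ ^ 2 / 2) := by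
  unfold gl
  rw [norm_mul, exp_norm, mul_assoc, ← Real.exp_add, normsq_shift]
  have : 1 ≤ Real.exp (-(s * u.re) - s ^ 2 / 2 + (s ^ 2 + 2 * s * u.re + ‖u‖ ^ 2) / 2) := by
    apply Real.one_le_exp
    have : -(s * u.re) - s ^ 2 / 2 + (s ^ 2 + 2 * s * u.re + ‖u‖ ^ 2) / 2 = ‖u‖ ^ 2 / 2 := by ring
    rw [this]
    positivity
  have h0 := norm_nonneg (FF N w (s + u))
  nlinarith

/-- Taylor coefficients of the recentred function -/
noncomputable def cf (N : ℕ) (w : Fin N → ℂ) (s : ℝ) (m : ℕ) : ℂ :=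
  (m.factorial : ℂ)⁻¹ * iteratedDeriv m (gl N w s) 0

lemma cf_bound (N : ℕ) (w : Fin N → ℂ) (s : ℝ) (m : ℕ) (R : ℝ) (hR : 0 < R) :
    ‖cf N w s m‖ * R ^ m ≤ nw w * Real.exp (R ^ 2 / 2) := by
  have h := Complex.norm_iteratedDeriv_le_of_forall_mem_sphere_norm_le (c := 0) (R := R)
    (C := nw w * Real.exp (R ^ 2 / 2)) m hR (gl_diff N w s).diffContOnCl (fun z hz => by
      have : ‖z‖ = R := by simpa using hz
      rw [← this]
      exact gl_bound N w s z)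
  unfold cf
  rw [norm_mul, norm_inv, Complex.norm_natCast]
  have hf : (0 : ℝ) < m.factorial := by positivity
  have hRm : 0 < R ^ m := by positivity
  rw [le_div_iff₀ hRm] at h
  calc (m.factorial : ℝ)⁻¹ * ‖iteratedDeriv m (gl N w s) 0‖ * R ^ m
      = (m.factorial : ℝ)⁻¹ * (‖iteratedDeriv m (gl N w s) 0‖ * R ^ m) := by ring
    _ ≤ (m.factorial : ℝ)⁻¹ * (m.factorial * (nw w * Real.exp (R ^ 2 / 2))) := by gcongr
    _ = _ := by field_simp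

lemma gl_sub (N : ℕ) (w w' : Fin N → ℂ) (s : ℝ) : gl N (w - w') s = gl N w s - gl N w' s := by
  funext u
  unfold gl
  rw [Pi.sub_apply, FF_sub, sub_mul]

lemma cf_sub (N : ℕ) (w w' : Fin N → ℂ) (s : ℝ) (m : ℕ) :
    cf N (w - w') s m = cf N w s m - cf N w' s m := by
  unfold cf
  rw [gl_sub, iteratedDeriv_sub, mul_sub]
  · exact (gl_diff N w s).contDiff.contDiffAt
  · exact (gl_diff N w' s).contDiff.contDiffAt

lemma gl_small (N : ℕ) (D : Fin N → ℂ) (s : ℝ) (ρ τ Bd : ℝ) (m₀ : ℕ) (hρ : 0 < ρ)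
    (hτ : 0 ≤ τ) (hBd : 0 ≤ Bd)
    (h1 : ∀ m < m₀, ‖cf N D s m‖ * (2 * ρ) ^ m ≤ τ)
    (h2 : ∀ m, ‖cf N D s m‖ * (2 * ρ) ^ m ≤ Bd) (u : ℂ) (hu : ‖u‖ ≤ ρ) :
    ‖gl N D s u‖ ≤ 2 * τ + 2 * Bd * (1 / 2) ^ m₀ := by
  have hs := Complex.hasSum_taylorSeries_of_entire (gl_diff N D s) 0 u
  have hb : ∀ m : ℕ, ‖(m.factorial : ℂ)⁻¹ • (u - 0) ^ m • iteratedDeriv m (gl N D s) 0‖ ≤
      τ * (1 / 2) ^ m + (if m < m₀ then 0 else Bd * (1 / 2) ^ m) := by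
    intro m
    have e1 : ‖(m.factorial : ℂ)⁻¹ • (u - 0) ^ m • iteratedDeriv m (gl N D s) 0‖ =
        ‖cf N D s m‖ * ‖u‖ ^ m := by
      unfold cf
      rw [sub_zero, norm_smul, norm_smul, norm_mul, norm_pow]
      ring
    have e2 : ‖u‖ ^ m ≤ (2 * ρ) ^ m * (1 / 2) ^ m := by
      rw [← mul_pow]
      apply pow_le_pow_left₀ (norm_nonneg _)
      linarith
    rw [e1]
    have h3 : ‖cf N D s m‖ * ‖u‖ ^ m ≤ (‖cf N D s m‖ * (2 * ρ) ^ m) * (1 / 2) ^ m := by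
      calc ‖cf N D s m‖ * ‖u‖ ^ m ≤ ‖cf N D s m‖ * ((2 * ρ) ^ m * (1 / 2) ^ m) := by gcongr
        _ = _ := by ring
    refine h3.trans ?_
    split_ifs with hm
    · rw [add_zero]
      gcongr
      exact h1 m hm
    · have : 0 ≤ τ * (1 / 2) ^ m := by positivity
      have h4 : (‖cf N D s m‖ * (2 * ρ) ^ m) * (1 / 2) ^ m ≤ Bd * (1 / 2) ^ m := by
        gcongr
        exact h2 m
      linarith
  have hg : HasSum (fun m : ℕ => τ * (1 / 2 : ℝ) ^ m) (2 * τ) := by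
    have := (hasSum_geometric_two).mul_left τ
    simpa [mul_comm] using this
  have hg2 : HasSum (fun m : ℕ => if m < m₀ then 0 else Bd * (1 / 2 : ℝ) ^ m)
      (2 * Bd * (1 / 2) ^ m₀) := by
    rw [← hasSum_nat_add_iff' m₀]
    have h5 : ∑ i ∈ Finset.range m₀, (if i < m₀ then 0 else Bd * (1 / 2 : ℝ) ^ i) = 0 := by
      apply Finset.sum_eq_zero
      intro i hi
      rw [if_pos (Finset.mem_range.1 hi)]
    rw [h5, sub_zero]
    have h6 : (fun n : ℕ => if n + m₀ < m₀ then 0 else Bd * (1 / 2 : ℝ) ^ (n + m₀)) =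
        fun n => (Bd * (1 / 2) ^ m₀) * (1 / 2) ^ n := by
      funext n
      rw [if_neg (by omega), pow_add]
      ring
    rw [h6]
    have := (hasSum_geometric_two).mul_left (Bd * (1 / 2 : ℝ) ^ m₀)
    rw [show 2 * Bd * (1 / 2 : ℝ) ^ m₀ = Bd * (1 / 2) ^ m₀ * 2 by ring]
    exact this
  have hsum := hg.add hg2
  rw [← hs.tsum_eq]
  exact tsum_of_norm_bounded hsum hb

end Pool.Agent.H655R3.Hole
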