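import Pool.Agent.H655R3.HoleDefs

/-!
# Lower bound for the capacity of the rectangles
-/

set_option autoImplicit false

open MeasureTheory Set Filter Topology

namespace Pool.Agent.H655R3.Hole

lemma prod_low (i : ℕ) : ∏ k ∈ Finset.range i, |(i : ℝ) - k| = (i.factorial : ℝ) := by
  rw [← Finset.prod_range_add_one_eq_factorial, ← Finset.prod_range_reflect]
  push_cast
  refine Finset.prod_congr rfl fun k hk => ?_
  rw [Finset.mem_range] at hk
  have : ((i - 1 - k : ℕ) : ℝ) = i - 1 - k := by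
    rw [Nat.cast_sub (by omega), Nat.cast_sub (by omega)]
    simp
  rw [this]
  have h : (0 : ℝ) ≤ k + 1 := by positivity
  rw [show (i : ℝ) - (i - 1 - k) = k + 1 by ring, abs_of_nonneg h]

lemma prod_high (i m : ℕ) (_him : i ≤ m) :
    ∏ k ∈ Finset.Ico i m, |(i : ℝ) - (k + 1)| = ((m - i).factorial : ℝ) := by
  rw [Finset.prod_Ico_eq_prod_range, ← Finset.prod_range_add_one_eq_factorial]
  push_cast
  refine Finset.prod_congr rfl fun k _ => ?_
  have h : (0 : ℝ) ≤ k + 1 := by positivity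
  rw [show (i : ℝ) - (i + k + 1) = -(k + 1) by ring, abs_neg, abs_of_nonneg h]

lemma prod_ne (m : ℕ) (i : Fin (m + 1)) :
    ∏ j ∈ Finset.univ.erase i, |((i : ℕ) : ℝ) - ((j : ℕ) : ℝ)| =
      ((i : ℕ).factorial : ℝ) * ((m - (i : ℕ)).factorial : ℝ) := by
  have him : (i : ℕ) ≤ m := by omega
  have h1 : ∏ j ∈ Finset.univ.erase i, |((i : ℕ) : ℝ) - ((j : ℕ) : ℝ)| =
      ∏ k : Fin m, |((i : ℕ) : ℝ) - ((i.succAbove k : Fin (m + 1)) : ℕ)| := by
    have : Finset.univ.erase i = Finset.univ.image i.succAbove := by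
      ext j
      simp only [Finset.mem_erase, Finset.mem_univ, and_true, Finset.mem_image, true_and]
      exact ⟨fun h => Fin.exists_succAbove_eq h, fun ⟨k, hk⟩ => hk ▸ Fin.succAbove_ne i k⟩
    rw [this, Finset.prod_image (fun a _ b _ h => Fin.succAbove_right_injective h)]
  rw [h1]
  have h2 : ∏ k : Fin m, |((i : ℕ) : ℝ) - ((i.succAbove k : Fin (m + 1)) : ℕ)| =
      ∏ k ∈ Finset.range m, |((i : ℕ) : ℝ) - (if k < (i : ℕ) then (k : ℝ) else (k : ℝ) + 1)| := by
    rw [← Fin.prod_univ_eq_prod_range (fun k : ℕ => |((i : ℕ) : ℝ) - (if k < (i : ℕ) then (k : ℝ) else (k : ℝ) + 1)|) m]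
    refine Finset.prod_congr rfl fun k _ => ?_
    congr 2
    rw [Fin.succAbove]
    by_cases hk : k.castSucc < i
    · rw [if_pos hk, if_pos (by simpa [Fin.lt_def] using hk)]
      simp
    · rw [if_neg hk, if_neg (by simpa [Fin.lt_def] using hk)]
      simp
  rw [h2, ← Finset.prod_range_mul_prod_Ico _ him, ← prod_low, ← prod_high _ _ him]
  congr 1
  · refine Finset.prod_congr rfl fun k hk => ?_
    rw [Finset.mem_range] at hk
    rw [if_pos hk]
  · refine Finset.prod_congr rfl fun k hk => ?_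
    rw [Finset.mem_Ico] at hk
    rw [if_neg (by omega)]

lemma bdd_diam (ε : ℝ) (hε : 0 ≤ ε) (n : ℕ) (hn : 2 ≤ n) :
    BddAbove {t : ℝ | ∃ z : Fin n → ℂ, (∀ i, z i ∈ rect ε) ∧
    t = (∏ i, ∏ j ∈ Finset.univ.erase i, ‖z i - z j‖) ^ (1 / ((n : ℝ) * ((n : ℝ) - 1)))} := by
  refine ⟨2 * (1 + ε), ?_⟩
  rintro t ⟨z, hz, rfl⟩
  have hn2 : (2 : ℝ) ≤ n := by exact_mod_cast hn
  have hD : 1 ≤ 2 * (1 + ε) := by linarith
  have hnz : ∀ i, ‖z i‖ ≤ 1 + ε := by
    intro i
    have h := hz i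
    calc ‖z i‖ ≤ |(z i).re| + |(z i).im| := Complex.norm_le_abs_re_add_abs_im _
      _ ≤ 1 + ε := add_le_add h.1 h.2
  have hd : ∀ i j, ‖z i - z j‖ ≤ 2 * (1 + ε) := by
    intro i j
    calc ‖z i - z j‖ ≤ ‖z i‖ + ‖z j‖ := norm_sub_le _ _
      _ ≤ _ := by linarith [hnz i, hnz j]
  have hprod : ∏ i, ∏ j ∈ Finset.univ.erase i, ‖z i - z j‖ ≤
      (2 * (1 + ε)) ^ ((n : ℝ) * ((n : ℝ) - 1)) := by
    calc ∏ i, ∏ j ∈ Finset.univ.erase i, ‖z i - z j‖
        ≤ ∏ i : Fin n, ∏ j ∈ Finset.univ.erase i, (2 * (1 + ε)) := by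
          refine Finset.prod_le_prod (fun i _ => Finset.prod_nonneg fun j _ => norm_nonneg _)
            fun i _ => Finset.prod_le_prod (fun j _ => norm_nonneg _) fun j _ => hd i j
      _ = (2 * (1 + ε)) ^ ((n : ℝ) * ((n : ℝ) - 1)) := by
          simp only [Finset.prod_const, Finset.card_erase_of_mem (Finset.mem_univ _),
            Finset.card_univ, Fintype.card_fin]
          rw [← pow_mul, ← Real.rpow_natCast]
          congr 1
          rw [Nat.cast_mul, Nat.cast_sub (by omega)]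
          push_cast
          ring
  have hpos : 0 < (n : ℝ) * ((n : ℝ) - 1) := by nlinarith
  calc (∏ i, ∏ j ∈ Finset.univ.erase i, ‖z i - z j‖) ^ (1 / ((n : ℝ) * ((n : ℝ) - 1)))
      ≤ ((2 * (1 + ε)) ^ ((n : ℝ) * ((n : ℝ) - 1))) ^ (1 / ((n : ℝ) * ((n : ℝ) - 1))) := by
        apply Real.rpow_le_rpow
        · exact Finset.prod_nonneg fun i _ => Finset.prod_nonneg fun j _ => norm_nonneg _
        · exact hprod
        · positivity
    _ = 2 * (1 + ε) := by
        rw [← Real.rpow_mul (by linarith), mul_one_div_cancel hpos.ne', Real.rpow_one]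

lemma diam_ge (ε : ℝ) (hε : 0 ≤ ε) (m : ℕ) (hm : 1 ≤ m) :
    Real.exp (-1) ≤ nthDiameter (rect ε) (m + 1) := by
  unfold nthDiameter
  have hm' : (1 : ℝ) ≤ m := by exact_mod_cast hm
  have hm0 : (0 : ℝ) < m := by linarith
  set z : Fin (m + 1) → ℂ := fun i => ((-1 + 2 * ((i : ℕ) : ℝ) / m : ℝ) : ℂ) with hz
  have hzr : ∀ i, z i ∈ rect ε := by
    intro i
    refine ⟨?_, ?_⟩
    · rw [hz]
      simp only [Complex.ofReal_re]
      have hi : ((i : ℕ) : ℝ) ≤ m := by
        have : (i : ℕ) ≤ m := by omega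
        exact_mod_cast this
      have hi0 : (0 : ℝ) ≤ ((i : ℕ) : ℝ) := by positivity
      rw [abs_le]
      constructor
      · have : 0 ≤ 2 * ((i : ℕ) : ℝ) / m := by positivity
        linarith
      · have : 2 * ((i : ℕ) : ℝ) / m ≤ 2 := by
          rw [div_le_iff₀ hm0]; linarith
        linarith
    · rw [hz]
      simp only [Complex.ofReal_im]
      simpa using hε
  have hnorm : ∀ i j, ‖z i - z j‖ = 2 / m * |((i : ℕ) : ℝ) - ((j : ℕ) : ℝ)| := by
    intro i j
    have : z i - z j = ((2 / m * (((i : ℕ) : ℝ) - ((j : ℕ) : ℝ)) : ℝ) : ℂ) := by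
      rw [hz]; push_cast; ring
    rw [this, Complex.norm_real, Real.norm_eq_abs, abs_mul, abs_of_pos (by positivity)]
  have hinner : ∀ i : Fin (m + 1), Real.exp (-(m : ℝ)) ≤
      ∏ j ∈ Finset.univ.erase i, ‖z i - z j‖ := by
    intro i
    simp_rw [hnorm]
    rw [Finset.prod_mul_distrib, prod_ne, Finset.prod_const,
      Finset.card_erase_of_mem (Finset.mem_univ _), Finset.card_univ, Fintype.card_fin,
      Nat.add_sub_cancel]
    have him : (i : ℕ) ≤ m := by omega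
    have h1 : ((m.factorial : ℕ) : ℝ) ≤ 2 ^ m * (((i : ℕ).factorial : ℝ) * ((m - (i : ℕ)).factorial : ℝ)) := by
      have h2 := Nat.choose_mul_factorial_mul_factorial him
      have h3 : m.choose i ≤ 2 ^ m := Nat.choose_le_two_pow _ _
      have h4 : m.factorial ≤ 2 ^ m * ((i : ℕ).factorial * (m - (i : ℕ)).factorial) := by
        rw [← h2, mul_assoc]
        exact Nat.mul_le_mul_right _ h3
      exact_mod_cast h4
    have h5 : (m : ℝ) ^ m / m.factorial ≤ Real.exp m := Real.pow_div_factorial_le_exp _ hm0.le _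
    have hf : (0 : ℝ) < m.factorial := by positivity
    have hmm : (0 : ℝ) < (m : ℝ) ^ m := by positivity
    have h6 : Real.exp (-(m : ℝ)) ≤ m.factorial / (m : ℝ) ^ m := by
      rw [Real.exp_neg, inv_eq_one_div, div_le_div_iff₀ (Real.exp_pos _) hmm, one_mul]
      rw [div_le_iff₀ hf] at h5
      linarith
    calc Real.exp (-(m : ℝ)) ≤ m.factorial / (m : ℝ) ^ m := h6
      _ ≤ (2 ^ m * (((i : ℕ).factorial : ℝ) * ((m - (i : ℕ)).factorial : ℝ))) / (m : ℝ) ^ m := by
          gcongr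
      _ = _ := by rw [div_pow]; ring
  have htot : Real.exp (-1) ≤
      (∏ i, ∏ j ∈ Finset.univ.erase i, ‖z i - z j‖) ^
        (1 / (((m + 1 : ℕ) : ℝ) * (((m + 1 : ℕ) : ℝ) - 1))) := by
    have h1 : Real.exp (-((m : ℝ) * (m + 1))) ≤ ∏ i, ∏ j ∈ Finset.univ.erase i, ‖z i - z j‖ := by
      calc Real.exp (-((m : ℝ) * (m + 1))) = ∏ _i : Fin (m + 1), Real.exp (-(m : ℝ)) := by
            rw [Finset.prod_const, Finset.card_univ, Fintype.card_fin, ← Real.exp_nat_mul]
            congr 1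
            push_cast
            ring
        _ ≤ _ := Finset.prod_le_prod (fun i _ => (Real.exp_pos _).le) fun i _ => hinner i
    have h2 : Real.exp (-1) = (Real.exp (-((m : ℝ) * (m + 1)))) ^
        (1 / (((m + 1 : ℕ) : ℝ) * (((m + 1 : ℕ) : ℝ) - 1))) := by
      rw [← Real.exp_mul]
      congr 1
      have e1 : ((m + 1 : ℕ) : ℝ) * (((m + 1 : ℕ) : ℝ) - 1) = (m : ℝ) * (m + 1) := by
        push_cast; ring
      have : (m : ℝ) * (m + 1) ≠ 0 := by positivity
      rw [e1]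
      field_simp
    rw [h2]
    apply Real.rpow_le_rpow (Real.exp_pos _).le h1
    have e1 : ((m + 1 : ℕ) : ℝ) * (((m + 1 : ℕ) : ℝ) - 1) = (m : ℝ) * (m + 1) := by
      push_cast; ring
    rw [e1]
    positivity
  refine htot.trans (le_csSup (bdd_diam ε hε (m + 1) (by omega)) ⟨z, hzr, rfl⟩)

lemma capacity_ge (ε : ℝ) (hε : 0 ≤ ε) : Real.exp (-1) ≤ capacity (rect ε) := by
  unfold capacity
  exact le_ciInf fun n => diam_ge ε hε (n + 1) (by omega)

end Pool.Agent.H655R3.Hole
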