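import Mathlib

/-!
# Hole probability of the Gaussian entire function: definitions
-/

set_option autoImplicit false

open MeasureTheory

open scoped ENNReal

namespace Pool.Agent.H655R3.Hole

/-- The law of a standard complex Gaussian: density `π⁻¹ exp(-|w|²)` on `ℂ`. -/
noncomputable def stdComplexGaussian : Measure ℂ :=
  (volume : Measure ℂ).withDensity
    (fun w => ENNReal.ofReal (Real.pi⁻¹ * Real.exp (-‖w‖ ^ 2)))

/-- The Gaussian entire function `f(z) = ∑ ξ_n zⁿ / √(n!)`. -/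
noncomputable def gef {Ω : Type*} (ξ : ℕ → Ω → ℂ) (ω : Ω) (z : ℂ) : ℂ :=
  ∑' n : ℕ, ξ n ω * z ^ n / ((√(n.factorial : ℝ) : ℝ) : ℂ)

/-- The hole event for `rK`: the Gaussian entire function has no zero in `rK`. -/
def holeEvent {Ω : Type*} (ξ : ℕ → Ω → ℂ) (K : Set ℂ) (r : ℝ) : Set Ω :=
  {ω | ∀ z ∈ K, gef ξ ω ((r : ℂ) * z) ≠ 0}

/-- The hole probability exponent `p_{H,K}(f; r) = -log P(f ≠ 0 on rK)`. -/
noncomputable def holeExponent {Ω : Type*} [MeasurableSpace Ω] (P : Measure Ω)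
    (ξ : ℕ → Ω → ℂ) (K : Set ℂ) (r : ℝ) : ℝ :=
  -Real.log (P (holeEvent ξ K r)).toReal

/-- The `n`-th diameter `sup_{z_1, …, z_n ∈ K} (∏_{i ≠ j} |z_i - z_j|)^(1/(n(n-1)))`. -/
noncomputable def nthDiameter (K : Set ℂ) (n : ℕ) : ℝ :=
  sSup {t | ∃ z : Fin n → ℂ, (∀ i, z i ∈ K) ∧
    t = (∏ i, ∏ j ∈ Finset.univ.erase i, ‖z i - z j‖) ^ (1 / ((n : ℝ) * ((n : ℝ) - 1)))}

/-- The logarithmic capacity of a compact set, as the transfinite diameter: the limit, which is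
the infimum, of the nonincreasing sequence of the `n`-th diameters, `n ≥ 2`. -/
noncomputable def capacity (K : Set ℂ) : ℝ := ⨅ n : ℕ, nthDiameter K (n + 2)

/-- The rectangle `[-1, 1] × [-ε, ε]`. -/
def rect (ε : ℝ) : Set ℂ := {z | |z.re| ≤ 1 ∧ |z.im| ≤ ε}

end Pool.Agent.H655R3.Hole
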