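import Pool.Agent.H655R3.HoleDefs

/-!
# Finite dimensional complex Gaussian measures
-/

set_option autoImplicit false

open MeasureTheory Set Filter Topology ProbabilityTheory

open scoped ENNReal NNReal

namespace Pool.Agent.H655R3.Hole

/-- the density -/
noncomputable def dens (w : ℂ) : ℝ≥0∞ := ENNReal.ofReal (Real.pi⁻¹ * Real.exp (-‖w‖ ^ 2))

lemma dens_meas : Measurable dens := by unfold dens; fun_prop

lemma lintegral_fin_prod (n : ℕ) (μ : Measure ℂ) [SigmaFinite μ] (f : Fin n → ℂ → ℝ≥0∞)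
    (hf : ∀ i, Measurable (f i)) :
    ∫⁻ x : Fin n → ℂ, ∏ i, f i (x i) ∂(Measure.pi fun _ => μ) = ∏ i, ∫⁻ x, f i x ∂μ := by
  induction n with
  | zero => simp
  | succ n ih =>
    have h1 : ∫⁻ x : Fin (n + 1) → ℂ, ∏ i, f i (x i) ∂(Measure.pi fun _ => μ) =
        ∫⁻ x : ℂ × (Fin n → ℂ), f 0 x.1 * ∏ i : Fin n, f i.succ (x.2 i)
          ∂(μ.prod (Measure.pi fun _ => μ)) := by
      have hmp := (measurePreserving_piFinSuccAbove (fun _ : Fin (n + 1) => μ) 0).symm
      rw [← hmp.lintegral_comp_emb (MeasurableEquiv.measurableEmbedding _)]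
      simp_rw [MeasurableEquiv.piFinSuccAbove_symm_apply, Fin.insertNthEquiv,
            Fin.prod_univ_succ, Fin.insertNth_zero, Equiv.coe_fn_mk, Fin.cons_succ,
            Fin.cons_zero]
      rfl
    rw [h1, lintegral_prod_mul (f := f 0) (g := fun y : Fin n → ℂ => ∏ i : Fin n, f i.succ (y i))
      (hf 0).aemeasurable, ih (fun i => f i.succ) (fun i => hf _), Fin.prod_univ_succ]
    exact (Finset.measurable_prod _ fun i _ => (hf _).comp (measurable_pi_apply i)).aemeasurable

/-- the joint density -/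
noncomputable def densN (N : ℕ) (w : Fin N → ℂ) : ℝ≥0∞ := ∏ i, dens (w i)

lemma densN_eq (N : ℕ) (w : Fin N → ℂ) :
    densN N w = ENNReal.ofReal ((Real.pi⁻¹) ^ N * Real.exp (-∑ i, ‖w i‖ ^ 2)) := by
  unfold densN dens
  rw [← ENNReal.ofReal_prod_of_nonneg (fun i _ => by positivity), Finset.prod_mul_distrib,
    Finset.prod_const, Finset.card_univ, Fintype.card_fin, ← Real.exp_sum, Finset.sum_neg_distrib]

lemma densN_meas (N : ℕ) : Measurable (densN N) := by
  unfold densN
  exact Finset.measurable_prod _ fun i _ => dens_meas.comp (measurable_pi_apply i)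

lemma norm_rpow_two (w : ℂ) : ‖w‖ ^ (2 : ℝ) = ‖w‖ ^ 2 := Real.rpow_two _

lemma integral_sq_exp : ∫ w : ℂ, ‖w‖ ^ 2 * Real.exp (-‖w‖ ^ 2) = Real.pi := by
  have h := Complex.integral_rpow_mul_exp_neg_rpow (p := 2) (q := 2) (by norm_num) (by norm_num)
  simp only [norm_rpow_two] at h
  rw [h]
  have : ((2 : ℝ) + 2) / 2 = 1 + 1 := by norm_num
  rw [this, Real.Gamma_add_one (by norm_num), Real.Gamma_one]
  ring

lemma integral_exp0 : ∫ w : ℂ, Real.exp (-‖w‖ ^ 2) = Real.pi := by
  have h := Complex.integral_rpow_mul_exp_neg_rpow (p := 2) (q := 0) (by norm_num) (by norm_num)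
  simp only [norm_rpow_two, Real.rpow_zero, one_mul] at h
  rw [h]
  have : ((0 : ℝ) + 2) / 2 = 1 := by norm_num
  rw [this, Real.Gamma_one]
  ring

lemma integrable_sq_exp : Integrable fun w : ℂ => ‖w‖ ^ 2 * Real.exp (-‖w‖ ^ 2) := by
  by_contra h
  have := integral_undef h
  rw [integral_sq_exp] at this
  exact Real.pi_ne_zero this

lemma integrable_exp0 : Integrable fun w : ℂ => Real.exp (-‖w‖ ^ 2) := by
  by_contra h
  have := integral_undef h
  rw [integral_exp0] at this
  exact Real.pi_ne_zero this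

instance isProb : IsProbabilityMeasure stdComplexGaussian := by
  constructor
  unfold stdComplexGaussian
  rw [withDensity_apply _ MeasurableSet.univ, Measure.restrict_univ,
    ← ofReal_integral_eq_lintegral_ofReal (integrable_exp0.const_mul _)
      (Eventually.of_forall fun w => by positivity), integral_const_mul, integral_exp0,
    inv_mul_cancel₀ Real.pi_ne_zero, ENNReal.ofReal_one]

lemma lintegral_sq : ∫⁻ w, ENNReal.ofReal (‖w‖ ^ 2) ∂stdComplexGaussian = 1 := by
  unfold stdComplexGaussian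
  rw [lintegral_withDensity_eq_lintegral_mul _ (by fun_prop) (by fun_prop)]
  have h : ∀ w : ℂ, ENNReal.ofReal (Real.pi⁻¹ * Real.exp (-‖w‖ ^ 2)) *
      ENNReal.ofReal (‖w‖ ^ 2) =
      ENNReal.ofReal (Real.pi⁻¹ * (‖w‖ ^ 2 * Real.exp (-‖w‖ ^ 2))) := by
    intro w
    rw [← ENNReal.ofReal_mul (by positivity)]
    congr 1
    ring
  simp only [Pi.mul_apply, h]
  rw [← ofReal_integral_eq_lintegral_ofReal (integrable_sq_exp.const_mul _)
      (Eventually.of_forall fun w => by positivity), integral_const_mul, integral_sq_exp,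
    inv_mul_cancel₀ Real.pi_ne_zero, ENNReal.ofReal_one]

lemma lintegral_norm_le : ∫⁻ w, ENNReal.ofReal ‖w‖ ∂stdComplexGaussian ≤ 1 := by
  have h : ∀ w : ℂ, ENNReal.ofReal ‖w‖ ≤ ENNReal.ofReal (1 / 2) +
      ENNReal.ofReal (1 / 2) * ENNReal.ofReal (‖w‖ ^ 2) := by
    intro w
    rw [← ENNReal.ofReal_mul (by norm_num), ← ENNReal.ofReal_add (by norm_num) (by positivity)]
    apply ENNReal.ofReal_le_ofReal
    nlinarith [sq_nonneg (‖w‖ - 1)]
  calc ∫⁻ w, ENNReal.ofReal ‖w‖ ∂stdComplexGaussian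
      ≤ ∫⁻ w, (ENNReal.ofReal (1 / 2) +
      ENNReal.ofReal (1 / 2) * ENNReal.ofReal (‖w‖ ^ 2)) ∂stdComplexGaussian := lintegral_mono h
    _ = 1 := by
      rw [lintegral_add_left measurable_const, lintegral_const, measure_univ, mul_one,
        lintegral_const_mul _ (by fun_prop), lintegral_sq, mul_one,
        ← ENNReal.ofReal_add (by norm_num) (by norm_num)]
      norm_num

lemma pi_gauss (N : ℕ) : (Measure.pi fun _ : Fin N => stdComplexGaussian) =
    (volume : Measure (Fin N → ℂ)).withDensity (densN N) := by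
  apply Measure.pi_eq
  intro s hs
  rw [withDensity_apply _ (MeasurableSet.univ_pi hs), ← lintegral_indicator (MeasurableSet.univ_pi hs)]
  have h1 : ∀ w : Fin N → ℂ, (univ.pi s).indicator (densN N) w =
      ∏ i, (s i).indicator dens (w i) := by
    intro w
    by_cases hw : w ∈ univ.pi s
    · rw [indicator_of_mem hw]
      unfold densN
      refine Finset.prod_congr rfl fun i _ => ?_
      rw [indicator_of_mem (hw i (mem_univ i))]
    · rw [indicator_of_notMem hw]
      rw [Set.mem_pi] at hw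
      push Not at hw
      obtain ⟨i, _, hi⟩ := hw
      symm
      apply Finset.prod_eq_zero (Finset.mem_univ i)
      rw [indicator_of_notMem hi]
  simp_rw [h1]
  rw [volume_pi, lintegral_fin_prod N volume (fun i => (s i).indicator dens)
    (fun i => dens_meas.indicator (hs i))]
  refine Finset.prod_congr rfl fun i _ => ?_
  rw [lintegral_indicator (hs i)]
  unfold stdComplexGaussian
  rw [withDensity_apply _ (hs i)]
  rfl

/-- the standard Gaussian measure on `ℂ^N` -/
noncomputable def gN (N : ℕ) : Measure (Fin N → ℂ) := Measure.pi fun _ : Fin N => stdComplexGaussian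

instance (N : ℕ) : IsProbabilityMeasure (gN N) := by unfold gN; infer_instance

/-- Translation of sets costs at most the density, for arbitrary sets. -/
lemma shift_le (N : ℕ) (A : Set (Fin N → ℂ)) (c : Fin N → ℂ) (B : ℝ)
    (hB : ∀ w ∈ A, ∑ i, ‖w i + c i‖ ^ 2 ≤ B) (S : Set (Fin N → ℂ))
    (hS : ∀ w ∈ A, w + c ∈ S) :
    gN N A ≤ ENNReal.ofReal (Real.exp B) * gN N S := by
  have hball : MeasurableSet {v : Fin N → ℂ | ∑ i, ‖v i‖ ^ 2 ≤ B} :=
    (isClosed_le (by fun_prop) continuous_const).measurableSet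
  set T : Set (Fin N → ℂ) := toMeasurable (gN N) S ∩ {v | ∑ i, ‖v i‖ ^ 2 ≤ B} with hT
  have hTm : MeasurableSet T := (measurableSet_toMeasurable _ _).inter hball
  have hTS : gN N T ≤ gN N S := by
    rw [← measure_toMeasurable S]
    exact measure_mono inter_subset_left
  have hmt : Measurable fun w : Fin N → ℂ => w + c := by fun_prop
  have hAT : A ⊆ (fun w => w + c) ⁻¹' T := by
    intro w hw
    exact ⟨subset_toMeasurable _ _ (hS w hw), by simpa using hB w hw⟩
  have hd1 : ∀ w, densN N w ≤ ENNReal.ofReal ((Real.pi⁻¹) ^ N) := by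
    intro w
    rw [densN_eq]
    apply ENNReal.ofReal_le_ofReal
    have : Real.exp (-∑ i, ‖w i‖ ^ 2) ≤ 1 := by
      rw [Real.exp_le_one_iff]
      have : 0 ≤ ∑ i, ‖w i‖ ^ 2 := Finset.sum_nonneg fun i _ => by positivity
      linarith
    have h2 : 0 ≤ (Real.pi⁻¹) ^ N := by positivity
    nlinarith
  have hd2 : ∀ w ∈ T, ENNReal.ofReal ((Real.pi⁻¹) ^ N) ≤
      ENNReal.ofReal (Real.exp B) * densN N w := by
    intro w hw
    rw [densN_eq, ← ENNReal.ofReal_mul (Real.exp_pos _).le]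
    apply ENNReal.ofReal_le_ofReal
    have h3 : ∑ i, ‖w i‖ ^ 2 ≤ B := hw.2
    have : 1 ≤ Real.exp B * Real.exp (-∑ i, ‖w i‖ ^ 2) := by
      rw [← Real.exp_add]
      apply Real.one_le_exp
      linarith
    have h2 : 0 ≤ (Real.pi⁻¹) ^ N := by positivity
    calc (Real.pi⁻¹) ^ N = (Real.pi⁻¹) ^ N * 1 := by ring
      _ ≤ (Real.pi⁻¹) ^ N * (Real.exp B * Real.exp (-∑ i, ‖w i‖ ^ 2)) := by gcongr
      _ = _ := by ring
  calc gN N A ≤ gN N ((fun w => w + c) ⁻¹' T) := measure_mono hAT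
    _ = ∫⁻ w in (fun w => w + c) ⁻¹' T, densN N w := by
        unfold gN
        rw [pi_gauss, withDensity_apply _ (hmt hTm)]
    _ ≤ ∫⁻ w in (fun w => w + c) ⁻¹' T, ENNReal.ofReal ((Real.pi⁻¹) ^ N) :=
        lintegral_mono fun w => hd1 w
    _ = ENNReal.ofReal ((Real.pi⁻¹) ^ N) * volume ((fun w => w + c) ⁻¹' T) := by
        rw [setLIntegral_const]
    _ = ENNReal.ofReal ((Real.pi⁻¹) ^ N) * volume T := by
        rw [measure_preimage_add_right]
    _ = ∫⁻ w in T, ENNReal.ofReal ((Real.pi⁻¹) ^ N) := by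
        rw [setLIntegral_const]
    _ ≤ ∫⁻ w in T, ENNReal.ofReal (Real.exp B) * densN N w :=
        setLIntegral_mono ((densN_meas N).const_mul _) hd2
    _ = ENNReal.ofReal (Real.exp B) * gN N T := by
        rw [lintegral_const_mul _ (densN_meas N)]
        unfold gN
        rw [pi_gauss, withDensity_apply _ hTm]
    _ ≤ _ := by gcongr

/-- Pigeonhole: a set on which finitely many bounded real functions are nearly constant. -/
lemma pigeon {V : Type*} [MeasurableSpace V] (μ : Measure V) (G : Set V) {I : Type*} [Fintype I]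
    (Φ : V → I → ℝ) (hΦ : ∀ w ∈ G, ∀ i, |Φ w i| ≤ 1) (L : ℕ) (hL : 0 < L) :
    ∃ A ⊆ G, μ G ≤ ((2 * L + 1) ^ (Fintype.card I) : ℕ) * μ A ∧
      ∀ w ∈ A, ∀ w' ∈ A, ∀ i, |Φ w i - Φ w' i| ≤ 1 / L := by
  classical
  set Q : V → I → ℤ := fun w i => ⌊(L : ℝ) * Φ w i⌋ with hQ
  set F : Finset (I → ℤ) := Fintype.piFinset fun _ => Finset.Icc (-(L : ℤ)) L with hF
  have hcard : F.card = (2 * L + 1) ^ (Fintype.card I) := by
    rw [hF, Fintype.card_piFinset]
    simp only [Int.card_Icc, Finset.prod_const, Finset.card_univ]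
    congr 1
    omega
  have hsub : G ⊆ ⋃ q ∈ F, (G ∩ {w | Q w = q}) := by
    intro w hw
    simp only [mem_iUnion]
    refine ⟨Q w, ?_, hw, rfl⟩
    rw [hF, Fintype.mem_piFinset]
    intro i
    have h := abs_le.1 (hΦ w hw i)
    have hL' : (0 : ℝ) < L := by exact_mod_cast hL
    rw [Finset.mem_Icc]
    constructor
    · rw [hQ]
      apply Int.le_floor.2
      push_cast
      nlinarith
    · have h1 : (⌊(L : ℝ) * Φ w i⌋ : ℝ) ≤ L * Φ w i := Int.floor_le _
      have h2 : (⌊(L : ℝ) * Φ w i⌋ : ℝ) ≤ L := by nlinarith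
      exact_mod_cast h2
  have hFne : F.Nonempty := by
    rw [hF, Fintype.piFinset_nonempty]
    intro i
    exact ⟨0, by simp⟩
  obtain ⟨q, hq, hmax⟩ := F.exists_max_image (fun q => μ (G ∩ {w | Q w = q})) hFne
  refine ⟨G ∩ {w | Q w = q}, inter_subset_left, ?_, ?_⟩
  · calc μ G ≤ μ (⋃ q ∈ F, (G ∩ {w | Q w = q})) := measure_mono hsub
      _ ≤ ∑ q ∈ F, μ (G ∩ {w | Q w = q}) := measure_biUnion_finset_le _ _
      _ ≤ ∑ _q ∈ F, μ (G ∩ {w | Q w = q}) := Finset.sum_le_sum fun p hp => hmax p hp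
      _ = _ := by rw [Finset.sum_const, hcard, nsmul_eq_mul]
  · rintro w ⟨_, hw⟩ w' ⟨_, hw'⟩ i
    have h1 : ⌊(L : ℝ) * Φ w i⌋ = ⌊(L : ℝ) * Φ w' i⌋ := by
      have := congrFun (hw.trans hw'.symm) i
      exact this
    have h2 := Int.abs_sub_lt_one_of_floor_eq_floor h1
    have hL' : (0 : ℝ) < L := by exact_mod_cast hL
    rw [← mul_sub, abs_mul, abs_of_pos hL'] at h2
    rw [le_div_iff₀ hL']
    linarith

end Pool.Agent.H655R3.Hole
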