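import Pool.Agent.H655R3.HoleH
import Pool.Agent.H655R3.HoleGauss

/-!
# The small ball event for the low coefficients
-/

set_option autoImplicit false

open MeasureTheory Set Filter Topology

open scoped ENNReal

namespace Pool.Agent.H655R3.Hole

/-- the good set of low coefficients -/
def E1set (ε r : ℝ) (N : ℕ) : Set (Fin N → ℂ) :=
  {w | ∀ z ∈ rect ε, ‖FF N w ((r : ℂ) * z) - FF N (hv N) ((r : ℂ) * z)‖ ≤
    1 / 4 * ‖Complex.exp (((r : ℂ) * z) ^ 2 / 2)‖}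

lemma FF_cont_w (N : ℕ) (z : ℂ) : Continuous fun w : Fin N → ℂ => FF N w z := by
  unfold FF
  fun_prop

lemma E1set_closed (ε r : ℝ) (N : ℕ) : IsClosed (E1set ε r N) := by
  unfold E1set
  simp only [setOf_forall]
  refine isClosed_iInter fun z => isClosed_iInter fun _ => ?_
  have := FF_cont_w N ((r : ℂ) * z)
  exact isClosed_le (by fun_prop) continuous_const

lemma cover (ε r : ℝ) (hε : 0 < ε) (hr : 0 < r) (J : ℕ) (hJ : 1 / ε ≤ J) (z : ℂ)
    (hz : z ∈ rect ε) : ∃ j : Fin (2 * J + 1), ∃ u : ℂ,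
      (r : ℂ) * z = (((((j : ℕ) : ℝ) - J) * (ε * r) : ℝ) : ℂ) + u ∧ ‖u‖ ≤ 2 * ε * r := by
  obtain ⟨h1, h2⟩ := hz
  set k : ℤ := ⌊z.re / ε⌋ with hk
  have hb := abs_le.1 h1
  have hk1 : (-(J : ℤ)) ≤ k := by
    rw [hk]
    apply Int.le_floor.2
    push_cast
    have : -(1 / ε) ≤ z.re / ε := by
      rw [← neg_div]
      gcongr
      exact hb.1
    linarith
  have hk2 : k ≤ J := by
    have h3 : (k : ℝ) ≤ z.re / ε := Int.floor_le _
    have h4 : z.re / ε ≤ 1 / ε := by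
      gcongr
      exact hb.2
    have : (k : ℝ) ≤ J := by linarith
    exact_mod_cast this
  obtain ⟨j, hj⟩ : ∃ j : ℕ, (j : ℤ) = k + J := ⟨(k + J).toNat, by omega⟩
  refine ⟨⟨j, by omega⟩, (r : ℂ) * z - (((((j : ℕ) : ℝ) - J) * (ε * r) : ℝ) : ℂ), by simp, ?_⟩
  have hjk : ((j : ℕ) : ℝ) - J = k := by
    have : ((j : ℤ) : ℝ) = k + J := by exact_mod_cast hj
    push_cast at this
    linarith
  have e1 : (k : ℝ) ≤ z.re / ε := Int.floor_le _
  have e2 : z.re / ε < k + 1 := Int.lt_floor_add_one _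
  rw [hjk]
  set u : ℂ := (r : ℂ) * z - (((k : ℝ) * (ε * r) : ℝ) : ℂ) with hu
  have hre : u.re = r * z.re - k * (ε * r) := by
    rw [hu]; simp
  have him : u.im = r * z.im := by
    rw [hu]; simp
  have hre2 : |u.re| ≤ ε * r := by
    rw [hre, abs_le]
    have a1 : (k : ℝ) * ε ≤ z.re := by
      rw [le_div_iff₀ hε] at e1; exact e1
    have a2 : z.re < (k + 1) * ε := by
      rw [div_lt_iff₀ hε] at e2; exact e2
    constructor
    · nlinarith
    · nlinarith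
  have him2 : |u.im| ≤ ε * r := by
    rw [him, abs_mul, abs_of_pos hr]
    nlinarith
  calc ‖u‖ ≤ |u.re| + |u.im| := Complex.norm_le_abs_re_add_abs_im _
    _ ≤ ε * r + ε * r := add_le_add hre2 him2
    _ = _ := by ring

/-- the index set of the cells -/
abbrev Idx (J m₀ : ℕ) := Fin (2 * J + 1) × Fin m₀ × Bool

/-- The lower bound for the Gaussian measure of the good set. -/
lemma E1_bound (ε r : ℝ) (hε : 0 < ε) (hε1 : ε ≤ 1) (hr : 0 < r) (N J m₀ : ℕ) (hN : 0 < N)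
    (hJ : 1 / ε ≤ J)
    (hm : 64 * √(N : ℝ) * Real.exp (9 * (ε * r) ^ 2) ≤ 2 ^ m₀)
    (hG : ENNReal.ofReal (1 / 2) ≤ gN N {w | ∑ i, ‖w i‖ ^ 2 ≤ 4 * N}) :
    ENNReal.ofReal (1 / 2) ≤ ((2 * 2 ^ m₀ + 1) ^ (Fintype.card (Idx J m₀)) : ℕ) *
      (ENNReal.ofReal (Real.exp (27 * N)) * gN N (E1set ε r N)) := by
  have hN' : (0 : ℝ) < N := by exact_mod_cast hN
  set ρ : ℝ := 2 * ε * r with hρ
  have hρ0 : 0 < ρ := by positivity
  set Bd : ℝ := 2 * √(N : ℝ) * Real.exp ((2 * ρ) ^ 2 / 2) with hBd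
  have hBd0 : 0 < Bd := by positivity
  set s : Fin (2 * J + 1) → ℝ := fun j => (((j : ℕ) : ℝ) - J) * (ε * r) with hs
  set G : Set (Fin N → ℂ) := {w | ∑ i, ‖w i‖ ^ 2 ≤ 4 * N} with hGdef
  have hnw : ∀ w ∈ G, nw w ≤ 2 * √(N : ℝ) := by
    intro w hw
    unfold nw
    have : (2 : ℝ) * √(N : ℝ) = √(4 * N) := by
      rw [Real.sqrt_mul (by norm_num), show (4 : ℝ) = 2 ^ 2 by norm_num,
        Real.sqrt_sq (by norm_num)]
    rw [this]
    exact Real.sqrt_le_sqrt hw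
  have hcf : ∀ w ∈ G, ∀ j m, ‖cf N w (s j) m‖ * (2 * ρ) ^ m ≤ Bd := by
    intro w hw j m
    refine (cf_bound N w (s j) m (2 * ρ) (by positivity)).trans ?_
    rw [hBd]
    gcongr
    exact hnw w hw
  set Φ : (Fin N → ℂ) → Idx J m₀ → ℝ := fun w i =>
    (if i.2.2 then (cf N w (s i.1) i.2.1).re else (cf N w (s i.1) i.2.1).im) *
      (2 * ρ) ^ (i.2.1 : ℕ) / Bd with hΦ
  have hΦ1 : ∀ w ∈ G, ∀ i, |Φ w i| ≤ 1 := by
    intro w hw i
    rw [hΦ]
    simp only []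
    rw [abs_div, abs_mul, abs_of_pos hBd0, div_le_one hBd0,
      abs_of_pos (by positivity : (0 : ℝ) < (2 * ρ) ^ (i.2.1 : ℕ))]
    refine le_trans ?_ (hcf w hw i.1 i.2.1)
    gcongr
    split_ifs
    · exact Complex.abs_re_le_norm _
    · exact Complex.abs_im_le_norm _
  obtain ⟨A, hAG, hA1, hA2⟩ := pigeon (gN N) G Φ hΦ1 (2 ^ m₀) (by positivity)
  -- A is nonempty
  have hAne : A.Nonempty := by
    by_contra hne
    rw [not_nonempty_iff_eq_empty] at hne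
    rw [hne, measure_empty, mul_zero] at hA1
    have h0 := hG.trans hA1
    rw [nonpos_iff_eq_zero, ENNReal.ofReal_eq_zero] at h0
    norm_num at h0
  obtain ⟨w₀, hw₀⟩ := hAne
  have hshift : gN N A ≤ ENNReal.ofReal (Real.exp (27 * N)) * gN N (E1set ε r N) := by
    refine shift_le N A (hv N - w₀) (27 * N) ?_ _ ?_
    · intro w hw
      have h1 : ∀ i, ‖w i + (hv N - w₀) i‖ ^ 2 ≤ 3 * ‖w i‖ ^ 2 + 3 * ‖hv N i‖ ^ 2 + 3 * ‖w₀ i‖ ^ 2 := by
        intro i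
        have h2 : ‖w i + (hv N - w₀) i‖ ≤ ‖w i‖ + ‖hv N i‖ + ‖w₀ i‖ := by
          rw [Pi.sub_apply]
          calc ‖w i + (hv N i - w₀ i)‖ ≤ ‖w i‖ + ‖hv N i - w₀ i‖ := norm_add_le _ _
            _ ≤ ‖w i‖ + (‖hv N i‖ + ‖w₀ i‖) := by gcongr; exact norm_sub_le _ _
            _ = _ := by ring
        have h3 : ‖w i + (hv N - w₀) i‖ ^ 2 ≤ (‖w i‖ + ‖hv N i‖ + ‖w₀ i‖) ^ 2 :=
          pow_le_pow_left₀ (norm_nonneg _) h2 2
        nlinarith [sq_nonneg (‖w i‖ - ‖hv N i‖), sq_nonneg (‖w i‖ - ‖w₀ i‖),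
          sq_nonneg (‖hv N i‖ - ‖w₀ i‖)]
      have hw1 : ∑ i, ‖w i‖ ^ 2 ≤ 4 * N := hAG hw
      have hw2 : ∑ i, ‖w₀ i‖ ^ 2 ≤ 4 * N := hAG hw₀
      have hh := hv_sum N
      calc ∑ i, ‖w i + (hv N - w₀) i‖ ^ 2
          ≤ ∑ i, (3 * ‖w i‖ ^ 2 + 3 * ‖hv N i‖ ^ 2 + 3 * ‖w₀ i‖ ^ 2) :=
            Finset.sum_le_sum fun i _ => h1 i
        _ = 3 * ∑ i, ‖w i‖ ^ 2 + 3 * ∑ i, ‖hv N i‖ ^ 2 + 3 * ∑ i, ‖w₀ i‖ ^ 2 := by
            rw [Finset.sum_add_distrib, Finset.sum_add_distrib, Finset.mul_sum, Finset.mul_sum,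
              Finset.mul_sum]
        _ ≤ 27 * N := by linarith
    · intro w hw z hz
      have e1 : FF N (w + (hv N - w₀)) ((r : ℂ) * z) - FF N (hv N) ((r : ℂ) * z) =
          FF N (w - w₀) ((r : ℂ) * z) := by
        rw [← FF_sub]
        congr 1
        abel
      rw [e1]
      obtain ⟨j, u, hju, hu⟩ := cover ε r hε hr J hJ z hz
      have hdiff : ∀ m < m₀, ‖cf N (w - w₀) (s j) m‖ * (2 * ρ) ^ m ≤ 2 * Bd / 2 ^ m₀ := by
        intro m hm'
        have a1 := hA2 w hw w₀ hw₀ (j, ⟨m, hm'⟩, true)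
        have a2 := hA2 w hw w₀ hw₀ (j, ⟨m, hm'⟩, false)
        rw [hΦ] at a1 a2
        simp only [if_true, Bool.false_eq_true, if_false] at a1 a2
        rw [← sub_div, ← sub_mul, abs_div, abs_mul, abs_of_pos hBd0,
          abs_of_pos (by positivity : (0 : ℝ) < (2 * ρ) ^ m), div_le_iff₀ hBd0] at a1 a2
        have a3 : ‖cf N (w - w₀) (s j) m‖ ≤ |(cf N w (s j) m).re - (cf N w₀ (s j) m).re| +
            |(cf N w (s j) m).im - (cf N w₀ (s j) m).im| := by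
          rw [cf_sub, ← Complex.sub_re, ← Complex.sub_im]
          exact Complex.norm_le_abs_re_add_abs_im _
        have hp : (0 : ℝ) < (2 * ρ) ^ m := by positivity
        calc ‖cf N (w - w₀) (s j) m‖ * (2 * ρ) ^ m
            ≤ (|(cf N w (s j) m).re - (cf N w₀ (s j) m).re| +
            |(cf N w (s j) m).im - (cf N w₀ (s j) m).im|) * (2 * ρ) ^ m := by gcongr
          _ ≤ 1 / ((2 ^ m₀ : ℕ) : ℝ) * Bd + 1 / ((2 ^ m₀ : ℕ) : ℝ) * Bd := by
              rw [add_mul]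
              exact add_le_add a1 a2
          _ = 2 * Bd / 2 ^ m₀ := by push_cast; ring
      have hall : ∀ m, ‖cf N (w - w₀) (s j) m‖ * (2 * ρ) ^ m ≤ 2 * Bd := by
        intro m
        rw [cf_sub]
        have b1 := hcf w (hAG hw) j m
        have b2 := hcf w₀ (hAG hw₀) j m
        have b3 : ‖cf N w (s j) m - cf N w₀ (s j) m‖ ≤ ‖cf N w (s j) m‖ + ‖cf N w₀ (s j) m‖ :=
          norm_sub_le _ _
        have hp : (0 : ℝ) < (2 * ρ) ^ m := by positivity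
        nlinarith
      have hgl := gl_small N (w - w₀) (s j) ρ (2 * Bd / 2 ^ m₀) (2 * Bd) m₀ hρ0 (by positivity)
        (by positivity) hdiff hall u hu
      have hFF := FF_of_gl N (w - w₀) (s j) u
      have hsu : ((s j : ℝ) : ℂ) + u = (r : ℂ) * z := by
        rw [hju]
      rw [hsu] at hFF
      have hgl2 : ‖gl N (w - w₀) (s j) u‖ ≤ 8 * Bd / 2 ^ m₀ := by
        refine hgl.trans (le_of_eq ?_)
        rw [one_div, inv_pow]
        ring
      rw [norm_exp_sq]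
      have him : ((r : ℂ) * z).im ^ 2 ≤ (ε * r) ^ 2 := by
        have : ((r : ℂ) * z).im = r * z.im := by simp
        rw [this, mul_pow, mul_pow, ← sq_abs z.im]
        have h2 : |z.im| ^ 2 ≤ ε ^ 2 := pow_le_pow_left₀ (abs_nonneg _) hz.2 2
        nlinarith [sq_nonneg r]
      have hfin : 8 * Bd / 2 ^ m₀ ≤ 1 / 4 * Real.exp (-(ε * r) ^ 2) := by
        rw [div_le_iff₀ (by positivity)]
        have e3 : Real.exp ((2 * ρ) ^ 2 / 2) = Real.exp (9 * (ε * r) ^ 2) * Real.exp (-(ε * r) ^ 2) := by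
          rw [← Real.exp_add]
          congr 1
          rw [hρ]
          ring
        calc 8 * Bd = 1 / 4 * Real.exp (-(ε * r) ^ 2) * (64 * √(N : ℝ) * Real.exp (9 * (ε * r) ^ 2)) := by
              rw [hBd, e3]; ring
          _ ≤ 1 / 4 * Real.exp (-(ε * r) ^ 2) * 2 ^ m₀ := by gcongr
      calc ‖FF N (w - w₀) ((r : ℂ) * z)‖
          ≤ ‖gl N (w - w₀) (s j) u‖ * Real.exp (‖(r : ℂ) * z‖ ^ 2 / 2) := hFF
        _ ≤ (1 / 4 * Real.exp (-(ε * r) ^ 2)) * Real.exp (‖(r : ℂ) * z‖ ^ 2 / 2) := by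
            gcongr
            exact hgl2.trans hfin
        _ = 1 / 4 * Real.exp (‖(r : ℂ) * z‖ ^ 2 / 2 - (ε * r) ^ 2) := by
            rw [mul_assoc, ← Real.exp_add]
            congr 2
            ring
        _ ≤ _ := by gcongr
  calc ENNReal.ofReal (1 / 2) ≤ gN N G := hG
    _ ≤ ((2 * 2 ^ m₀ + 1) ^ (Fintype.card (Idx J m₀)) : ℕ) * gN N A := hA1
    _ ≤ _ := by gcongr

end Pool.Agent.H655R3.Hole
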