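import Pool.Agent.H655R3.HoleMain
import Pool.Agent.H655R3.HoleCap

/-!
# The hole exponent of thin rectangles
-/

set_option autoImplicit false

open MeasureTheory Set Filter Topology ProbabilityTheory

open scoped ENNReal

namespace Pool.Agent.H655R3.Hole

lemma norm_rect (ε r : ℝ) (hε1 : ε ≤ 1) (hr : 0 ≤ r) (z : ℂ) (hz : z ∈ rect ε) :
    ‖(r : ℂ) * z‖ ^ 2 ≤ 2 * r ^ 2 ∧ ‖(r : ℂ) * z‖ ≤ 2 * r ∧ ((r : ℂ) * z).im ^ 2 ≤ r ^ 2 := by
  obtain ⟨h1, h2⟩ := hz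
  have e1 : z.re ^ 2 ≤ 1 := by
    rw [← sq_abs]
    have := abs_nonneg z.re
    nlinarith
  have e2 : z.im ^ 2 ≤ 1 := by
    rw [← sq_abs]
    have := abs_nonneg z.im
    nlinarith
  have e3 : ‖z‖ ^ 2 ≤ 2 := by
    rw [← Complex.normSq_eq_norm_sq, Complex.normSq_apply]
    nlinarith
  have e4 : ‖(r : ℂ) * z‖ = r * ‖z‖ := by
    rw [norm_mul, Complex.norm_real, Real.norm_eq_abs, abs_of_nonneg hr]
  have e5 : ‖z‖ ≤ 2 := by nlinarith [norm_nonneg z]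
  refine ⟨?_, ?_, ?_⟩
  · rw [e4, mul_pow]
    nlinarith [sq_nonneg r]
  · rw [e4]
    nlinarith
  · have : ((r : ℂ) * z).im = r * z.im := by simp
    rw [this, mul_pow]
    nlinarith [sq_nonneg r]

lemma hole_subset {Ω : Type*} (ξ : ℕ → Ω → ℂ) (ε r : ℝ) (hε1 : ε ≤ 1) (hr : 0 ≤ r) (M : ℕ)
    (hM : 16 * Real.exp (17 / 2 * r ^ 2) ≤ 2 ^ (2 * M)) :
    {ω | (fun i : Fin (2 * M) => ξ i ω) ∈ E1set ε r (2 * M)} ∩
      {ω | tail ξ (2 * M) ω ≤ ENNReal.ofReal (1 / 4 * Real.exp (-(17 / 2 * r ^ 2)))} ⊆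
    holeEvent ξ (rect ε) r := by
  rintro ω ⟨h1, h2⟩ z hz
  set Z : ℂ := (r : ℂ) * z with hZ
  set N := 2 * M with hN
  obtain ⟨hZ2, hZr, him⟩ := norm_rect ε r hε1 hr z hz
  rw [← hZ] at hZ2 hZr him
  set c : ℝ := 1 / 4 * Real.exp (-(17 / 2 * r ^ 2)) with hc
  have hc0 : 0 < c := by positivity
  simp only [mem_ofPred_eq] at h2
  -- the tail as a real series
  have hsum : Summable fun n : ℕ => ‖ξ (n + N) ω‖ * (1 / 2 : ℝ) ^ (n + N) := by
    have hne : tail ξ N ω ≠ ∞ := (h2.trans_lt ENNReal.ofReal_lt_top).ne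
    unfold tail at hne
    have := ENNReal.summable_toReal hne
    refine this.congr fun n => ?_
    rw [ENNReal.toReal_ofReal (by positivity)]
  have htail : ∑' n : ℕ, ‖ξ (n + N) ω‖ * (1 / 2 : ℝ) ^ (n + N) ≤ c := by
    have : ENNReal.ofReal (∑' n : ℕ, ‖ξ (n + N) ω‖ * (1 / 2 : ℝ) ^ (n + N)) ≤ ENNReal.ofReal c := by
      rw [ENNReal.ofReal_tsum_of_nonneg (fun n => by positivity) hsum]
      exact h2
    exact (ENNReal.ofReal_le_ofReal_iff hc0.le).1 this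
  have hterm : ∀ n : ℕ, ‖ξ (n + N) ω * bas (n + N) Z‖ ≤
      Real.exp (8 * r ^ 2) * (‖ξ (n + N) ω‖ * (1 / 2 : ℝ) ^ (n + N)) := by
    intro n
    rw [norm_mul]
    have := bas_small (n + N) Z r hZr
    calc ‖ξ (n + N) ω‖ * ‖bas (n + N) Z‖
        ≤ ‖ξ (n + N) ω‖ * ((1 / 2) ^ (n + N) * Real.exp (8 * r ^ 2)) := by gcongr
      _ = _ := by ring
  have hs2 := hsum.mul_left (Real.exp (8 * r ^ 2))
  have hsumZ : Summable fun n : ℕ => ξ (n + N) ω * bas (n + N) Z :=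
    Summable.of_norm_bounded hs2 hterm
  have hsumall : Summable fun n : ℕ => ξ n ω * bas n Z := (summable_nat_add_iff N).1 hsumZ
  have htailZ : ‖∑' n : ℕ, ξ (n + N) ω * bas (n + N) Z‖ ≤ 1 / 4 * Real.exp (-(r ^ 2 / 2)) := by
    have h3 := tsum_of_norm_bounded hs2.hasSum hterm
    rw [tsum_mul_left] at h3
    refine h3.trans ?_
    calc Real.exp (8 * r ^ 2) * ∑' n : ℕ, ‖ξ (n + N) ω‖ * (1 / 2 : ℝ) ^ (n + N)
        ≤ Real.exp (8 * r ^ 2) * c := by gcongr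
      _ = 1 / 4 * (Real.exp (8 * r ^ 2) * Real.exp (-(17 / 2 * r ^ 2))) := by rw [hc]; ring
      _ = _ := by
        rw [← Real.exp_add]
        congr 2
        ring
  have hgef : gef ξ ω Z = FF N (fun i => ξ i ω) Z + ∑' n : ℕ, ξ (n + N) ω * bas (n + N) Z := by
    have e1 : gef ξ ω Z = ∑' n : ℕ, ξ n ω * bas n Z := by
      unfold gef bas
      refine tsum_congr fun n => ?_
      rw [mul_div_assoc]
    rw [e1, ← hsumall.sum_add_tsum_nat_add N]
    congr 1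
    unfold FF
    rw [← Fin.sum_univ_eq_sum_range (fun n => ξ n ω * bas n Z) N]
  -- comparison with exp(Z²/2)
  set H : ℂ := Complex.exp (Z ^ 2 / 2) with hH
  have hHlow : Real.exp (-(r ^ 2 / 2)) ≤ ‖H‖ := by
    rw [hH, norm_exp_sq]
    apply Real.exp_le_exp.2
    have : Z.im ^ 2 ≤ ‖Z‖ ^ 2 := by
      rw [← Complex.normSq_eq_norm_sq, Complex.normSq_apply]
      nlinarith [sq_nonneg Z.re]
    linarith
  have hHpos : 0 < ‖H‖ := lt_of_lt_of_le (Real.exp_pos _) hHlow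
  have hA : ‖FF N (fun i => ξ i ω) Z - FF N (hv N) Z‖ ≤ 1 / 4 * ‖H‖ := h1 z hz
  have hB : ‖FF N (hv N) Z - H‖ ≤ 1 / 4 * ‖H‖ := by
    have h3 := h_trunc M Z
    refine (h3.trans ?_).trans (mul_le_mul_of_nonneg_left hHlow (by norm_num))
    have h4 : Real.exp (2 * ‖Z‖ ^ 2) ≤ Real.exp (4 * r ^ 2) := Real.exp_le_exp.2 (by linarith)
    have h5 : (1 / 4 : ℝ) ^ M = 1 / 2 ^ (2 * M) := by
      rw [pow_mul, one_div, inv_pow]; norm_num
    rw [h5]
    have h6 : (0 : ℝ) < 2 ^ (2 * M) := by positivity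
    calc 1 / 2 ^ (2 * M) * Real.exp (2 * ‖Z‖ ^ 2)
        ≤ 1 / 2 ^ (2 * M) * Real.exp (4 * r ^ 2) := by gcongr
      _ ≤ 1 / (16 * Real.exp (17 / 2 * r ^ 2)) * Real.exp (4 * r ^ 2) := by gcongr
      _ = 1 / 16 * (Real.exp (-(17 / 2 * r ^ 2)) * Real.exp (4 * r ^ 2)) := by
          rw [Real.exp_neg]
          field_simp
      _ = 1 / 16 * Real.exp (-(9 / 2 * r ^ 2)) := by
          rw [← Real.exp_add]
          congr 2
          ring
      _ ≤ 1 / 4 * Real.exp (-(r ^ 2 / 2)) := by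
          have : Real.exp (-(9 / 2 * r ^ 2)) ≤ Real.exp (-(r ^ 2 / 2)) :=
            Real.exp_le_exp.2 (by nlinarith [sq_nonneg r])
          have h7 := Real.exp_pos (-(9 / 2 * r ^ 2))
          linarith
  have hC : ‖∑' n : ℕ, ξ (n + N) ω * bas (n + N) Z‖ ≤ 1 / 4 * ‖H‖ :=
    htailZ.trans (mul_le_mul_of_nonneg_left hHlow (by norm_num))
  intro h0
  rw [hgef] at h0
  have hfin : ‖H‖ ≤ 3 / 4 * ‖H‖ := by
    have e : H = -((FF N (fun i => ξ i ω) Z - FF N (hv N) Z) + (FF N (hv N) Z - H) +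
        ∑' n : ℕ, ξ (n + N) ω * bas (n + N) Z) := by
      have : FF N (fun i => ξ i ω) Z = -∑' n : ℕ, ξ (n + N) ω * bas (n + N) Z :=
        eq_neg_of_add_eq_zero_left h0
      rw [this]
      ring
    calc ‖H‖ = ‖(FF N (fun i => ξ i ω) Z - FF N (hv N) Z) + (FF N (hv N) Z - H) +
        ∑' n : ℕ, ξ (n + N) ω * bas (n + N) Z‖ := by
          conv_lhs => rw [e]
          rw [norm_neg]
      _ ≤ ‖FF N (fun i => ξ i ω) Z - FF N (hv N) Z‖ + ‖FF N (hv N) Z - H‖ +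
          ‖∑' n : ℕ, ξ (n + N) ω * bas (n + N) Z‖ := norm_add₃_le
      _ ≤ 3 / 4 * ‖H‖ := by linarith
  linarith

lemma four_pow_ge (k : ℕ) (x : ℝ) (hx : 5 / 4 * x ≤ 5 / 4 * k) :
    Real.exp (5 / 4 * x) ≤ 4 ^ k := by
  have h1 : Real.exp (5 / 4) ≤ 4 := by
    have h := Real.exp_one_lt_d9
    have h5 : Real.exp (5 / 4) ^ 4 = Real.exp 1 ^ 5 := by
      rw [← Real.exp_nat_mul, ← Real.exp_nat_mul]
      norm_num
    by_contra hlt
    push Not at hlt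
    have h6 : (4 : ℝ) ^ 4 < Real.exp (5 / 4) ^ 4 := pow_lt_pow_left₀ hlt (by norm_num) (by norm_num)
    rw [h5] at h6
    have h7 : Real.exp 1 ^ 5 < (2.7182818286 : ℝ) ^ 5 :=
      pow_lt_pow_left₀ h (Real.exp_pos _).le (by norm_num)
    norm_num at h6 h7
    linarith
  calc Real.exp (5 / 4 * x) ≤ Real.exp (5 / 4 * k) := Real.exp_le_exp.2 hx
    _ = Real.exp (5 / 4) ^ k := by rw [← Real.exp_nat_mul]; ring_nf
    _ ≤ 4 ^ k := pow_le_pow_left₀ (Real.exp_pos _).le h1 k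

lemma two_pow_ge (k : ℕ) (x : ℝ) (hx : x ≤ k) : Real.exp (2 / 3 * x) ≤ 2 ^ k := by
  have h1 : Real.exp (2 / 3) ≤ 2 := by
    have h := Real.exp_one_lt_d9
    have h5 : Real.exp (2 / 3) ^ 3 = Real.exp 1 ^ 2 := by
      rw [← Real.exp_nat_mul, ← Real.exp_nat_mul]
      norm_num
    by_contra hlt
    push Not at hlt
    have h6 : (2 : ℝ) ^ 3 < Real.exp (2 / 3) ^ 3 := pow_lt_pow_left₀ hlt (by norm_num) (by norm_num)
    rw [h5] at h6
    have h7 : Real.exp 1 ^ 2 < (2.7182818286 : ℝ) ^ 2 :=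
      pow_lt_pow_left₀ h (Real.exp_pos _).le (by norm_num)
    norm_num at h6 h7
    linarith
  calc Real.exp (2 / 3 * x) ≤ Real.exp (2 / 3 * k) := Real.exp_le_exp.2 (by linarith)
    _ = Real.exp (2 / 3) ^ k := by rw [← Real.exp_nat_mul]; ring_nf
    _ ≤ 2 ^ k := pow_le_pow_left₀ (Real.exp_pos _).le h1 k

lemma num_aux (ε r N : ℝ) (hε : 0 < ε) (hε1 : ε ≤ 1) (hr100 : 100 ≤ r)
    (hεr : 100 ≤ ε ^ 2 * r) (hN1 : N ≤ 15 * r ^ 2) : 27 * N + 2 ≤ 590 * ε ^ 3 * r ^ 4 := by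
  have hr0 : 0 < r := by linarith
  have h4 : 100 ≤ ε * r := by
    have : ε ^ 2 * r ≤ ε * r := by
      have : ε ^ 2 ≤ ε := by nlinarith
      gcongr
    linarith
  have h5 : 100 * 100 ≤ (ε * r) * (ε ^ 2 * r) :=
    mul_le_mul h4 hεr (by norm_num) (by positivity)
  have e : (ε * r) * (ε ^ 2 * r) = ε ^ 3 * r ^ 2 := by ring
  rw [e] at h5
  have h6 : 1 * r ^ 2 ≤ (ε ^ 3 * r ^ 2) * r ^ 2 := by
    gcongr
    linarith
  have e2 : (ε ^ 3 * r ^ 2) * r ^ 2 = ε ^ 3 * r ^ 4 := by ring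
  rw [e2] at h6
  have h7 : (100 : ℝ) ^ 2 ≤ r ^ 2 := by gcongr
  have e3 : 590 * ε ^ 3 * r ^ 4 = 590 * (ε ^ 3 * r ^ 4) := by ring
  rw [e3]
  linarith

/-- The hole exponent of the thin rectangle. -/
theorem hole_upper {Ω : Type*} [MeasurableSpace Ω] (P : Measure Ω) [IsProbabilityMeasure P]
    (ξ : ℕ → Ω → ℂ) (hm : ∀ n, Measurable (ξ n)) (hind : iIndepFun ξ P)
    (hlaw : ∀ n, P.map (ξ n) = stdComplexGaussian) (ε r : ℝ) (hε : 0 < ε) (hε1 : ε ≤ 1)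
    (hr : 100 / ε ^ 2 ≤ r) :
    holeExponent P ξ (rect ε) r ≤ 5000 * ε ^ 3 * r ^ 4 := by
  have hε2 : 0 < ε ^ 2 := by positivity
  have hεr : 100 ≤ ε ^ 2 * r := by
    rw [div_le_iff₀ hε2] at hr
    linarith
  have hε21 : ε ^ 2 ≤ 1 := by nlinarith
  have hr100 : 100 ≤ r := by
    by_contra h
    push Not at h
    have : 0 ≤ r := by
      by_contra h'
      push Not at h'
      nlinarith
    nlinarith
  have hr0 : 0 < r := by linarith
  set M : ℕ := ⌈7 * r ^ 2⌉₊ + 2 with hM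
  set N : ℕ := 2 * M with hN
  set J : ℕ := ⌈1 / ε⌉₊ with hJ
  set m₀ : ℕ := ⌈20 * (ε ^ 2 * r ^ 2)⌉₊ with hm0
  -- bounds
  have hM1 : (M : ℝ) ≤ 7 * r ^ 2 + 3 := by
    rw [hM]
    push_cast
    have := (Nat.ceil_lt_add_one (show 0 ≤ 7 * r ^ 2 by positivity)).le
    linarith
  have hN1 : (N : ℝ) ≤ 15 * r ^ 2 := by
    rw [hN]
    push_cast
    nlinarith
  have hNpos : 0 < N := by rw [hN, hM]; omega
  have hJ1 : 1 / ε ≤ J := Nat.le_ceil _
  have hJ2 : (J : ℝ) ≤ 1 / ε + 1 := (Nat.ceil_lt_add_one (by positivity)).le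
  have hm1 : 20 * (ε ^ 2 * r ^ 2) ≤ m₀ := Nat.le_ceil _
  have hm2 : (m₀ : ℝ) ≤ 20 * (ε ^ 2 * r ^ 2) + 1 := (Nat.ceil_lt_add_one (by positivity)).le
  have hεr2 : 100 * r ≤ ε ^ 2 * r ^ 2 := by nlinarith
  -- the condition on N
  have hcondN : 16 * Real.exp (17 / 2 * r ^ 2) ≤ 2 ^ (2 * M) := by
    have h1 : Real.exp (5 / 4 * (7 * r ^ 2)) ≤ 4 ^ ⌈7 * r ^ 2⌉₊ := by
      apply four_pow_ge
      have := Nat.le_ceil (7 * r ^ 2)
      linarith
    have h2 : Real.exp (17 / 2 * r ^ 2) ≤ Real.exp (5 / 4 * (7 * r ^ 2)) :=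
      Real.exp_le_exp.2 (by nlinarith [sq_nonneg r])
    calc 16 * Real.exp (17 / 2 * r ^ 2) ≤ 16 * 4 ^ ⌈7 * r ^ 2⌉₊ := by
          have := h2.trans h1
          linarith
      _ = 2 ^ (2 * M) := by
          rw [hM, pow_mul, pow_add]
          norm_num
          ring
  -- the condition on m₀
  have hcondm : 64 * √(N : ℝ) * Real.exp (9 * (ε * r) ^ 2) ≤ 2 ^ m₀ := by
    have h1 := two_pow_ge m₀ (20 * (ε ^ 2 * r ^ 2)) hm1
    have h2 : √(N : ℝ) ≤ 4 * r := by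
      rw [show (4 : ℝ) * r = √((4 * r) ^ 2) by rw [Real.sqrt_sq (by positivity)]]
      apply Real.sqrt_le_sqrt
      nlinarith [sq_nonneg r]
    have h3 : 64 * √(N : ℝ) ≤ Real.exp (4 * (ε ^ 2 * r ^ 2)) := by
      have h4 : 4 * (ε ^ 2 * r ^ 2) + 1 ≤ Real.exp (4 * (ε ^ 2 * r ^ 2)) := Real.add_one_le_exp _
      nlinarith
    calc 64 * √(N : ℝ) * Real.exp (9 * (ε * r) ^ 2)
        ≤ Real.exp (4 * (ε ^ 2 * r ^ 2)) * Real.exp (9 * (ε * r) ^ 2) := by gcongr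
      _ = Real.exp (13 * (ε ^ 2 * r ^ 2)) := by
          rw [← Real.exp_add]
          congr 1
          ring
      _ ≤ Real.exp (2 / 3 * (20 * (ε ^ 2 * r ^ 2))) := by
          apply Real.exp_le_exp.2
          have : 0 ≤ ε ^ 2 * r ^ 2 := by positivity
          linarith
      _ ≤ 2 ^ m₀ := h1
  -- the probability bound
  have hE1 := E1_bound ε r hε hε1 hr0 N J m₀ hNpos hJ1 hcondm (gN_ball N hNpos)
  have hE2 := tail_prob P ξ hm hlaw N r hcondN
  have hlawN := law_low P ξ hm hind hlaw N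
  have hclosed := E1set_closed ε r N
  have hXm : Measurable fun ω (i : Fin N) => ξ i ω := measurable_pi_lambda _ fun i => hm i
  have hP1 : P {ω | (fun i : Fin N => ξ i ω) ∈ E1set ε r N} = gN N (E1set ε r N) := by
    rw [← hlawN, Measure.map_apply hXm hclosed.measurableSet]
    rfl
  have hind2 := indep_events P ξ hm hind N (E1set ε r N) hclosed.measurableSet
    (ENNReal.ofReal (1 / 4 * Real.exp (-(17 / 2 * r ^ 2))))
  have hsub := hole_subset ξ ε r hε1 hr0.le M hcondN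
  set K : ℕ := (2 * 2 ^ m₀ + 1) ^ (Fintype.card (Idx J m₀)) with hK
  set p : ℝ≥0∞ := P (holeEvent ξ (rect ε) r) with hp
  have hmain : ENNReal.ofReal (1 / 4) ≤ K * (ENNReal.ofReal (Real.exp (27 * N)) * p) := by
    calc ENNReal.ofReal (1 / 4) = ENNReal.ofReal (1 / 2) * ENNReal.ofReal (1 / 2) := by
          rw [← ENNReal.ofReal_mul (by norm_num)]
          norm_num
      _ ≤ (K * (ENNReal.ofReal (Real.exp (27 * N)) * gN N (E1set ε r N))) *
          P {ω | tail ξ N ω ≤ ENNReal.ofReal (1 / 4 * Real.exp (-(17 / 2 * r ^ 2)))} := by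
          gcongr
      _ = K * (ENNReal.ofReal (Real.exp (27 * N)) * (P {ω | (fun i : Fin N => ξ i ω) ∈ E1set ε r N} *
          P {ω | tail ξ N ω ≤ ENNReal.ofReal (1 / 4 * Real.exp (-(17 / 2 * r ^ 2)))})) := by
          rw [hP1]
          ring
      _ ≤ K * (ENNReal.ofReal (Real.exp (27 * N)) * p) := by
          rw [← hind2]
          gcongr
          exact measure_mono hsub
  have hptop : p ≠ ∞ := measure_ne_top _ _
  have hreal : 1 / 4 ≤ (K : ℝ) * (Real.exp (27 * N) * p.toReal) := by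
    have h1 : (K : ℝ≥0∞) * (ENNReal.ofReal (Real.exp (27 * N)) * p) =
        ENNReal.ofReal ((K : ℝ) * (Real.exp (27 * N) * p.toReal)) := by
      rw [ENNReal.ofReal_mul (by positivity), ENNReal.ofReal_natCast,
        ENNReal.ofReal_mul (Real.exp_pos _).le, ENNReal.ofReal_toReal hptop]
    rw [h1] at hmain
    exact (ENNReal.ofReal_le_ofReal_iff (by positivity)).1 hmain
  have hKpos : (0 : ℝ) < K := by
    have : 0 < K := by rw [hK]; positivity
    exact_mod_cast this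
  have hppos : 0 < p.toReal := by
    by_contra h
    push Not at h
    have : p.toReal = 0 := le_antisymm h ENNReal.toReal_nonneg
    rw [this, mul_zero, mul_zero] at hreal
    norm_num at hreal
  have hlog : -Real.log p.toReal ≤ Real.log 4 + Real.log K + 27 * N := by
    have h1 := Real.log_le_log (by norm_num) hreal
    rw [Real.log_mul hKpos.ne' (by positivity), Real.log_mul (by positivity) hppos.ne',
      Real.log_exp, one_div, Real.log_inv] at h1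
    linarith
  have hlog4 : Real.log 4 ≤ 2 := by
    have h2 := Real.log_le_sub_one_of_pos (show (0 : ℝ) < 2 by norm_num)
    rw [show (4 : ℝ) = 2 ^ 2 by norm_num, Real.log_pow]
    push_cast
    linarith
  have hlog2 : Real.log 2 ≤ 1 := by
    have h2 := Real.log_le_sub_one_of_pos (show (0 : ℝ) < 2 by norm_num)
    linarith
  have hlogK : Real.log K ≤ (2 * J + 1) * (m₀ * 2) * (m₀ + 2) := by
    rw [hK]
    push_cast
    rw [Real.log_pow]
    have hcard : (Fintype.card (Idx J m₀) : ℝ) = (2 * J + 1) * (m₀ * 2) := by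
      have : Fintype.card (Idx J m₀) = (2 * J + 1) * (m₀ * 2) := by simp [Idx]
      rw [this]
      push_cast
      ring
    rw [hcard]
    have h2 : Real.log (2 * 2 ^ m₀ + 1) ≤ m₀ + 2 := by
      have h3 : (2 : ℝ) * 2 ^ m₀ + 1 ≤ 2 ^ (m₀ + 2) := by
        have : (1 : ℝ) ≤ 2 ^ m₀ := one_le_pow₀ (by norm_num)
        rw [pow_add]
        linarith
      calc Real.log (2 * 2 ^ m₀ + 1) ≤ Real.log (2 ^ (m₀ + 2)) :=
            Real.log_le_log (by positivity) h3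
        _ = (m₀ + 2) * Real.log 2 := by rw [Real.log_pow]; push_cast; ring
        _ ≤ (m₀ + 2) * 1 := by gcongr
        _ = _ := by ring
    gcongr
  unfold holeExponent
  rw [← hp]
  refine hlog.trans ?_
  -- numerics
  have hX : (10000 : ℝ) ≤ ε ^ 2 * r ^ 2 := by nlinarith
  set X : ℝ := ε ^ 2 * r ^ 2 with hXdef
  have hJ3 : 2 * (J : ℝ) + 1 ≤ 5 / ε := by
    have h1 : 1 ≤ 1 / ε := by rw [le_div_iff₀ hε]; linarith
    calc 2 * (J : ℝ) + 1 ≤ 2 / ε + 3 := by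
          have : 2 / ε = 2 * (1 / ε) := by ring
          rw [this]; linarith
      _ ≤ 5 / ε := by
          have : 5 / ε = 2 / ε + 3 * (1 / ε) := by ring
          rw [this]; linarith
  have hb1 : (m₀ : ℝ) * 2 ≤ 42 * X := by linarith
  have hb2 : (m₀ : ℝ) + 2 ≤ 21 * X := by linarith
  have hX0 : 0 ≤ X := by positivity
  have hK2 : (2 * (J : ℝ) + 1) * (m₀ * 2) * (m₀ + 2) ≤ 4410 * ε ^ 3 * r ^ 4 := by
    calc (2 * (J : ℝ) + 1) * (m₀ * 2) * (m₀ + 2) ≤ (5 / ε) * (42 * X) * (21 * X) := by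
          gcongr
      _ = 4410 * ε ^ 3 * r ^ 4 := by
          rw [hXdef]
          field_simp
          ring
  have hB : 27 * (N : ℝ) + 2 ≤ 590 * ε ^ 3 * r ^ 4 :=
    num_aux ε r N hε hε1 hr100 hεr hN1
  linarith

end Pool.Agent.H655R3.Hole
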