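import Pool.Agent.H655R3.HoleAna

/-!
# The reference function `exp(z²/2)`
-/

set_option autoImplicit false

open MeasureTheory Set Filter Topology

namespace Pool.Agent.H655R3.Hole

/-- coefficients of `exp(z²/2)` -/
noncomputable def hc (n : ℕ) : ℝ :=
  if Even n then √(n.factorial : ℝ) / (2 ^ (n / 2) * (n / 2).factorial) else 0

lemma hc_sq_le (n : ℕ) : hc n ^ 2 ≤ 1 := by
  unfold hc
  split_ifs with h
  · obtain ⟨k, rfl⟩ := h
    have hk : (k + k) / 2 = k := by omega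
    rw [hk, div_pow, Real.sq_sqrt (by positivity), div_le_one (by positivity)]
    have h1 : (k + k).choose k * (k.factorial * k.factorial) = (k + k).factorial := by
      have := Nat.choose_mul_factorial_mul_factorial (show k ≤ k + k by omega)
      rw [Nat.add_sub_cancel] at this
      rw [← this]
      ring
    have h2 : (k + k).choose k ≤ 2 ^ (k + k) := Nat.choose_le_two_pow _ _
    have h3 : (k + k).factorial ≤ 2 ^ (k + k) * (k.factorial * k.factorial) := by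
      rw [← h1]
      exact Nat.mul_le_mul_right _ h2
    have h4 : ((k + k).factorial : ℝ) ≤ 2 ^ (k + k) * (k.factorial * k.factorial) := by
      exact_mod_cast h3
    calc ((k + k).factorial : ℝ) ≤ 2 ^ (k + k) * (k.factorial * k.factorial) := h4
      _ = _ := by rw [pow_add]; ring
  · norm_num

/-- the vector of coefficients -/
noncomputable def hv (N : ℕ) : Fin N → ℂ := fun n => ((hc n : ℝ) : ℂ)

lemma hv_sum (N : ℕ) : ∑ n : Fin N, ‖hv N n‖ ^ 2 ≤ N := by
  calc ∑ n : Fin N, ‖hv N n‖ ^ 2 ≤ ∑ _n : Fin N, (1 : ℝ) := by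
        refine Finset.sum_le_sum fun n _ => ?_
        unfold hv
        rw [Complex.norm_real, Real.norm_eq_abs, sq_abs]
        exact hc_sq_le n
    _ = N := by simp

lemma hc_bas (k : ℕ) (z : ℂ) : ((hc (2 * k) : ℝ) : ℂ) * bas (2 * k) z =
    (z ^ 2 / 2) ^ k / k.factorial := by
  unfold hc bas
  have hev : Even (2 * k) := even_two_mul k
  rw [if_pos hev]
  have hk : 2 * k / 2 = k := by omega
  rw [hk]
  have hs : (((√((2 * k).factorial : ℝ) : ℝ)) : ℂ) ≠ 0 := by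
    rw [Complex.ofReal_ne_zero]
    positivity
  have hkf : (k.factorial : ℂ) ≠ 0 := by exact_mod_cast k.factorial_ne_zero
  push_cast
  rw [div_pow, ← pow_mul]
  field_simp

lemma hc_bas_odd (k : ℕ) (z : ℂ) : ((hc (2 * k + 1) : ℝ) : ℂ) * bas (2 * k + 1) z = 0 := by
  unfold hc
  rw [if_neg (by rw [Nat.not_even_iff_odd]; exact odd_two_mul_add_one k)]
  simp

lemma FF_hv (M : ℕ) (z : ℂ) :
    FF (2 * M) (hv (2 * M)) z = ∑ k ∈ Finset.range M, (z ^ 2 / 2) ^ k / k.factorial := by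
  have h : ∀ N, FF N (hv N) z = ∑ n ∈ Finset.range N, ((hc n : ℝ) : ℂ) * bas n z := by
    intro N
    unfold FF hv
    exact Fin.sum_univ_eq_sum_range (fun n => ((hc n : ℝ) : ℂ) * bas n z) N
  rw [h]
  induction M with
  | zero => simp
  | succ M ih =>
    rw [show 2 * (M + 1) = 2 * M + 1 + 1 by ring, Finset.sum_range_succ, Finset.sum_range_succ,
      Finset.sum_range_succ, ih, hc_bas, hc_bas_odd, add_zero]

lemma real_tail (y : ℝ) (hy : 0 ≤ y) (M : ℕ) :
    Real.exp y - ∑ m ∈ Finset.range M, y ^ m / m.factorial ≤ (1 / 4) ^ M * Real.exp (4 * y) := by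
  have hs : ∀ x : ℝ, HasSum (fun m : ℕ => x ^ m / m.factorial) (Real.exp x) := by
    intro x
    rw [Real.exp_eq_exp_ℝ]
    exact NormedSpace.expSeries_div_hasSum_exp x
  have h1 := (hasSum_nat_add_iff' M).2 (hs y)
  have h2 := ((hasSum_nat_add_iff' M).2 (hs (4 * y))).mul_left ((1 / 4 : ℝ) ^ M)
  have h3 := hasSum_le (fun n => ?_) h1 h2
  · have h4 : 0 ≤ ∑ i ∈ Finset.range M, (4 * y) ^ i / (i.factorial : ℝ) :=
      Finset.sum_nonneg fun i _ => by positivity
    have h5 : (0 : ℝ) ≤ (1 / 4) ^ M := by positivity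
    nlinarith
  · have e : (1 / 4 : ℝ) ^ M * ((4 * y) ^ (n + M) / ((n + M).factorial : ℝ)) =
        4 ^ n * (y ^ (n + M) / ((n + M).factorial : ℝ)) := by
      rw [mul_pow, pow_add (4 : ℝ) n M, one_div, inv_pow]
      field_simp
    rw [e]
    have : (1 : ℝ) ≤ 4 ^ n := one_le_pow₀ (by norm_num)
    have h6 : 0 ≤ y ^ (n + M) / ((n + M).factorial : ℝ) := by positivity
    nlinarith

lemma h_trunc (M : ℕ) (z : ℂ) :
    ‖FF (2 * M) (hv (2 * M)) z - Complex.exp (z ^ 2 / 2)‖ ≤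
      (1 / 4) ^ M * Real.exp (2 * ‖z‖ ^ 2) := by
  rw [FF_hv, norm_sub_rev]
  refine (Complex.norm_exp_sub_sum_le_exp_norm_sub_sum (z ^ 2 / 2) M).trans ?_
  have hn : ‖z ^ 2 / 2‖ = ‖z‖ ^ 2 / 2 := by
    rw [norm_div, norm_pow]
    simp
  rw [hn]
  refine (real_tail _ (by positivity) M).trans ?_
  apply le_of_eq
  congr 2
  ring

lemma norm_exp_sq (z : ℂ) : ‖Complex.exp (z ^ 2 / 2)‖ = Real.exp (‖z‖ ^ 2 / 2 - z.im ^ 2) := by
  rw [Complex.norm_exp]
  congr 1
  rw [← Complex.normSq_eq_norm_sq, Complex.normSq_apply]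
  have : (z ^ 2 / 2).re = (z ^ 2).re / 2 := by
    rw [show (2 : ℂ) = ((2 : ℝ) : ℂ) by norm_num, Complex.div_ofReal_re]
  rw [this, sq, Complex.mul_re]
  ring

lemma bas_small (n : ℕ) (z : ℂ) (r : ℝ) (hz : ‖z‖ ≤ 2 * r) :
    ‖bas n z‖ ≤ (1 / 2) ^ n * Real.exp (8 * r ^ 2) := by
  have hr : 0 ≤ r := by
    have := norm_nonneg z
    linarith
  apply le_of_sq_le_sq _ (by positivity)
  rw [bas_norm_sq, mul_pow, ← Real.exp_nat_mul]
  have h1 : (16 * r ^ 2) ^ n / (n.factorial : ℝ) ≤ Real.exp (16 * r ^ 2) :=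
    Real.pow_div_factorial_le_exp _ (by positivity) _
  have h2 : ‖z‖ ^ 2 ≤ 4 * r ^ 2 := by nlinarith [norm_nonneg z]
  calc (‖z‖ ^ 2) ^ n / (n.factorial : ℝ) ≤ (4 * r ^ 2) ^ n / (n.factorial : ℝ) := by gcongr
    _ = (((1 / 2 : ℝ)) ^ n) ^ 2 * ((16 * r ^ 2) ^ n / (n.factorial : ℝ)) := by
        rw [← pow_mul, mul_comm n 2, pow_mul, show ((1 / 2 : ℝ) ^ 2) = 1 / 4 by norm_num,
          ← mul_div_assoc, ← mul_pow]
        congr 2
        ring
    _ ≤ (((1 / 2 : ℝ)) ^ n) ^ 2 * Real.exp (16 * r ^ 2) := by gcongr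
    _ = _ := by
        congr 2
        push_cast
        ring

end Pool.Agent.H655R3.Hole
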