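import Pool.Agent.H655R3.HoleE1

/-!
# The lower bound for the hole probability
-/

set_option autoImplicit false

open MeasureTheory Set Filter Topology ProbabilityTheory

open scoped ENNReal

namespace Pool.Agent.H655R3.Hole

lemma lintegral_coord (N : ℕ) (i : Fin N) :
    ∫⁻ w, ENNReal.ofReal (‖w i‖ ^ 2) ∂(gN N) = 1 := by
  have h := (measurePreserving_eval (fun _ : Fin N => stdComplexGaussian) i)
  have h2 := h.lintegral_comp (f := fun w : ℂ => ENNReal.ofReal (‖w‖ ^ 2)) (by fun_prop)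
  unfold gN
  rw [← lintegral_sq, ← h2]

lemma gN_ball (N : ℕ) (hN : 0 < N) :
    ENNReal.ofReal (1 / 2) ≤ gN N {w | ∑ i, ‖w i‖ ^ 2 ≤ 4 * N} := by
  have hN' : (0 : ℝ) < N := by exact_mod_cast hN
  have hint : ∫⁻ w, ENNReal.ofReal (∑ i, ‖w i‖ ^ 2) ∂(gN N) = N := by
    have : ∀ w : Fin N → ℂ, ENNReal.ofReal (∑ i, ‖w i‖ ^ 2) =
        ∑ i, ENNReal.ofReal (‖w i‖ ^ 2) := fun w =>
      ENNReal.ofReal_sum_of_nonneg fun i _ => by positivity
    simp_rw [this]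
    rw [lintegral_finsetSum _ (fun i _ => by fun_prop)]
    simp_rw [lintegral_coord]
    simp
  have hmark := mul_meas_ge_le_lintegral (μ := gN N)
    (f := fun w : Fin N → ℂ => ENNReal.ofReal (∑ i, ‖w i‖ ^ 2)) (by fun_prop) (4 * N : ℝ≥0∞)
  rw [hint] at hmark
  have hmeas : MeasurableSet {w : Fin N → ℂ | ∑ i, ‖w i‖ ^ 2 ≤ 4 * N} :=
    (isClosed_le (by fun_prop) continuous_const).measurableSet
  have hcompl : gN N {w | ∑ i, ‖w i‖ ^ 2 ≤ 4 * N}ᶜ ≤ 1 / 4 := by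
    have hsub : {w : Fin N → ℂ | ∑ i, ‖w i‖ ^ 2 ≤ 4 * N}ᶜ ⊆
        {w | (4 * N : ℝ≥0∞) ≤ ENNReal.ofReal (∑ i, ‖w i‖ ^ 2)} := by
      intro w hw
      simp only [mem_compl_iff, mem_ofPred_eq, not_le] at hw
      have : (4 * N : ℝ≥0∞) = ENNReal.ofReal (4 * N) := by
        rw [ENNReal.ofReal_mul (by norm_num), ENNReal.ofReal_natCast]
        norm_num
      rw [mem_ofPred_eq, this]
      exact ENNReal.ofReal_le_ofReal hw.le
    refine (measure_mono hsub).trans ?_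
    have hNe : (N : ℝ≥0∞) ≠ 0 := by exact_mod_cast hN.ne'
    have hNt : (N : ℝ≥0∞) ≠ ∞ := ENNReal.natCast_ne_top N
    rw [ENNReal.le_div_iff_mul_le (Or.inl (by norm_num)) (Or.inl (by norm_num))]
    have h3 : (N : ℝ≥0∞) * (gN N {w | (4 * N : ℝ≥0∞) ≤ ENNReal.ofReal (∑ i, ‖w i‖ ^ 2)} * 4) ≤
        N * 1 := by
      calc _ = 4 * (N : ℝ≥0∞) * gN N {w | (4 * N : ℝ≥0∞) ≤ ENNReal.ofReal (∑ i, ‖w i‖ ^ 2)} := by ring
        _ ≤ N := hmark
        _ = _ := by rw [mul_one]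
    exact (ENNReal.mul_le_mul_iff_right hNe hNt).1 h3
  have h1 := prob_add_prob_compl (μ := gN N) hmeas
  have h2 : (1 : ℝ≥0∞) ≤ gN N {w | ∑ i, ‖w i‖ ^ 2 ≤ 4 * N} + 1 / 4 := by
    calc (1 : ℝ≥0∞) = gN N {w | ∑ i, ‖w i‖ ^ 2 ≤ 4 * N} +
          gN N {w | ∑ i, ‖w i‖ ^ 2 ≤ 4 * N}ᶜ := h1.symm
      _ ≤ _ := by gcongr
  have h5 : (1 : ℝ≥0∞) - 1 / 4 ≤ gN N {w | ∑ i, ‖w i‖ ^ 2 ≤ 4 * N} :=
    tsub_le_iff_right.2 h2
  refine le_trans ?_ h5
  rw [show (1 : ℝ≥0∞) = ENNReal.ofReal 1 by simp, show (ENNReal.ofReal 1) / 4 = ENNReal.ofReal (1 / 4) by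
    rw [ENNReal.ofReal_div_of_pos (by norm_num)]; norm_num, ← ENNReal.ofReal_sub _ (by norm_num)]
  apply ENNReal.ofReal_le_ofReal
  norm_num

section

variable {Ω : Type*} [MeasurableSpace Ω] (P : Measure Ω) [IsProbabilityMeasure P]
  (ξ : ℕ → Ω → ℂ) (hm : ∀ n, Measurable (ξ n)) (hind : iIndepFun ξ P)
  (hlaw : ∀ n, P.map (ξ n) = stdComplexGaussian)

include hm hind hlaw in
lemma law_low (N : ℕ) : P.map (fun ω (i : Fin N) => ξ i ω) = gN N := by
  have h1 : iIndepFun (fun i : Fin N => ξ i) P := hind.precomp Fin.val_injective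
  have h2 := (iIndepFun_iff_map_fun_eq_pi_map (fun i : Fin N => (hm i).aemeasurable)).1 h1
  rw [h2]
  unfold gN
  congr 1
  funext i
  exact hlaw i

/-- the tail -/
noncomputable def tail {Ω : Type*} (ξ : ℕ → Ω → ℂ) (N : ℕ) (ω : Ω) : ℝ≥0∞ :=
  ∑' n : ℕ, ENNReal.ofReal (‖ξ (n + N) ω‖ * (1 / 2) ^ (n + N))

omit [IsProbabilityMeasure P] in
include hm hlaw in
lemma tail_mean (N : ℕ) : ∫⁻ ω, tail ξ N ω ∂P ≤ ENNReal.ofReal (2 * (1 / 2) ^ N) := by
  unfold tail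
  rw [lintegral_tsum (fun n => by
    have := hm (n + N)
    fun_prop)]
  have h1 : ∀ n : ℕ, ∫⁻ ω, ENNReal.ofReal (‖ξ (n + N) ω‖ * (1 / 2) ^ (n + N)) ∂P ≤
      ENNReal.ofReal ((1 / 2) ^ N * (1 / 2) ^ n) := by
    intro n
    have h2 : ∀ ω, ENNReal.ofReal (‖ξ (n + N) ω‖ * (1 / 2) ^ (n + N)) =
        ENNReal.ofReal ((1 / 2) ^ (n + N)) * ENNReal.ofReal ‖ξ (n + N) ω‖ := by
      intro ω
      rw [← ENNReal.ofReal_mul (by positivity)]
      congr 1
      ring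
    simp_rw [h2]
    rw [lintegral_const_mul _ (by have := hm (n + N); fun_prop)]
    have h3 : ∫⁻ ω, ENNReal.ofReal ‖ξ (n + N) ω‖ ∂P ≤ 1 := by
      have : ∫⁻ ω, ENNReal.ofReal ‖ξ (n + N) ω‖ ∂P = ∫⁻ w, ENNReal.ofReal ‖w‖ ∂stdComplexGaussian := by
        rw [← hlaw (n + N), lintegral_map (by fun_prop) (hm _)]
      rw [this]
      exact lintegral_norm_le
    calc _ ≤ ENNReal.ofReal ((1 / 2) ^ (n + N)) * 1 := by gcongr
      _ = _ := by rw [mul_one, pow_add, mul_comm]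
  refine (ENNReal.tsum_le_tsum h1).trans ?_
  rw [← ENNReal.ofReal_tsum_of_nonneg (fun n => by positivity)
    ((summable_geometric_two).mul_left _), tsum_mul_left, tsum_geometric_two, mul_comm]

include hm hlaw in
lemma tail_prob (N : ℕ) (r : ℝ) (hN : 16 * Real.exp (17 / 2 * r ^ 2) ≤ 2 ^ N) :
    ENNReal.ofReal (1 / 2) ≤ P {ω | tail ξ N ω ≤ ENNReal.ofReal (1 / 4 * Real.exp (-(17 / 2 * r ^ 2)))} := by
  have hmt : Measurable (tail ξ N) := by
    unfold tail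
    exact Measurable.ennreal_tsum fun n => by
      have := hm (n + N)
      fun_prop
  set c : ℝ := 1 / 4 * Real.exp (-(17 / 2 * r ^ 2)) with hc
  have hc0 : 0 < c := by positivity
  have hmark := mul_meas_ge_le_lintegral (μ := P) hmt (ENNReal.ofReal c)
  have hmean := tail_mean P ξ hm hlaw N
  have hmeas : MeasurableSet {ω | tail ξ N ω ≤ ENNReal.ofReal c} := measurableSet_le hmt measurable_const
  have hcompl : P {ω | tail ξ N ω ≤ ENNReal.ofReal c}ᶜ ≤ ENNReal.ofReal (1 / 2) := by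
    have hsub : {ω | tail ξ N ω ≤ ENNReal.ofReal c}ᶜ ⊆ {ω | ENNReal.ofReal c ≤ tail ξ N ω} := by
      intro ω hω
      simp only [mem_compl_iff, mem_ofPred_eq, not_le] at hω
      exact hω.le
    refine (measure_mono hsub).trans ?_
    have h3 : ENNReal.ofReal c * P {ω | ENNReal.ofReal c ≤ tail ξ N ω} ≤
        ENNReal.ofReal c * ENNReal.ofReal (1 / 2) := by
      refine (hmark.trans hmean).trans ?_
      rw [← ENNReal.ofReal_mul hc0.le]
      apply ENNReal.ofReal_le_ofReal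
      have h2 : (0 : ℝ) < 2 ^ N := by positivity
      have he := Real.exp_pos (17 / 2 * r ^ 2)
      have e1 : (2 : ℝ) * (1 / 2) ^ N = 2 / 2 ^ N := by
        rw [one_div, inv_pow]; ring
      have e2 : c * (1 / 2) = 1 / (8 * Real.exp (17 / 2 * r ^ 2)) := by
        rw [hc, Real.exp_neg, ← one_div, ← one_div_mul_one_div]
        ring
      rw [e1, e2, div_le_div_iff₀ h2 (by positivity)]
      linarith
    exact (ENNReal.mul_le_mul_iff_right (by simpa using hc0) ENNReal.ofReal_ne_top).1 h3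
  have h1 := prob_add_prob_compl (μ := P) hmeas
  have h2 : (1 : ℝ≥0∞) ≤ P {ω | tail ξ N ω ≤ ENNReal.ofReal c} + ENNReal.ofReal (1 / 2) := by
    calc (1 : ℝ≥0∞) = P {ω | tail ξ N ω ≤ ENNReal.ofReal c} +
          P {ω | tail ξ N ω ≤ ENNReal.ofReal c}ᶜ := h1.symm
      _ ≤ _ := by gcongr
  have h5 : (1 : ℝ≥0∞) - ENNReal.ofReal (1 / 2) ≤ P {ω | tail ξ N ω ≤ ENNReal.ofReal c} :=
    tsub_le_iff_right.2 h2
  refine le_trans ?_ h5
  rw [show (1 : ℝ≥0∞) = ENNReal.ofReal 1 by simp, ← ENNReal.ofReal_sub _ (by norm_num)]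
  apply ENNReal.ofReal_le_ofReal
  norm_num

include hm hind in
lemma indep_events (N : ℕ) (S : Set (Fin N → ℂ)) (hS : MeasurableSet S) (c : ℝ≥0∞) :
    P ({ω | (fun i : Fin N => ξ i ω) ∈ S} ∩ {ω | tail ξ N ω ≤ c}) =
      P {ω | (fun i : Fin N => ξ i ω) ∈ S} * P {ω | tail ξ N ω ≤ c} := by
  set m : ℕ → MeasurableSpace Ω := fun n => MeasurableSpace.comap (ξ n) inferInstance with hmdef
  have hle : ∀ n, m n ≤ ‹MeasurableSpace Ω› := fun n => (hm n).comap_le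
  have hI : iIndep m P := hind
  have hdisj : Disjoint {n : ℕ | n < N} {n : ℕ | N ≤ n} := by
    rw [Set.disjoint_left]
    intro n h1 h2
    simp only [mem_ofPred_eq] at h1 h2
    omega
  have hind2 := indep_iSup_of_disjoint hle hI hdisj
  rw [Indep_iff] at hind2
  apply hind2
  · have hX : Measurable[⨆ n ∈ {n : ℕ | n < N}, m n] (fun ω (i : Fin N) => ξ i ω) := by
      refine @measurable_pi_lambda _ _ _ (_) _ _ fun i => ?_
      have h1 : Measurable[m i] (ξ i) := comap_measurable (ξ i)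
      have h2 : m i ≤ ⨆ n ∈ {n : ℕ | n < N}, m n := le_iSup₂_of_le (i : ℕ) i.2 le_rfl
      exact h1.mono h2 le_rfl
    exact hX hS
  · have hT : Measurable[⨆ n ∈ {n : ℕ | N ≤ n}, m n] (tail ξ N) := by
      unfold tail
      refine @Measurable.ennreal_tsum _ (_) _ _ _ fun n => ?_
      have h1 : Measurable[m (n + N)] (ξ (n + N)) := comap_measurable (ξ (n + N))
      have h2 : m (n + N) ≤ ⨆ n ∈ {n : ℕ | N ≤ n}, m n :=
        le_iSup₂_of_le (n + N) (by simp) le_rfl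
      have h3 : Measurable fun w : ℂ => ENNReal.ofReal (‖w‖ * (1 / 2) ^ (n + N)) := by fun_prop
      exact h3.comp (h1.mono h2 le_rfl)
    exact hT measurableSet_Iic

end

end Pool.Agent.H655R3.Hole
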