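import Pool.Agent.H655R3.PerPlane

/-!
# The perturbed periodic set
-/

set_option autoImplicit false

open MeasureTheory Set Filter Topology

open scoped ENNReal NNReal

namespace Pool.Agent.H655R3.Per

/-- `h(a) = a + η sin(2πa)` -/
noncomputable def hh (η a : ℝ) : ℝ := a + η * Real.sin (2 * Real.pi * a)

/-- the comparison parameter -/
noncomputable def tau (η a : ℝ) : ℝ :=
  √(3 / 2) * (a + η / 3 * Real.sin (2 * Real.pi * a) + 10 * η ^ 2 * a)

noncomputable def dtau (η a : ℝ) : ℝ :=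
  √(3 / 2) * (1 + η / 3 * (2 * Real.pi * Real.cos (2 * Real.pi * a)) + 10 * η ^ 2)

lemma hasDerivAt_sin2 (a : ℝ) : HasDerivAt (fun a => Real.sin (2 * Real.pi * a))
    (2 * Real.pi * Real.cos (2 * Real.pi * a)) a := by
  have : HasDerivAt (fun y : ℝ => 2 * Real.pi * y) (2 * Real.pi) a := by
    simpa using ((hasDerivAt_id a).const_mul (2 * Real.pi))
  exact this.sin.congr_deriv (by ring)

lemma tau_deriv (η a : ℝ) : HasDerivAt (tau η) (dtau η a) a := by
  unfold tau dtau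
  have h1 := (hasDerivAt_sin2 a).const_mul (η / 3)
  have h2 := (hasDerivAt_id a).const_mul (10 * η ^ 2)
  have h3 := (((hasDerivAt_id a).add h1).add h2).const_mul √(3 / 2)
  refine HasDerivAt.congr_deriv h3 ?_
  ring

lemma dfac_pos (η a : ℝ) (hη : |η| ≤ 1 / 10) :
    0 < 1 + η / 3 * (2 * Real.pi * Real.cos (2 * Real.pi * a)) + 10 * η ^ 2 := by
  have hc1 : |Real.cos (2 * Real.pi * a)| ≤ 1 := Real.abs_cos_le_one _
  have hpi : Real.pi < 3.15 := Real.pi_lt_d2
  have hpi0 : 0 < Real.pi := Real.pi_pos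
  have h : |η / 3 * (2 * Real.pi * Real.cos (2 * Real.pi * a))| ≤ 1 / 2 := by
    rw [abs_mul, abs_mul, abs_mul, abs_div, abs_of_pos hpi0, abs_two]
    calc |η| / |3| * (2 * Real.pi * |Real.cos (2 * Real.pi * a)|)
        ≤ (1 / 10) / 3 * (2 * 3.15 * 1) := by
          rw [abs_of_pos (by norm_num : (0 : ℝ) < 3)]
          gcongr
      _ ≤ 1 / 2 := by norm_num
  have := neg_abs_le (η / 3 * (2 * Real.pi * Real.cos (2 * Real.pi * a)))
  nlinarith [sq_nonneg η]

lemma dtau_pos (η a : ℝ) (hη : |η| ≤ 1 / 10) : 0 < dtau η a := by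
  unfold dtau
  have := dfac_pos η a hη
  positivity

lemma tau_strictMono (η : ℝ) (hη : |η| ≤ 1 / 10) : StrictMono (tau η) := by
  apply strictMono_of_deriv_pos
  intro x
  rw [(tau_deriv η x).deriv]
  exact dtau_pos η x hη

lemma tau_cont (η : ℝ) : Continuous (tau η) := by
  unfold tau; fun_prop

lemma tau_surj (η : ℝ) : Function.Surjective (tau η) := by
  have hb : ∀ a, |η / 3 * Real.sin (2 * Real.pi * a)| ≤ |η| := by
    intro a
    rw [abs_mul, abs_div]
    have h1 := Real.abs_sin_le_one (2 * Real.pi * a)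
    have h2 := abs_nonneg η
    rw [abs_of_pos (by norm_num : (0 : ℝ) < 3)]
    calc |η| / 3 * |Real.sin (2 * Real.pi * a)| ≤ |η| / 3 * 1 := by gcongr
      _ ≤ |η| := by linarith
  have hs : 0 < √(3 / 2 : ℝ) := by positivity
  refine (tau_cont η).surjective ?_ ?_
  · have h1 : Tendsto (fun a : ℝ => √(3 / 2) * (a - |η|)) atTop atTop :=
      (tendsto_atTop_add_const_right _ _ tendsto_id).const_mul_atTop hs
    refine tendsto_atTop_mono' _ ?_ h1
    filter_upwards [eventually_ge_atTop 0] with a ha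
    unfold tau
    have := neg_abs_le (η / 3 * Real.sin (2 * Real.pi * a))
    have h3 := hb a
    have h4 : 0 ≤ 10 * η ^ 2 * a := by positivity
    gcongr
    linarith
  · have h1 : Tendsto (fun a : ℝ => √(3 / 2) * (a + |η|)) atBot atBot :=
      (tendsto_atBot_add_const_right _ _ tendsto_id).const_mul_atBot hs
    refine tendsto_atBot_mono' _ ?_ h1
    filter_upwards [eventually_le_atBot 0] with a ha
    unfold tau
    have := le_abs_self (η / 3 * Real.sin (2 * Real.pi * a))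
    have h3 := hb a
    have h4 : 10 * η ^ 2 * a ≤ 0 := mul_nonpos_of_nonneg_of_nonpos (by positivity) ha
    apply mul_le_mul_of_nonneg_left _ hs.le
    linarith

/-- the inverse of `tau` -/
noncomputable def rho (η : ℝ) : ℝ → ℝ := Function.invFun (tau η)

lemma tau_rho (η s : ℝ) : tau η (rho η s) = s :=
  Function.rightInverse_invFun (tau_surj η) s

lemma rho_tau (η a : ℝ) (hη : |η| ≤ 1 / 10) : rho η (tau η a) = a :=
  Function.leftInverse_invFun (tau_strictMono η hη).injective a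

/-- arc length is dominated by `tau` -/
lemma arc_le (η a b : ℝ) (hη : |η| ≤ 1 / 10) :
    (a - b) ^ 2 + (hh η a - hh η b) ^ 2 / 2 ≤ (tau η a - tau η b) ^ 2 := by
  unfold hh tau
  set δ := Real.sin (2 * Real.pi * a) - Real.sin (2 * Real.pi * b) with hδ
  have hpi : Real.pi < 3.15 := Real.pi_lt_d2
  have hpi0 : 0 < Real.pi := Real.pi_pos
  have h1 : |δ| ≤ 6.3 * |a - b| := by
    have h := Real.abs_sin_sub_sin_le (2 * Real.pi * a) (2 * Real.pi * b)
    rw [← mul_sub, abs_mul, abs_of_pos (by positivity : (0 : ℝ) < 2 * Real.pi)] at h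
    have := abs_nonneg (a - b)
    nlinarith
  set D := a - b with hD
  have s32 : (√(3 / 2) : ℝ) ^ 2 = 3 / 2 := Real.sq_sqrt (by norm_num)
  have e1 : a + η * Real.sin (2 * Real.pi * a) - (b + η * Real.sin (2 * Real.pi * b)) =
      D + η * δ := by rw [hD, hδ]; ring
  have e2 : √(3 / 2) * (a + η / 3 * Real.sin (2 * Real.pi * a) + 10 * η ^ 2 * a) -
      √(3 / 2) * (b + η / 3 * Real.sin (2 * Real.pi * b) + 10 * η ^ 2 * b) =
      √(3 / 2) * (D + η / 3 * δ + 10 * η ^ 2 * D) := by rw [hD, hδ]; ring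
  rw [e1, e2, mul_pow, s32]
  have e3 : 3 / 2 * (D + η / 3 * δ + 10 * η ^ 2 * D) ^ 2 - (D ^ 2 + (D + η * δ) ^ 2 / 2) =
      η ^ 2 * (30 * D ^ 2 + 150 * (η * D) ^ 2 + 10 * (η * (D * δ)) - δ ^ 2 / 3) := by ring
  have hD2 : |D| ^ 2 = D ^ 2 := sq_abs D
  have hδ2 : δ ^ 2 ≤ 39.69 * D ^ 2 := by
    rw [← sq_abs δ, ← hD2]
    have := abs_nonneg δ
    have := pow_le_pow_left₀ (abs_nonneg δ) h1 2
    calc |δ| ^ 2 ≤ (6.3 * |D|) ^ 2 := this
      _ = _ := by ring
  have h2 : |η * (D * δ)| ≤ 0.63 * D ^ 2 := by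
    rw [abs_mul, abs_mul, ← hD2]
    calc |η| * (|D| * |δ|) ≤ 1 / 10 * (|D| * (6.3 * |D|)) := by gcongr
      _ = _ := by ring
  have h3 := neg_abs_le (η * (D * δ))
  have h4 : 0 ≤ 30 * D ^ 2 + 150 * (η * D) ^ 2 + 10 * (η * (D * δ)) - δ ^ 2 / 3 := by
    have := sq_nonneg (η * D)
    have := sq_nonneg D
    linarith
  have h5 := mul_nonneg (sq_nonneg η) h4
  linarith

/-- 1-Lipschitz parametrisation of the sheets -/
noncomputable def Phi (k η : ℝ) (y : E 2) : E 3 :=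
  !₂[rho η (y 0), ((k - hh η (rho η (y 0))) / √2 + y 1) / √2,
    ((k - hh η (rho η (y 0))) / √2 - y 1) / √2]

lemma two_sq {b c : ℝ} : ((b + c) / √2) ^ 2 + ((b - c) / √2) ^ 2 = b ^ 2 + c ^ 2 := by
  have s2 : (√2 : ℝ) ^ 2 = 2 := Real.sq_sqrt (by norm_num)
  rw [div_pow, div_pow, s2]
  ring

lemma Phi_normsq (k η : ℝ) (y : E 2) :
    ‖Phi k η y‖ ^ 2 = (rho η (y 0)) ^ 2 + (k - hh η (rho η (y 0))) ^ 2 / 2 + (y 1) ^ 2 := by
  have s2 : (√2 : ℝ) ^ 2 = 2 := Real.sq_sqrt (by norm_num)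
  rw [EuclideanSpace.norm_sq_eq, Fin.sum_univ_three]
  simp only [Phi, Real.norm_eq_abs, sq_abs]
  simp only [Matrix.cons_val_zero, Matrix.cons_val_one, Matrix.cons_val]
  rw [add_assoc, two_sq, div_pow, s2]
  ring

lemma Phi_lipschitz (k η : ℝ) (hη : |η| ≤ 1 / 10) : LipschitzWith 1 (Phi k η) := by
  refine LipschitzWith.of_dist_le_mul fun y z => ?_
  rw [NNReal.coe_one, one_mul, EuclideanSpace.dist_eq, EuclideanSpace.dist_eq]
  apply Real.sqrt_le_sqrt
  rw [Fin.sum_univ_three, Fin.sum_univ_two]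
  simp only [Real.dist_eq, sq_abs]
  simp only [Phi, Matrix.cons_val_zero, Matrix.cons_val_one, Matrix.cons_val]
  set a := rho η (y 0) with ha
  set b := rho η (z 0) with hb
  have h := arc_le η a b hη
  rw [ha, hb, tau_rho, tau_rho, ← ha, ← hb] at h
  have s2 : (√2 : ℝ) ^ 2 = 2 := Real.sq_sqrt (by norm_num)
  have p2 : (√2 : ℝ) ≠ 0 := by positivity
  have e : (((k - hh η a) / √2 + y 1) / √2 - ((k - hh η b) / √2 + z 1) / √2) ^ 2 +
      (((k - hh η a) / √2 - y 1) / √2 - ((k - hh η b) / √2 - z 1) / √2) ^ 2 =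
      (hh η a - hh η b) ^ 2 / 2 + (y 1 - z 1) ^ 2 := by
    have e1 : ((k - hh η a) / √2 + y 1) / √2 - ((k - hh η b) / √2 + z 1) / √2 =
        (-((hh η a - hh η b) / √2) + (y 1 - z 1)) / √2 := by ring
    have e2 : ((k - hh η a) / √2 - y 1) / √2 - ((k - hh η b) / √2 - z 1) / √2 =
        (-((hh η a - hh η b) / √2) - (y 1 - z 1)) / √2 := by ring
    rw [e1, e2, two_sq, neg_sq, div_pow, s2]
  rw [add_assoc, e]
  linarith

/-- the defining function of the perturbed set -/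
noncomputable def uu (η : ℝ) (x : E 3) : ℝ := hh η (x 0) + x 1 + x 2

lemma sheet_subset (k η : ℝ) (hη : |η| ≤ 1 / 10) : {x : E 3 | uu η x = k} ⊆ range (Phi k η) := by
  intro x hx
  rw [mem_ofPred_eq] at hx
  have s2 : (√2 : ℝ) ^ 2 = 2 := Real.sq_sqrt (by norm_num)
  have s2' : (√2 : ℝ) * √2 = 2 := by rw [← sq, s2]
  have p2 : (√2 : ℝ) ≠ 0 := by positivity
  refine ⟨!₂[tau η (x 0), (x 1 - x 2) / √2], ?_⟩
  have hx' : k - hh η (x 0) = x 1 + x 2 := by unfold uu at hx; linarith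
  ext i
  fin_cases i
  · simp [Phi, rho_tau η _ hη]
  · simp only [Phi, Matrix.cons_val_zero, Matrix.cons_val_one, Matrix.cons_val]
    simp [rho_tau η _ hη, hx']
    field_simp
    rw [s2]
    ring
  · simp only [Phi, Matrix.cons_val_zero, Matrix.cons_val_one, Matrix.cons_val]
    simp [rho_tau η _ hη, hx']
    field_simp
    rw [s2]
    ring

end Pool.Agent.H655R3.Per
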