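import Mathlib

/-!
# Gaussian surface area of periodic sets: definitions
-/

set_option autoImplicit false

open MeasureTheory Set

open scoped ENNReal

namespace Pool.Agent.H655R3.Per

/-- Euclidean space `ℝⁿ`. -/
abbrev E (n : ℕ) := EuclideanSpace ℝ (Fin n)

/-- The standard basis vector `v_i` of `ℝⁿ`. -/
noncomputable def v {n : ℕ} (i : Fin n) : E n := EuclideanSpace.single i 1

/-- The standard Gaussian density `γ_n(x) = (2π)^(-n/2) exp(-|x|²/2)`. -/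
noncomputable def gaussDensity (n : ℕ) (x : E n) : ℝ :=
  (2 * Real.pi) ^ (-(n : ℝ) / 2) * Real.exp (-‖x‖ ^ 2 / 2)

/-- The unit cube `[0,1]^m` of `ℝ^m`. -/
def unitCube (m : ℕ) : Set (E m) := {y | ∀ i, y i ∈ Icc (0 : ℝ) 1}

/-- The `(n-1)`-dimensional surface measure on `ℝⁿ`: the `(n-1)`-dimensional Hausdorff measure,
with the usual normalisation (the unit cube of `ℝ^(n-1)` has measure one). -/
noncomputable def surfaceMeasure (n : ℕ) : Measure (E n) :=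
  (μH[((n - 1 : ℕ) : ℝ)] (unitCube (n - 1)))⁻¹ • μH[((n - 1 : ℕ) : ℝ)]

/-- The Gaussian surface area `∫_{∂Ω} γ_n(x) dx` of a set `Ω ⊆ ℝⁿ`. -/
noncomputable def gaussianSurfaceArea {n : ℕ} (Ω : Set (E n)) : ℝ≥0∞ :=
  ∫⁻ x in frontier Ω, ENNReal.ofReal (gaussDensity n x) ∂(surfaceMeasure n)

/-- `Ω` is periodic: `Ω + v_i = Ωᶜ` for all `i` and `-Ω = Ωᶜ`, up to the boundary of `Ω`. (These
equalities can never hold at the origin, so they are to be read up to boundary points, also for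
the periodic half spaces.) -/
def IsPeriodic {n : ℕ} (Ω : Set (E n)) : Prop :=
  (∀ i : Fin n, ∀ x ∉ frontier Ω, (x - v i ∈ Ω ↔ x ∉ Ω)) ∧
    (∀ x ∉ frontier Ω, (-x ∈ Ω ↔ x ∉ Ω))

/-- `S ⊆ ℝⁿ` is a `C^∞` hypersurface: locally it is the graph `x_i = h(x)` of a `C^∞` function `h`
of the other coordinates. -/
def IsSmoothHypersurface {n : ℕ} (S : Set (E n)) : Prop :=
  ∀ p ∈ S, ∃ (i : Fin n) (U : Set (E n)) (h : E n → ℝ),
    IsOpen U ∧ p ∈ U ∧ ContDiff ℝ (⊤ : ℕ∞) h ∧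
    (∀ x y : E n, (∀ j, j ≠ i → x j = y j) → h x = h y) ∧
    S ∩ U = {x | x ∈ U ∧ x i = h x}

/-- The periodic half space with signs `ε`. -/
def halfSpace {n : ℕ} (ε : Fin n → ℝ) : Set (E n) :=
  {x | 0 ≤ Real.sin (Real.pi * ∑ i, ε i * x i)}

end Pool.Agent.H655R3.Per
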