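import Pool.Agent.H655R3.PerMain

/-!
# Finiteness of the Gaussian surface area of the periodic half spaces
-/

set_option autoImplicit false

open MeasureTheory Set Filter Topology

open scoped ENNReal NNReal

namespace Pool.Agent.H655R3.Per

lemma subset_range_TT (ε : Fin 3 → ℝ) (hε : ∀ i, ε i = 1 ∨ ε i = -1) (k : ℝ) :
    {x : E 3 | ∑ i, ε i * x i = k} ⊆ range (TT ε k) := by
  intro x hx
  have h0 := sq_sign (hε 0)
  have h1 := sq_sign (hε 1)
  have h2 := sq_sign (hε 2)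
  rw [mem_ofPred_eq, Fin.sum_univ_three] at hx
  have s2 : (√2 : ℝ) ^ 2 = 2 := Real.sq_sqrt (by norm_num)
  have s6 : (√6 : ℝ) ^ 2 = 6 := Real.sq_sqrt (by norm_num)
  have p2 : (√2 : ℝ) ≠ 0 := by positivity
  have p6 : (√6 : ℝ) ≠ 0 := by positivity
  refine ⟨!₂[(ε 1 * x 1 - ε 2 * x 2) / √2, (ε 0 * x 0 - k / 3) * √6 / 2], ?_⟩
  have a1 : (ε 1 * x 1 - ε 2 * x 2) / √2 / √2 = (ε 1 * x 1 - ε 2 * x 2) / 2 := by
    rw [div_div, ← sq, s2]
  have a2 : (ε 0 * x 0 - k / 3) * √6 / 2 / √6 = (ε 0 * x 0 - k / 3) / 2 := by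
    field_simp
  have a3 : 2 * ((ε 0 * x 0 - k / 3) * √6 / 2) / √6 = (ε 0 * x 0 - k / 3) := by
    field_simp
  ext i
  fin_cases i
  · simp only [TT, Matrix.cons_val_zero, Matrix.cons_val_one, Matrix.cons_val, Fin.zero_eta]
    rw [a3]
    linear_combination x 0 * h0
  · simp only [TT, Matrix.cons_val_zero, Matrix.cons_val_one, Matrix.cons_val, Fin.mk_one]
    rw [a1, a2]
    linear_combination x 1 * h1 - ε 1 / 2 * hx
  · simp only [TT, Matrix.cons_val_zero, Matrix.cons_val_one, Matrix.cons_val, Fin.reduceFinMk]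
    rw [a1, a2]
    linear_combination x 2 * h2 - ε 2 / 2 * hx

lemma plane_area_eq (ε : Fin 3 → ℝ) (hε : ∀ i, ε i = 1 ∨ ε i = -1) (k : ℝ) :
    ∫⁻ x in {x : E 3 | ∑ i, ε i * x i = k},
      ENNReal.ofReal (gaussDensity 3 x) ∂(surfaceMeasure 3) = ENNReal.ofReal (c0 * alphaK k) := by
  apply le_antisymm _ (plane_area ε hε k)
  refine (lintegral_mono_set (subset_range_TT ε hε k)).trans ?_
  rw [surf_isometry (TT ε k) (TT_isometry ε hε k) _ gauss_meas]
  have h : ∀ y : E 2, ENNReal.ofReal (gaussDensity 3 (TT ε k y)) =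
      ENNReal.ofReal (C3 * Real.exp (-(k ^ 2 / 6))) *
      (ENNReal.ofReal (Real.exp (-((y 0) ^ 2 / 2))) *
        ENNReal.ofReal (Real.exp (-((y 1) ^ 2 / 2)))) := by
    intro y
    rw [← ENNReal.ofReal_mul (Real.exp_pos _).le,
      ← ENNReal.ofReal_mul (by have := C3_pos; positivity)]
    congr 1
    unfold gaussDensity
    rw [TT_normsq ε hε, ← Real.exp_add, mul_assoc, ← Real.exp_add]
    unfold C3
    congr 2
    ring
  simp_rw [h]
  rw [lintegral_const_mul _ (by fun_prop),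
    lintegral_E2 (fun t => ENNReal.ofReal (Real.exp (-(t ^ 2 / 2))))
      (fun t => ENNReal.ofReal (Real.exp (-(t ^ 2 / 2)))) (by fun_prop) (by fun_prop),
    lintegral_gauss1, ← ENNReal.ofReal_mul (by positivity),
    ← ENNReal.ofReal_mul (by have := C3_pos; positivity)]
  apply ENNReal.ofReal_le_ofReal
  apply le_of_eq
  unfold c0 alphaK
  have e : √(3 / 2) * √(Real.pi / (3 / 4)) = √(2 * Real.pi) := by
    rw [← Real.sqrt_mul (by norm_num)]
    congr 1
    ring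
  calc C3 * Real.exp (-(k ^ 2 / 6)) * (√(2 * Real.pi) * √(2 * Real.pi))
      = C3 * √(2 * Real.pi) * (Real.exp (-(k ^ 2 / 6)) * √(2 * Real.pi)) := by ring
    _ = C3 * √(2 * Real.pi) * (Real.exp (-(k ^ 2 / 6)) * (√(3 / 2) * √(Real.pi / (3 / 4)))) := by
        rw [e]
    _ = _ := by ring

lemma halfSpace_area_eq (ε : Fin 3 → ℝ) (hε : ∀ i, ε i = 1 ∨ ε i = -1) :
    gaussianSurfaceArea (halfSpace ε) = ∑' k : ℤ, ENNReal.ofReal (c0 * alphaK k) := by
  apply le_antisymm _ (halfSpace_area ε hε)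
  unfold gaussianSurfaceArea
  rw [halfSpace_frontier ε hε]
  have hU : {x : E 3 | ∃ k : ℤ, ∑ i, ε i * x i = k} =
      ⋃ k : ℤ, {x : E 3 | ∑ i, ε i * x i = k} := by
    ext x; simp
  rw [hU]
  refine (lintegral_iUnion_le _ _).trans ?_
  exact ENNReal.tsum_le_tsum fun k => (plane_area_eq ε hε k).le

lemma halfSpace_area_lt_top (ε : Fin 3 → ℝ) (hε : ∀ i, ε i = 1 ∨ ε i = -1) :
    gaussianSurfaceArea (halfSpace ε) < ∞ := by
  rw [halfSpace_area_eq ε hε]
  have hc0 := c0_pos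
  have sα : Summable fun k : ℤ => alphaK k := by
    have := (summable_exp_sq (1 / 6) (by norm_num)).mul_right √(Real.pi / (3 / 4))
    refine this.congr fun k => ?_
    unfold alphaK
    congr 2
    ring
  have hαnn : ∀ k : ℤ, 0 ≤ alphaK k := fun k => by unfold alphaK; positivity
  rw [← ENNReal.ofReal_tsum_of_nonneg (fun k : ℤ => mul_nonneg hc0.le (hαnn k)) (sα.mul_left c0)]
  exact ENNReal.ofReal_lt_top

end Pool.Agent.H655R3.Per
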