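import Pool.Agent.H655R3.PerNum

/-!
# One dimensional Gaussian integrals
-/

set_option autoImplicit false

open MeasureTheory Set Filter Topology

namespace Pool.Agent.H655R3.Per

lemma exp_le_quad (u : ℝ) : Real.exp u ≤ 1 + u + u ^ 2 * Real.exp |u| := by
  rcases le_or_gt |u| 1 with h | h
  · have h1 := Real.abs_exp_sub_one_sub_id_le h
    have h2 : Real.exp u - 1 - u ≤ u ^ 2 := le_trans (le_abs_self _) h1
    have h3 : (1 : ℝ) ≤ Real.exp |u| := Real.one_le_exp (abs_nonneg u)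
    nlinarith [sq_nonneg u]
  · have h3 : (1 : ℝ) ≤ Real.exp |u| := Real.one_le_exp (abs_nonneg u)
    rcases le_or_gt 0 u with hu | hu
    · rw [abs_of_nonneg hu] at h ⊢
      have : 1 ≤ u ^ 2 := by nlinarith
      nlinarith [Real.exp_pos u]
    · rw [abs_of_neg hu] at h
      have h4 : Real.exp u ≤ 1 := by
        rw [← Real.exp_zero]; exact Real.exp_le_exp.2 hu.le
      have : -u ≤ u ^ 2 := by nlinarith
      have : u ^ 2 ≤ u ^ 2 * Real.exp |u| := by nlinarith [sq_nonneg u]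
      linarith

/-- the Gaussian weight -/
noncomputable def E0 (k a : ℝ) : ℝ := Real.exp (-(a ^ 2 / 2) - (k - a) ^ 2 / 4)

/-- the integrand for the perturbed surface -/
noncomputable def LL (k η a : ℝ) : ℝ :=
  Real.exp (-(a ^ 2 + (k - (a + η * Real.sin (2 * Real.pi * a))) ^ 2 / 2) / 2) *
    (1 + η / 3 * (2 * Real.pi * Real.cos (2 * Real.pi * a)) + 10 * η ^ 2)

/-- its upper bound -/
noncomputable def RR (k η a : ℝ) : ℝ :=
  E0 k a * (1 + η * ((k - a) * Real.sin (2 * Real.pi * a) / 2 +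
    2 * Real.pi * Real.cos (2 * Real.pi * a) / 3)) +
    η ^ 2 * (20 * Real.exp (2 - 3 * a ^ 2 / 8 - k ^ 2 / 16))

lemma LL_le_RR (k η a : ℝ) (hη : |η| ≤ 1 / 10) : LL k η a ≤ RR k η a := by
  unfold LL RR
  set g := Real.sin (2 * Real.pi * a) with hg
  set c := Real.cos (2 * Real.pi * a) with hc
  have hg1 : |g| ≤ 1 := Real.abs_sin_le_one _
  have hc1 : |c| ≤ 1 := Real.abs_cos_le_one _
  have hpi : Real.pi < 3.15 := Real.pi_lt_d2
  have hpi0 : 0 < Real.pi := Real.pi_pos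
  set u := η * ((k - a) * g / 2) with hu
  set r := |k - a| / 2 with hr
  have hr0 : 0 ≤ r := by positivity
  have hvr : |(k - a) * g / 2| ≤ r := by
    rw [abs_div, abs_mul, hr]
    have : |k - a| * |g| ≤ |k - a| * 1 := by gcongr
    rw [abs_two]
    linarith
  have hur : |u| ≤ |η| * r := by
    rw [hu, abs_mul]; gcongr
  have hη0 := abs_nonneg η
  have hur' : |u| ≤ r := by nlinarith
  -- first factor
  have hexp : Real.exp (-(a ^ 2 + (k - (a + η * g)) ^ 2 / 2) / 2) ≤ E0 k a * Real.exp u := by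
    unfold E0
    rw [← Real.exp_add]
    apply Real.exp_le_exp.2
    rw [hu]
    nlinarith [sq_nonneg (η * g)]
  have hq := exp_le_quad u
  have hE0 : 0 < E0 k a := Real.exp_pos _
  set x := η / 3 * (2 * Real.pi * c) + 10 * η ^ 2 with hx
  have hη2 : η ^ 2 = |η| ^ 2 := (sq_abs η).symm
  have hxb : |x| ≤ 4 * |η| := by
    rw [hx]
    calc |η / 3 * (2 * Real.pi * c) + 10 * η ^ 2|
        ≤ |η / 3 * (2 * Real.pi * c)| + |10 * η ^ 2| := abs_add_le _ _
      _ = |η| / 3 * (2 * Real.pi * |c|) + 10 * |η| ^ 2 := by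
        rw [abs_mul, abs_mul, abs_mul, abs_div, abs_of_pos hpi0, abs_two, abs_mul, abs_pow]
        norm_num
      _ ≤ |η| / 3 * (2 * Real.pi * 1) + 10 * |η| ^ 2 := by gcongr
      _ ≤ 4 * |η| := by nlinarith
  have hx1 : 0 ≤ 1 + x := by
    have := neg_abs_le x
    nlinarith
  have hx2 : 1 + x ≤ 1.4 := by
    have := le_abs_self x
    nlinarith
  have hER : (1 : ℝ) ≤ Real.exp r := Real.one_le_exp hr0
  have hrE : r ≤ Real.exp r := by
    have := Real.add_one_le_exp r
    linarith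
  have hr2E : r ^ 2 ≤ 2 * Real.exp r := by
    have := Real.quadratic_le_exp_of_nonneg hr0
    nlinarith
  have heu : Real.exp |u| ≤ Real.exp r := Real.exp_le_exp.2 hur'
  have hee : Real.exp |k - a| = Real.exp r * Real.exp r := by
    rw [← Real.exp_add]; congr 1; rw [hr]; ring
  -- the product
  have hprod : Real.exp u * (1 + x) ≤
      1 + η * ((k - a) * g / 2 + 2 * Real.pi * c / 3) + η ^ 2 * (20 * Real.exp |k - a|) := by
    have h1 : Real.exp u * (1 + x) ≤ (1 + u + u ^ 2 * Real.exp |u|) * (1 + x) := by gcongr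
    have h2 : u * x ≤ η ^ 2 * (4 * r) := by
      calc u * x ≤ |u * x| := le_abs_self _
        _ = |u| * |x| := abs_mul _ _
        _ ≤ (|η| * r) * (4 * |η|) := by gcongr
        _ = _ := by rw [hη2]; ring
    have h3 : u ^ 2 * Real.exp |u| * (1 + x) ≤ η ^ 2 * (r ^ 2 * Real.exp r * 1.4) := by
      have : u ^ 2 ≤ η ^ 2 * r ^ 2 := by
        rw [← sq_abs u, hη2, ← mul_pow]
        gcongr
      calc u ^ 2 * Real.exp |u| * (1 + x) ≤ (η ^ 2 * r ^ 2) * Real.exp r * 1.4 := by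
            gcongr
        _ = _ := by ring
    have h4 : (1 + u + u ^ 2 * Real.exp |u|) * (1 + x) =
        1 + η * ((k - a) * g / 2 + 2 * Real.pi * c / 3) + 10 * η ^ 2 + u * x +
          u ^ 2 * Real.exp |u| * (1 + x) := by
      rw [hx, hu]; ring
    have h5 : 10 + 4 * r + r ^ 2 * Real.exp r * 1.4 ≤ 20 * Real.exp |k - a| := by
      rw [hee]
      have e1 : r ^ 2 * Real.exp r ≤ 2 * (Real.exp r * Real.exp r) := by
        have := mul_le_mul_of_nonneg_right hr2E (Real.exp_pos r).le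
        linarith
      have e0 : Real.exp r ≤ Real.exp r * Real.exp r :=
        le_mul_of_one_le_left (Real.exp_pos r).le hER
      have e2 : r ≤ Real.exp r * Real.exp r := hrE.trans e0
      have e3 : 1 ≤ Real.exp r * Real.exp r := hER.trans e0
      linarith
    have h6 : 0 ≤ η ^ 2 := sq_nonneg η
    have h7 := mul_le_mul_of_nonneg_left h5 h6
    linarith
  have hE2 : E0 k a * Real.exp |k - a| ≤ Real.exp (2 - 3 * a ^ 2 / 8 - k ^ 2 / 16) := by
    unfold E0
    rw [← Real.exp_add]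
    apply Real.exp_le_exp.2
    have h1 : |k - a| ^ 2 = (k - a) ^ 2 := sq_abs _
    have e1 : 0 ≤ (|k - a| - 4) ^ 2 := sq_nonneg _
    have e2 : 0 ≤ (k - 2 * a) ^ 2 := sq_nonneg _
    have e3 : (|k - a| - 4) ^ 2 = (k - a) ^ 2 - 8 * |k - a| + 16 := by rw [← h1]; ring
    rw [e3] at e1
    linarith
  calc Real.exp (-(a ^ 2 + (k - (a + η * g)) ^ 2 / 2) / 2) *
        (1 + η / 3 * (2 * Real.pi * c) + 10 * η ^ 2)
      = Real.exp (-(a ^ 2 + (k - (a + η * g)) ^ 2 / 2) / 2) * (1 + x) := by rw [hx]; ring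
    _ ≤ (E0 k a * Real.exp u) * (1 + x) := by gcongr
    _ = E0 k a * (Real.exp u * (1 + x)) := by ring
    _ ≤ E0 k a * (1 + η * ((k - a) * g / 2 + 2 * Real.pi * c / 3) +
        η ^ 2 * (20 * Real.exp |k - a|)) := by gcongr
    _ = E0 k a * (1 + η * ((k - a) * g / 2 + 2 * Real.pi * c / 3)) +
        η ^ 2 * (20 * (E0 k a * Real.exp |k - a|)) := by ring
    _ ≤ _ := by gcongr

lemma LL_nonneg (k η a : ℝ) (hη : |η| ≤ 1 / 10) : 0 ≤ LL k η a := by
  unfold LL
  have hc1 : |Real.cos (2 * Real.pi * a)| ≤ 1 := Real.abs_cos_le_one _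
  have hpi : Real.pi < 3.15 := Real.pi_lt_d2
  have hpi0 : 0 < Real.pi := Real.pi_pos
  have h : |η / 3 * (2 * Real.pi * Real.cos (2 * Real.pi * a))| ≤ 1 := by
    rw [abs_mul, abs_mul, abs_mul, abs_div, abs_of_pos hpi0, abs_two]
    calc |η| / |3| * (2 * Real.pi * |Real.cos (2 * Real.pi * a)|)
        ≤ (1 / 10) / 3 * (2 * 3.15 * 1) := by
          rw [abs_of_pos (by norm_num : (0 : ℝ) < 3)]
          gcongr
      _ ≤ 1 := by norm_num
  have := neg_abs_le (η / 3 * (2 * Real.pi * Real.cos (2 * Real.pi * a)))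
  have : 0 ≤ 1 + η / 3 * (2 * Real.pi * Real.cos (2 * Real.pi * a)) + 10 * η ^ 2 := by
    nlinarith [sq_nonneg η]
  positivity

end Pool.Agent.H655R3.Per
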