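import Pool.Agent.H655R3.PerInt

/-!
# One dimensional Gaussian integrals, part 2
-/

set_option autoImplicit false

open MeasureTheory Set Filter Topology

namespace Pool.Agent.H655R3.Per

/-- the Gaussian `exp(-3x²/4)` -/
noncomputable def ga (x : ℝ) : ℝ := Real.exp (-(3 / 4) * x ^ 2)

lemma ga_integrable : Integrable ga := integrable_exp_neg_mul_sq (by norm_num)

lemma xga_integrable : Integrable fun x => x * ga x := integrable_mul_exp_neg_mul_sq (by norm_num)

lemma ga_cont : Continuous ga := by unfold ga; fun_prop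

lemma ga_mul_int (f : ℝ → ℝ) (hf : Continuous f) (C : ℝ) (hb : ∀ x, |f x| ≤ C) :
    Integrable fun x => ga x * f x :=
  (ga_integrable.bdd_mul (c := C) hf.aestronglyMeasurable
    (Eventually.of_forall fun x => by rw [Real.norm_eq_abs]; exact hb x)).congr
    (Eventually.of_forall fun x => mul_comm _ _)

lemma xga_mul_int (f : ℝ → ℝ) (hf : Continuous f) (C : ℝ) (hb : ∀ x, |f x| ≤ C) :
    Integrable fun x => ga x * (x * f x) :=
  (xga_integrable.bdd_mul (c := C) hf.aestronglyMeasurable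
    (Eventually.of_forall fun x => by rw [Real.norm_eq_abs]; exact hb x)).congr
    (Eventually.of_forall fun x => by ring)

/-- `∫ exp(-3x²/4) cos(2πx) dx` -/
noncomputable def GG : ℝ := ∫ x, ga x * Real.cos (2 * Real.pi * x)

lemma GG_pos : 0 < GG := by
  have h := fourierIntegral_gaussian (b := (3 / 4 : ℂ)) (by norm_num) ((2 * Real.pi : ℝ) : ℂ)
  have hint : Integrable fun x : ℝ => Complex.exp (Complex.I * ((2 * Real.pi : ℝ) : ℂ) * x) *
      Complex.exp (-(3 / 4 : ℂ) * (x : ℂ) ^ 2) := by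
    have h1 : Integrable fun x : ℝ => Complex.exp (-(3 / 4 : ℂ) * (x : ℂ) ^ 2) :=
      integrable_cexp_neg_mul_sq (by norm_num)
    refine h1.bdd_mul (c := 1) (by fun_prop) (Eventually.of_forall fun x => ?_)
    rw [Complex.norm_exp]
    simp
  have hre : GG = (∫ x : ℝ, Complex.exp (Complex.I * ((2 * Real.pi : ℝ) : ℂ) * x) *
      Complex.exp (-(3 / 4 : ℂ) * (x : ℂ) ^ 2)).re := by
    have h2 := (Complex.reCLM.integral_comp_comm hint)
    simp only [Complex.reCLM_apply] at h2
    rw [← h2]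
    unfold GG ga
    refine integral_congr_ae (Eventually.of_forall fun x => ?_)
    have e1 : Complex.exp (-(3 / 4 : ℂ) * (x : ℂ) ^ 2) =
        ((Real.exp (-(3 / 4) * x ^ 2) : ℝ) : ℂ) := by
      push_cast; ring_nf
    have e2 : Complex.I * ((2 * Real.pi : ℝ) : ℂ) * (x : ℂ) = ((2 * Real.pi * x : ℝ) : ℂ) * Complex.I := by
      push_cast; ring
    simp only []
    rw [e1, e2, Complex.re_mul_ofReal, Complex.exp_ofReal_mul_I_re]
    ring
  rw [hre, h]
  have e3 : ((Real.pi : ℂ) / (3 / 4 : ℂ)) ^ (1 / 2 : ℂ) =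
      (((Real.pi / (3 / 4)) ^ (1 / 2 : ℝ) : ℝ) : ℂ) := by
    rw [Complex.ofReal_cpow (by positivity)]
    push_cast
    rfl
  have e4 : Complex.exp (-((2 * Real.pi : ℝ) : ℂ) ^ 2 / (4 * (3 / 4 : ℂ))) =
      ((Real.exp (-(2 * Real.pi) ^ 2 / (4 * (3 / 4))) : ℝ) : ℂ) := by
    push_cast
    ring_nf
  rw [e3, e4, ← Complex.ofReal_mul, Complex.ofReal_re]
  positivity

lemma ga_sin_zero : ∫ x, ga x * Real.sin (2 * Real.pi * x) = 0 := by
  have h := integral_neg_eq_self (fun x => ga x * Real.sin (2 * Real.pi * x)) volume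
  have h2 : ∀ x : ℝ, ga (-x) * Real.sin (2 * Real.pi * -x) =
      -(ga x * Real.sin (2 * Real.pi * x)) := by
    intro x
    unfold ga
    rw [show (2 * Real.pi * -x) = -(2 * Real.pi * x) by ring, Real.sin_neg]
    ring_nf
  simp only [h2] at h
  rw [integral_neg] at h
  linarith

lemma ga_sin_shift (φ : ℝ) :
    ∫ x, ga x * Real.sin (2 * Real.pi * x + φ) = Real.sin φ * GG := by
  have h : ∀ x, ga x * Real.sin (2 * Real.pi * x + φ) =
      Real.cos φ * (ga x * Real.sin (2 * Real.pi * x)) +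
        Real.sin φ * (ga x * Real.cos (2 * Real.pi * x)) := by
    intro x
    rw [Real.sin_add]
    ring
  simp_rw [h]
  rw [integral_add, integral_const_mul, integral_const_mul, ga_sin_zero, mul_zero, zero_add]
  · rfl
  · exact (ga_mul_int _ (by fun_prop) 1 fun x => Real.abs_sin_le_one _).const_mul _
  · exact (ga_mul_int _ (by fun_prop) 1 fun x => Real.abs_cos_le_one _).const_mul _

lemma ga_ibp (φ : ℝ) :
    ∫ x, ga x * (2 * Real.pi * Real.cos (2 * Real.pi * x + φ)) =
      (3 / 2) * ∫ x, ga x * (x * Real.sin (2 * Real.pi * x + φ)) := by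
  have hd : ∀ x, HasDerivAt (fun x => ga x * Real.sin (2 * Real.pi * x + φ))
      (ga x * (2 * Real.pi * Real.cos (2 * Real.pi * x + φ)) -
        (3 / 2) * (ga x * (x * Real.sin (2 * Real.pi * x + φ)))) x := by
    intro x
    have h1 : HasDerivAt ga (ga x * (-(3 / 4) * (2 * x))) x := by
      unfold ga
      have : HasDerivAt (fun y : ℝ => -(3 / 4) * y ^ 2) (-(3 / 4) * (2 * x)) x := by
        simpa using (hasDerivAt_pow 2 x).const_mul (-(3 / 4) : ℝ)
      exact this.exp
    have h2 : HasDerivAt (fun y => Real.sin (2 * Real.pi * y + φ))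
        (Real.cos (2 * Real.pi * x + φ) * (2 * Real.pi)) x := by
      have : HasDerivAt (fun y : ℝ => 2 * Real.pi * y + φ) (2 * Real.pi) x := by
        simpa using ((hasDerivAt_id x).const_mul (2 * Real.pi)).add_const φ
      exact this.sin
    have h3 := (h1.mul h2)
    refine HasDerivAt.congr_deriv h3 ?_
    ring
  have i1 : Integrable fun x => ga x * (2 * Real.pi * Real.cos (2 * Real.pi * x + φ)) := by
    refine ga_mul_int _ (by fun_prop) (2 * Real.pi) fun x => ?_
    rw [abs_mul, abs_of_pos (by positivity : (0 : ℝ) < 2 * Real.pi)]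
    have := Real.abs_cos_le_one (2 * Real.pi * x + φ)
    have hp := Real.pi_pos
    nlinarith
  have i2 : Integrable fun x => ga x * (x * Real.sin (2 * Real.pi * x + φ)) :=
    xga_mul_int _ (by fun_prop) 1 fun x => Real.abs_sin_le_one _
  have i3 : Integrable fun x => ga x * Real.sin (2 * Real.pi * x + φ) :=
    ga_mul_int _ (by fun_prop) 1 fun x => Real.abs_sin_le_one _
  have h0 := integral_eq_zero_of_hasDerivAt_of_integrable hd (i1.sub (i2.const_mul _)) i3
  rw [integral_sub i1 (i2.const_mul _), integral_const_mul] at h0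
  linarith

/-- the main part -/
noncomputable def RM (k η a : ℝ) : ℝ :=
  E0 k a * (1 + η * ((k - a) * Real.sin (2 * Real.pi * a) / 2 +
    2 * Real.pi * Real.cos (2 * Real.pi * a) / 3))

lemma RM_shift (k η x : ℝ) : RM k η (x + k / 3) = Real.exp (-(k ^ 2 / 6)) *
    (ga x * 1 + η * ((k / 3) * (ga x * Real.sin (2 * Real.pi * x + 2 * Real.pi * k / 3)) -
      (1 / 2) * (ga x * (x * Real.sin (2 * Real.pi * x + 2 * Real.pi * k / 3))) +
      (1 / 3) * (ga x * (2 * Real.pi * Real.cos (2 * Real.pi * x + 2 * Real.pi * k / 3))))) := by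
  unfold RM E0 ga
  have h1 : Real.exp (-((x + k / 3) ^ 2 / 2) - (k - (x + k / 3)) ^ 2 / 4) =
      Real.exp (-(k ^ 2 / 6)) * Real.exp (-(3 / 4) * x ^ 2) := by
    rw [← Real.exp_add]; congr 1; ring
  rw [h1, show 2 * Real.pi * (x + k / 3) = 2 * Real.pi * x + 2 * Real.pi * k / 3 by ring]
  ring

lemma RM_integral (k η : ℝ) : Integrable (RM k η) ∧ ∫ a, RM k η a =
    Real.exp (-(k ^ 2 / 6)) * (√(Real.pi / (3 / 4)) +
      η * ((k / 3) * (Real.sin (2 * Real.pi * k / 3) * GG))) := by
  set φ := 2 * Real.pi * k / 3 with hφ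
  have i1 : Integrable fun x => ga x * (2 * Real.pi * Real.cos (2 * Real.pi * x + φ)) := by
    refine ga_mul_int _ (by fun_prop) (2 * Real.pi) fun x => ?_
    rw [abs_mul, abs_of_pos (by positivity : (0 : ℝ) < 2 * Real.pi)]
    have := Real.abs_cos_le_one (2 * Real.pi * x + φ)
    have hp := Real.pi_pos
    nlinarith
  have i2 : Integrable fun x => ga x * (x * Real.sin (2 * Real.pi * x + φ)) :=
    xga_mul_int _ (by fun_prop) 1 fun x => Real.abs_sin_le_one _
  have i3 : Integrable fun x => ga x * Real.sin (2 * Real.pi * x + φ) :=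
    ga_mul_int _ (by fun_prop) 1 fun x => Real.abs_sin_le_one _
  have i0 : Integrable fun x => ga x * (1 : ℝ) := by simpa using ga_integrable
  have i4 : Integrable fun x => (k / 3) * (ga x * Real.sin (2 * Real.pi * x + φ)) -
      (1 / 2) * (ga x * (x * Real.sin (2 * Real.pi * x + φ))) +
      (1 / 3) * (ga x * (2 * Real.pi * Real.cos (2 * Real.pi * x + φ))) :=
    (((i3.const_mul (k / 3)).sub (i2.const_mul (1 / 2))).add (i1.const_mul (1 / 3)))
  have i5 := (i0.add (i4.const_mul η)).const_mul (Real.exp (-(k ^ 2 / 6)))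
  have hs : (fun x => RM k η (x + k / 3)) = fun x => Real.exp (-(k ^ 2 / 6)) *
    (ga x * 1 + η * ((k / 3) * (ga x * Real.sin (2 * Real.pi * x + φ)) -
      (1 / 2) * (ga x * (x * Real.sin (2 * Real.pi * x + φ))) +
      (1 / 3) * (ga x * (2 * Real.pi * Real.cos (2 * Real.pi * x + φ))))) := by
    funext x
    exact RM_shift k η x
  constructor
  · have h1 : Integrable (fun x => RM k η (x + k / 3)) := by
      rw [hs]; exact i5
    have h2 := h1.comp_sub_right (k / 3)
    refine h2.congr (Eventually.of_forall fun x => ?_)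
    simp
  · rw [← integral_add_right_eq_self (RM k η) (k / 3), hs, integral_const_mul]
    congr 1
    have hg : ∫ x, ga x * 1 = √(Real.pi / (3 / 4)) := by
      simp only [mul_one]
      exact integral_gaussian (3 / 4)
    rw [integral_add (f := fun x => ga x * 1) i0 (i4.const_mul η), integral_const_mul, hg]
    congr 2
    have e1 : ∫ x, ((k / 3) * (ga x * Real.sin (2 * Real.pi * x + φ)) -
      (1 / 2) * (ga x * (x * Real.sin (2 * Real.pi * x + φ))) +
      (1 / 3) * (ga x * (2 * Real.pi * Real.cos (2 * Real.pi * x + φ)))) =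
        (k / 3) * (∫ x, ga x * Real.sin (2 * Real.pi * x + φ)) -
        (1 / 2) * (∫ x, ga x * (x * Real.sin (2 * Real.pi * x + φ))) +
        (1 / 3) * ∫ x, ga x * (2 * Real.pi * Real.cos (2 * Real.pi * x + φ)) := by
      have i6 : Integrable fun x => (k / 3) * (ga x * Real.sin (2 * Real.pi * x + φ)) -
        (1 / 2) * (ga x * (x * Real.sin (2 * Real.pi * x + φ))) :=
        ((i3.const_mul (k / 3)).sub (i2.const_mul (1 / 2)))
      rw [integral_add i6 (i1.const_mul (1 / 3)),
        integral_sub (i3.const_mul (k / 3)) (i2.const_mul (1 / 2)), integral_const_mul,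
        integral_const_mul, integral_const_mul]
    rw [e1, ga_ibp, ga_sin_shift]
    ring

/-- the remainder -/
lemma RE_integral (k : ℝ) : Integrable (fun a : ℝ => Real.exp (2 - 3 * a ^ 2 / 8 - k ^ 2 / 16)) ∧
    ∫ a : ℝ, Real.exp (2 - 3 * a ^ 2 / 8 - k ^ 2 / 16) =
      Real.exp 2 * Real.exp (-((1 / 16) * k ^ 2)) * √(Real.pi / (3 / 8)) := by
  have h : (fun a : ℝ => Real.exp (2 - 3 * a ^ 2 / 8 - k ^ 2 / 16)) = fun a : ℝ =>
      Real.exp 2 * Real.exp (-((1 / 16) * k ^ 2)) * Real.exp (-(3 / 8) * a ^ 2) := by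
    funext a
    rw [← Real.exp_add, ← Real.exp_add]
    congr 1
    ring
  rw [h]
  refine ⟨(integrable_exp_neg_mul_sq (by norm_num)).const_mul _, ?_⟩
  rw [integral_const_mul, integral_gaussian]

/-- the constants -/
noncomputable def alphaK (k : ℝ) : ℝ := Real.exp (-(k ^ 2 / 6)) * √(Real.pi / (3 / 4))
noncomputable def MM : ℝ := 20 * (Real.exp 2 * √(Real.pi / (3 / 8)))

lemma RR_integral (k η : ℝ) : Integrable (RR k η) ∧ ∫ a, RR k η a =
    alphaK k + η * (GG / 3) * (k * Real.sin (2 * Real.pi * k / 3) * Real.exp (-(k ^ 2 / 6))) +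
      η ^ 2 * (MM * Real.exp (-((1 / 16) * k ^ 2))) := by
  obtain ⟨h1, h2⟩ := RM_integral k η
  obtain ⟨h3, h4⟩ := RE_integral k
  have hr : RR k η = fun a => RM k η a + η ^ 2 * (20 * Real.exp (2 - 3 * a ^ 2 / 8 - k ^ 2 / 16)) := by
    funext a
    rfl
  rw [hr]
  have h5 : Integrable fun a : ℝ => η ^ 2 * (20 * Real.exp (2 - 3 * a ^ 2 / 8 - k ^ 2 / 16)) :=
    (h3.const_mul 20).const_mul _
  refine ⟨h1.add h5, ?_⟩
  rw [integral_add h1 h5, integral_const_mul, integral_const_mul, h2, h4]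
  unfold alphaK MM
  ring

end Pool.Agent.H655R3.Per
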