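import Pool.Agent.H655R3.PerCurve

/-!
# The perturbed set has smaller Gaussian surface area
-/

set_option autoImplicit false

open MeasureTheory Set Filter Topology

open scoped ENNReal NNReal

namespace Pool.Agent.H655R3.Per

lemma rho_mono (η : ℝ) (hη : |η| ≤ 1 / 10) : Monotone (rho η) := by
  intro s t hst
  rw [← (tau_strictMono η hη).le_iff_le, tau_rho, tau_rho]
  exact hst

lemma sheet_area (k η : ℝ) (hη : |η| ≤ 1 / 10) :
    ∫⁻ x in {x : E 3 | uu η x = k}, ENNReal.ofReal (gaussDensity 3 x) ∂(surfaceMeasure 3) ≤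
      ENNReal.ofReal (c0 * ∫ a, RR k η a) := by
  have hC := C3_pos
  have hρ : Measurable (rho η) := (rho_mono η hη).measurable
  set F : ℝ → ℝ≥0∞ := fun s =>
    ENNReal.ofReal (C3 * Real.exp (-((rho η s) ^ 2 + (k - hh η (rho η s)) ^ 2 / 2) / 2)) with hF
  have hFm : Measurable F := by
    rw [hF]
    unfold hh
    fun_prop
  have h1 : ∀ y : E 2, ENNReal.ofReal (gaussDensity 3 (Phi k η y)) =
      F (y 0) * ENNReal.ofReal (Real.exp (-((y 1) ^ 2 / 2))) := by
    intro y
    rw [hF]
    simp only []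
    rw [← ENNReal.ofReal_mul (by positivity)]
    congr 1
    unfold gaussDensity C3
    rw [Phi_normsq, mul_assoc, ← Real.exp_add]
    congr 2
    ring
  have h2 : ∫⁻ s, F s ≤ ENNReal.ofReal (√(3 / 2) * C3 * ∫ a, RR k η a) := by
    have hcv := lintegral_image_eq_lintegral_abs_deriv_mul (s := univ) MeasurableSet.univ
      (fun x _ => (tau_deriv η x).hasDerivWithinAt)
      ((tau_strictMono η hη).injective.injOn) F
    rw [image_univ, (tau_surj η).range_eq, Measure.restrict_univ] at hcv
    rw [hcv]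
    have h3 : ∀ a, ENNReal.ofReal |dtau η a| * F (tau η a) =
        ENNReal.ofReal (√(3 / 2) * C3 * LL k η a) := by
      intro a
      rw [hF]
      simp only []
      rw [rho_tau η a hη, abs_of_pos (dtau_pos η a hη), ← ENNReal.ofReal_mul (dtau_pos η a hη).le]
      congr 1
      unfold dtau LL hh
      ring
    simp_rw [h3]
    obtain ⟨hi, -⟩ := RR_integral k η
    rw [← integral_const_mul, ofReal_integral_eq_lintegral_ofReal (hi.const_mul _)]
    · apply lintegral_mono
      intro a
      apply ENNReal.ofReal_le_ofReal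
      have := LL_le_RR k η a hη
      gcongr
    · refine Eventually.of_forall fun a => ?_
      have := (LL_nonneg k η a hη).trans (LL_le_RR k η a hη)
      simp only [Pi.zero_apply]
      positivity
  calc ∫⁻ x in {x : E 3 | uu η x = k}, ENNReal.ofReal (gaussDensity 3 x) ∂(surfaceMeasure 3)
      ≤ ∫⁻ x in range (Phi k η), ENNReal.ofReal (gaussDensity 3 x) ∂(surfaceMeasure 3) :=
        lintegral_mono_set (sheet_subset k η hη)
    _ ≤ ∫⁻ y, ENNReal.ofReal (gaussDensity 3 (Phi k η y)) :=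
        surf_lipschitz _ (Phi_lipschitz k η hη) _ gauss_meas
    _ = (∫⁻ s, F s) * ENNReal.ofReal √(2 * Real.pi) := by
        simp_rw [h1]
        rw [lintegral_E2 F (fun t => ENNReal.ofReal (Real.exp (-(t ^ 2 / 2)))) hFm (by fun_prop),
          lintegral_gauss1]
    _ ≤ ENNReal.ofReal (√(3 / 2) * C3 * ∫ a, RR k η a) * ENNReal.ofReal √(2 * Real.pi) := by
        gcongr
    _ = _ := by
        rw [← ENNReal.ofReal_mul' (by positivity)]
        congr 1
        unfold c0
        ring

lemma RRint_nonneg (k η : ℝ) (hη : |η| ≤ 1 / 10) : 0 ≤ ∫ a, RR k η a :=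
  integral_nonneg fun a => (LL_nonneg k η a hη).trans (LL_le_RR k η a hη)

/-- the perturbed set -/
def Om (η : ℝ) : Set (E 3) := {x | 0 ≤ Real.sin (Real.pi * uu η x)}

lemma uu_cont (η : ℝ) : Continuous (uu η) := by
  unfold uu hh
  fun_prop

lemma uu_dir (η : ℝ) (x : E 3) (t : ℝ) : uu η (x + t • v 2) = uu η x + t := by
  unfold uu v
  simp
  ring

lemma Om_frontier (η : ℝ) : frontier (Om η) = {x | ∃ k : ℤ, uu η x = k} :=
  frontier_eq (uu η) (uu_cont η) (v 2) (uu_dir η)

lemma Om_periodic (η : ℝ) : IsPeriodic (Om η) := by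
  refine isPeriodic_of (uu η) (uu_cont η) (v 2) (uu_dir η) ?_ ?_
  · intro x
    unfold uu hh
    have : 2 * Real.pi * (-x) 0 = -(2 * Real.pi * x 0) := by simp
    rw [this, Real.sin_neg]
    simp
    ring
  · intro x i
    left
    unfold uu hh v
    fin_cases i
    · have : 2 * Real.pi * (x - EuclideanSpace.single 0 1 : E 3) 0 =
          2 * Real.pi * x 0 - 2 * Real.pi := by
        simp; ring
      simp only [Fin.zero_eta]
      rw [this, Real.sin_sub_two_pi]
      simp
      ring
    · simp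
      ring
    · simp
      ring

lemma Om_smooth (η : ℝ) : IsSmoothHypersurface (frontier (Om η)) := by
  rw [Om_frontier]
  rintro p ⟨k, hk⟩
  refine ⟨2, {x | |uu η x - k| < 1}, fun x => k - hh η (x 0) - x 1, ?_, ?_, ?_, ?_, ?_⟩
  · have := uu_cont η
    exact isOpen_lt (by fun_prop) continuous_const
  · simp [hk]
  · unfold hh
    fun_prop
  · intro x y hxy
    simp only []
    rw [hxy 0 (by decide), hxy 1 (by decide)]
  · ext x
    simp only [mem_inter_iff, mem_ofPred_eq]
    constructor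
    · rintro ⟨⟨l, hl⟩, hx⟩
      refine ⟨hx, ?_⟩
      have : l = k := by
        rw [hl] at hx
        have h1 : |((l - k : ℤ) : ℝ)| < 1 := by push_cast; exact hx
        have h2 : |l - k| < 1 := by exact_mod_cast h1
        have := Int.abs_lt_one_iff.1 h2
        omega
      rw [this] at hl
      unfold uu at hl
      linarith
    · rintro ⟨hx, h⟩
      refine ⟨⟨k, ?_⟩, hx⟩
      unfold uu
      rw [h]
      ring

lemma Om_area (η : ℝ) (hη : |η| ≤ 1 / 10) :
    gaussianSurfaceArea (Om η) ≤ ∑' k : ℤ, ENNReal.ofReal (c0 * ∫ a, RR k η a) := by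
  unfold gaussianSurfaceArea
  rw [Om_frontier]
  have hU : {x : E 3 | ∃ k : ℤ, uu η x = k} = ⋃ k : ℤ, {x : E 3 | uu η x = k} := by
    ext x; simp
  rw [hU]
  refine (lintegral_iUnion_le _ _).trans ?_
  exact ENNReal.tsum_le_tsum fun k => sheet_area k η hη

lemma exists_eta : ∃ η : ℝ, |η| ≤ 1 / 10 ∧
    ∑' k : ℤ, ENNReal.ofReal (c0 * ∫ a, RR k η a) < ∑' k : ℤ, ENNReal.ofReal (c0 * alphaK k) := by
  have hc0 := c0_pos
  -- summability
  have sα : Summable fun k : ℤ => alphaK k := by
    have := (summable_exp_sq (1 / 6) (by norm_num)).mul_right √(Real.pi / (3 / 4))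
    refine this.congr fun k => ?_
    unfold alphaK
    congr 2
    ring
  have sβ := summable_sTerm
  have sγ := (summable_exp_sq (1 / 16) (by norm_num)).mul_left MM
  set A := ∑' k : ℤ, alphaK k with hA
  set S := ∑' k : ℤ, sTerm k with hS
  set M := ∑' k : ℤ, MM * Real.exp (-((1 / 16) * (k : ℝ) ^ 2)) with hM
  have hSpos : 0 < S := tsum_sTerm_pos
  have hG := GG_pos
  have hMnn : 0 ≤ M := tsum_nonneg fun k => by unfold MM; positivity
  have hαnn : ∀ k : ℤ, 0 ≤ alphaK k := fun k => by unfold alphaK; positivity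
  have hval : ∀ (η : ℝ) (k : ℤ), ∫ a, RR k η a = alphaK k + η * (GG / 3) * sTerm k +
      η ^ 2 * (MM * Real.exp (-((1 / 16) * (k : ℝ) ^ 2))) := fun η k => (RR_integral k η).2
  have hsum : ∀ η : ℝ, Summable fun k : ℤ => ∫ a, RR k η a := by
    intro η
    simp_rw [hval]
    exact (sα.add (sβ.mul_left _)).add (sγ.mul_left _)
  have htsum : ∀ η : ℝ, ∑' k : ℤ, ∫ a, RR k η a = A + η * (GG / 3) * S + η ^ 2 * M := by
    intro η
    simp_rw [hval]
    rw [(sα.add (sβ.mul_left _)).tsum_add (sγ.mul_left _), sα.tsum_add (sβ.mul_left _),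
      tsum_mul_left, tsum_mul_left]
  have hA0 : 0 < A := by
    refine sα.tsum_pos hαnn 0 ?_
    unfold alphaK; positivity
  set L := (GG / 3) * S with hL
  have hLpos : 0 < L := by positivity
  set t := min (1 / 10) (L / (2 * (M + 1))) with ht
  have ht0 : 0 < t := by positivity
  have ht1 : t ≤ 1 / 10 := min_le_left _ _
  have ht2 : t ≤ L / (2 * (M + 1)) := min_le_right _ _
  refine ⟨-t, by rw [abs_neg, abs_of_pos ht0]; exact ht1, ?_⟩
  have hη : |(-t)| ≤ 1 / 10 := by rw [abs_neg, abs_of_pos ht0]; exact ht1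
  rw [← ENNReal.ofReal_tsum_of_nonneg
    (fun k : ℤ => mul_nonneg hc0.le (RRint_nonneg (k : ℝ) (-t) hη)) ((hsum (-t)).mul_left c0),
    ← ENNReal.ofReal_tsum_of_nonneg (fun k : ℤ => mul_nonneg hc0.le (hαnn k))
    (sα.mul_left c0), tsum_mul_left, tsum_mul_left, htsum]
  apply (ENNReal.ofReal_lt_ofReal_iff (by positivity)).2
  apply mul_lt_mul_of_pos_left _ hc0
  have h1 : t * (2 * (M + 1)) ≤ L := by
    rw [le_div_iff₀ (by positivity)] at ht2
    exact ht2
  have h2 : t ^ 2 * M < t * L := by nlinarith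
  have h3 : -t * (GG / 3) * S = - (t * L) := by rw [hL]; ring
  rw [h3]
  have h4 : (-t) ^ 2 * M = t ^ 2 * M := by ring
  rw [h4]
  linarith

end Pool.Agent.H655R3.Per
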