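import Pool.Agent.H655R3.PerDefs

/-!
# Surface measure: isometric and 1-Lipschitz parametrisations
-/

set_option autoImplicit false

open MeasureTheory Set Filter Topology

open scoped ENNReal NNReal

namespace Pool.Agent.H655R3.Per

/-- `∫ f(y₀) g(y₁) dy = (∫ f) (∫ g)` on the Euclidean plane. -/
lemma lintegral_E2 (f g : ℝ → ℝ≥0∞) (hf : Measurable f) (hg : Measurable g) :
    ∫⁻ y : E 2, f (y 0) * g (y 1) = (∫⁻ s, f s) * ∫⁻ t, g t := by
  have h1 : ∫⁻ y : E 2, f (y 0) * g (y 1) = ∫⁻ z : Fin 2 → ℝ, f (z 0) * g (z 1) :=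
    (PiLp.volume_preserving_ofLp (Fin 2)).lintegral_comp
      (f := fun z : Fin 2 → ℝ => f (z 0) * g (z 1))
      ((hf.comp (measurable_pi_apply 0)).mul (hg.comp (measurable_pi_apply 1)))
  have h2 : ∫⁻ z : Fin 2 → ℝ, f (z 0) * g (z 1) = ∫⁻ p : ℝ × ℝ, f p.1 * g p.2 :=
    (volume_preserving_finTwoArrow ℝ).lintegral_comp
      (f := fun p : ℝ × ℝ => f p.1 * g p.2)
      ((hf.comp measurable_fst).mul (hg.comp measurable_snd))
  rw [h1, h2]
  exact lintegral_prod_mul hf.aemeasurable hg.aemeasurable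

lemma volume_unitCube (m : ℕ) : (volume : Measure (E m)) (unitCube m) = 1 := by
  have h1 : unitCube m = (fun y : E m => (WithLp.ofLp y : Fin m → ℝ)) ⁻¹' (Icc 0 1) := by
    ext y
    simp only [unitCube, mem_ofPred_eq, mem_preimage, mem_Icc, Pi.le_def, Pi.zero_apply,
      Pi.one_apply]
    constructor
    · intro h
      exact ⟨fun i => (h i).1, fun i => (h i).2⟩
    · rintro ⟨h1, h2⟩ i
      exact ⟨h1 i, h2 i⟩
  rw [h1, (PiLp.volume_preserving_ofLp (Fin m)).measure_preimage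
    (measurableSet_Icc.nullMeasurableSet), Real.volume_Icc_pi]
  simp

lemma hausdorff_E2 : ∃ κ : ℝ≥0∞, κ ≠ 0 ∧ κ ≠ ∞ ∧
    (μH[((3 - 1 : ℕ) : ℝ)] : Measure (E 2)) = κ • volume ∧
    (μH[((3 - 1 : ℕ) : ℝ)] : Measure (E (3 - 1))) (unitCube (3 - 1)) = κ := by
  have h2 : (((3 - 1 : ℕ) : ℝ)) = (Module.finrank ℝ (E 2) : ℝ) := by simp
  have hH : (μH[((3 - 1 : ℕ) : ℝ)] : Measure (E 2)).IsAddHaarMeasure := by
    rw [h2]
    infer_instance
  have hκ := Measure.isAddLeftInvariant_eq_smul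
    (μH[((3 - 1 : ℕ) : ℝ)] : Measure (E 2)) volume
  have hpos := Measure.addHaarScalarFactor_pos_of_isAddHaarMeasure
    (μH[((3 - 1 : ℕ) : ℝ)] : Measure (E 2)) volume
  set κ : ℝ≥0 := Measure.addHaarScalarFactor
    (μH[((3 - 1 : ℕ) : ℝ)] : Measure (E 2)) volume with hκdef
  refine ⟨(κ : ℝ≥0∞), by simpa using hpos.ne', ENNReal.coe_ne_top, ?_, ?_⟩
  · rw [hκ]
    rfl
  · change (μH[((3 - 1 : ℕ) : ℝ)] : Measure (E 2)) (unitCube 2) = κ
    rw [hκ, Measure.smul_apply, volume_unitCube]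
    simp [ENNReal.smul_def]

/-- The surface measure of a parametrised isometric plane. -/
lemma surf_isometry (T : E 2 → E 3) (hT : Isometry T) (G : E 3 → ℝ≥0∞) (hG : Measurable G) :
    ∫⁻ x in range T, G x ∂(surfaceMeasure 3) = ∫⁻ y, G (T y) := by
  obtain ⟨κ, h0, htop, hκ, hc⟩ := hausdorff_E2
  unfold surfaceMeasure
  rw [hc, Measure.restrict_smul, lintegral_smul_measure,
    ← hT.map_hausdorffMeasure (Or.inl (by positivity)), hκ,
    lintegral_map hG hT.continuous.measurable, lintegral_smul_measure, smul_eq_mul, smul_eq_mul,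
    ← mul_assoc, ENNReal.inv_mul_cancel h0 htop, one_mul]

/-- The surface measure of the image of a 1-Lipschitz parametrisation. -/
lemma surf_lipschitz (f : E 2 → E 3) (hf : LipschitzWith 1 f) (G : E 3 → ℝ≥0∞)
    (hG : Measurable G) :
    ∫⁻ x in range f, G x ∂(surfaceMeasure 3) ≤ ∫⁻ y, G (f y) := by
  obtain ⟨κ, h0, htop, hκ, hc⟩ := hausdorff_E2
  have hle : (μH[((3 - 1 : ℕ) : ℝ)] : Measure (E 3)).restrict (range f) ≤
      (μH[((3 - 1 : ℕ) : ℝ)] : Measure (E 2)).map f := by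
    rw [Measure.le_iff]
    intro A hA
    rw [Measure.restrict_apply hA, Measure.map_apply hf.continuous.measurable hA]
    have : A ∩ range f = f '' (f ⁻¹' A) := by
      rw [image_preimage_eq_inter_range]
    rw [this]
    calc _ ≤ ((1 : ℝ≥0) : ℝ≥0∞) ^ (((3 - 1 : ℕ) : ℝ)) *
          (μH[((3 - 1 : ℕ) : ℝ)] : Measure (E 2)) (f ⁻¹' A) :=
            hf.hausdorffMeasure_image_le (by positivity) _
      _ = _ := by simp
  unfold surfaceMeasure
  rw [hc, Measure.restrict_smul, lintegral_smul_measure]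
  calc κ⁻¹ • ∫⁻ x in range f, G x ∂(μH[((3 - 1 : ℕ) : ℝ)] : Measure (E 3))
      ≤ κ⁻¹ • ∫⁻ x, G x ∂((μH[((3 - 1 : ℕ) : ℝ)] : Measure (E 2)).map f) := by
        simp only [smul_eq_mul]
        gcongr
    _ = ∫⁻ y, G (f y) := by
        rw [lintegral_map hG hf.continuous.measurable, hκ, lintegral_smul_measure, smul_eq_mul,
          smul_eq_mul, ← mul_assoc, ENNReal.inv_mul_cancel h0 htop, one_mul]

end Pool.Agent.H655R3.Per
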