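import Mathlib

/-!
# The numerical input: `∑ k sin(2πk/3) exp(-k²/6) > 0`
-/

set_option autoImplicit false

open MeasureTheory Set Filter Topology

namespace Pool.Agent.H655R3.Per

lemma summable_exp_sq (c : ℝ) (hc : 0 < c) : Summable fun k : ℤ => Real.exp (-(c * (k : ℝ) ^ 2)) := by
  have h := summable_pow_mul_jacobiTheta₂_term_bound 0 (T := c / Real.pi)
    (div_pos hc Real.pi_pos) 0
  refine h.congr fun k => ?_
  rw [pow_zero, one_mul]
  congr 1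
  have hp : Real.pi ≠ 0 := Real.pi_ne_zero
  field_simp
  ring

/-- the terms of the series -/
noncomputable def sTerm (k : ℤ) : ℝ :=
  (k : ℝ) * Real.sin (2 * Real.pi * k / 3) * Real.exp (-((k : ℝ) ^ 2 / 6))

lemma abs_sTerm_le (k : ℤ) : |sTerm k| ≤ 10 * Real.exp (-((1 / 16) * (k : ℝ) ^ 2)) := by
  unfold sTerm
  rw [abs_mul, abs_mul, Real.abs_exp]
  have h1 : |Real.sin (2 * Real.pi * k / 3)| ≤ 1 := Real.abs_sin_le_one _
  have h2 : |(k : ℝ)| ≤ (k : ℝ) ^ 2 := by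
    have : |k| ≤ k ^ 2 := by
      rcases eq_or_ne k 0 with rfl | hk
      · simp
      · have : 1 ≤ |k| := Int.one_le_abs hk
        nlinarith [sq_abs k]
    exact_mod_cast this
  have h3 : (k : ℝ) ^ 2 * Real.exp (-((k : ℝ) ^ 2 / 6)) ≤
      10 * Real.exp (-((1 / 16) * (k : ℝ) ^ 2)) := by
    have h4 : (5 / 48) * (k : ℝ) ^ 2 ≤ Real.exp ((5 / 48) * (k : ℝ) ^ 2) := by
      have := Real.add_one_le_exp ((5 / 48) * (k : ℝ) ^ 2)
      linarith
    have h5 : Real.exp (-((1 / 16) * (k : ℝ) ^ 2)) =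
        Real.exp ((5 / 48) * (k : ℝ) ^ 2) * Real.exp (-((k : ℝ) ^ 2 / 6)) := by
      rw [← Real.exp_add]
      congr 1
      ring
    rw [h5]
    have h6 : 0 < Real.exp (-((k : ℝ) ^ 2 / 6)) := Real.exp_pos _
    have h7 : (k : ℝ) ^ 2 ≤ 10 * Real.exp ((5 / 48) * (k : ℝ) ^ 2) := by nlinarith
    nlinarith
  have h0 : 0 < Real.exp (-((k : ℝ) ^ 2 / 6)) := Real.exp_pos _
  calc |(k : ℝ)| * |Real.sin (2 * Real.pi * k / 3)| * Real.exp (-((k : ℝ) ^ 2 / 6))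
      ≤ (k : ℝ) ^ 2 * 1 * Real.exp (-((k : ℝ) ^ 2 / 6)) := by
        gcongr
    _ = (k : ℝ) ^ 2 * Real.exp (-((k : ℝ) ^ 2 / 6)) := by ring
    _ ≤ _ := h3

lemma summable_sTerm : Summable sTerm := by
  have h := (summable_exp_sq (1 / 16) (by norm_num)).mul_left 10
  exact Summable.of_norm_bounded h (fun k => by rw [Real.norm_eq_abs]; exact abs_sTerm_le k)

lemma sTerm_neg (k : ℤ) : sTerm (-k) = sTerm k := by
  unfold sTerm
  push_cast
  rw [show (2 * Real.pi * -(k : ℝ) / 3) = -(2 * Real.pi * (k : ℝ) / 3) by ring, Real.sin_neg]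
  ring_nf

lemma sin_1 (m : ℕ) : Real.sin (2 * Real.pi * ((3 * m + 1 : ℕ) : ℝ) / 3) = √3 / 2 := by
  have : (2 * Real.pi * ((3 * m + 1 : ℕ) : ℝ) / 3) = (Real.pi - Real.pi / 3) + m * (2 * Real.pi) := by
    push_cast; ring
  rw [this, Real.sin_add_nat_mul_two_pi, Real.sin_pi_sub, Real.sin_pi_div_three]

lemma sin_2 (m : ℕ) : Real.sin (2 * Real.pi * ((3 * m + 2 : ℕ) : ℝ) / 3) = -(√3 / 2) := by
  have : (2 * Real.pi * ((3 * m + 2 : ℕ) : ℝ) / 3) = (Real.pi / 3 + Real.pi) + m * (2 * Real.pi) := by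
    push_cast; ring
  rw [this, Real.sin_add_nat_mul_two_pi, Real.sin_add_pi, Real.sin_pi_div_three]

lemma sin_0 (m : ℕ) : Real.sin (2 * Real.pi * ((3 * m + 3 : ℕ) : ℝ) / 3) = 0 := by
  have : (2 * Real.pi * ((3 * m + 3 : ℕ) : ℝ) / 3) = 0 + (m + 1 : ℕ) * (2 * Real.pi) := by
    push_cast; ring
  rw [this, Real.sin_add_nat_mul_two_pi, Real.sin_zero]

/-- the paired terms -/
noncomputable def bTerm (m : ℕ) : ℝ :=
  (3 * m + 1) * Real.exp (-((3 * (m : ℝ) + 1) ^ 2 / 6)) -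
    (3 * m + 2) * Real.exp (-((3 * (m : ℝ) + 2) ^ 2 / 6))

lemma bTerm_nonneg (m : ℕ) (hm : 1 ≤ m) : 0 ≤ bTerm m := by
  unfold bTerm
  have hm' : (1 : ℝ) ≤ m := by exact_mod_cast hm
  have h1 : Real.exp (-((3 * (m : ℝ) + 1) ^ 2 / 6)) =
      Real.exp ((m : ℝ) + 1 / 2) * Real.exp (-((3 * (m : ℝ) + 2) ^ 2 / 6)) := by
    rw [← Real.exp_add]
    congr 1
    ring
  rw [h1]
  have h2 : (m : ℝ) + 1 / 2 + 1 ≤ Real.exp ((m : ℝ) + 1 / 2) := Real.add_one_le_exp _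
  have h3 : 0 < Real.exp (-((3 * (m : ℝ) + 2) ^ 2 / 6)) := Real.exp_pos _
  have h4 : (3 * (m : ℝ) + 2) ≤ (3 * m + 1) * Real.exp ((m : ℝ) + 1 / 2) := by nlinarith
  nlinarith

lemma bTerm_pos : 0 < bTerm 0 + bTerm 1 := by
  unfold bTerm
  set y : ℝ := Real.exp (-(1 / 6)) with hy
  have hy0 : 0 < y := Real.exp_pos _
  have hy6 : y ^ 6 = Real.exp (-1) := by
    rw [hy, ← Real.exp_nat_mul]; norm_num
  have he : Real.exp (-1) * Real.exp 1 = 1 := by rw [← Real.exp_add]; norm_num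
  have e1 := Real.exp_one_gt_d9
  have e2 := Real.exp_one_lt_d9
  have hy1 : (0.8464 : ℝ) < y := by
    by_contra h
    push Not at h
    have h6 : y ^ 6 ≤ (0.8464 : ℝ) ^ 6 := pow_le_pow_left₀ hy0.le h 6
    rw [hy6] at h6
    nlinarith
  have hy2 : y < (0.8465 : ℝ) := by
    by_contra h
    push Not at h
    have h6 : (0.8465 : ℝ) ^ 6 ≤ y ^ 6 := pow_le_pow_left₀ (by norm_num) h 6
    rw [hy6] at h6
    nlinarith
  have q1 : Real.exp (-((3 * ((0 : ℕ) : ℝ) + 1) ^ 2 / 6)) = y := by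
    rw [hy]; norm_num
  have q2 : Real.exp (-((3 * ((0 : ℕ) : ℝ) + 2) ^ 2 / 6)) = y ^ 4 := by
    rw [hy, ← Real.exp_nat_mul]; norm_num
  have q3 : Real.exp (-((3 * ((1 : ℕ) : ℝ) + 1) ^ 2 / 6)) = y ^ 16 := by
    rw [hy, ← Real.exp_nat_mul]; norm_num
  have q4 : Real.exp (-((3 * ((1 : ℕ) : ℝ) + 2) ^ 2 / 6)) = y ^ 25 := by
    rw [hy, ← Real.exp_nat_mul]; norm_num
  rw [q1, q2, q3, q4]
  have p4 : y ^ 4 ≤ (0.8465 : ℝ) ^ 4 := pow_le_pow_left₀ hy0.le hy2.le 4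
  have p16 : (0.8464 : ℝ) ^ 16 ≤ y ^ 16 := pow_le_pow_left₀ (by norm_num) hy1.le 16
  have p25 : y ^ 25 ≤ (0.8465 : ℝ) ^ 25 := pow_le_pow_left₀ hy0.le hy2.le 25
  norm_num at p4 p16 p25 ⊢
  linarith

lemma tsum_sTerm_pos : 0 < ∑' k : ℤ, sTerm k := by
  have hs := summable_sTerm
  have hsn : Summable fun n : ℕ => sTerm ((n : ℤ) + 1) := by
    have : Function.Injective fun n : ℕ => ((n : ℤ) + 1) := fun a b h => by
      simpa using h
    exact hs.comp_injective this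
  have h0 : sTerm 0 = 0 := by simp [sTerm]
  have hsn0 : Summable fun n : ℕ => sTerm (n : ℤ) := hs.comp_injective Nat.cast_injective
  have key : ∑' k : ℤ, sTerm k = 2 * ∑' n : ℕ, sTerm ((n : ℤ) + 1) := by
    have h1 : Summable fun n : ℕ => sTerm (-((n : ℤ) + 1)) := by
      refine hsn.congr fun n => (sTerm_neg _).symm
    rw [tsum_of_nat_of_neg_add_one hsn0 h1, hsn0.tsum_eq_zero_add]
    simp only [Nat.cast_zero, h0, Nat.cast_add, Nat.cast_one, sTerm_neg]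
    ring
  rw [key]
  have hres := Nat.sumByResidueClasses hsn 3
  have r1 : ∀ m : ℕ, sTerm (((3 * m : ℕ) : ℤ) + 1) =
      √3 / 2 * ((3 * m + 1) * Real.exp (-((3 * (m : ℝ) + 1) ^ 2 / 6))) := by
    intro m
    have := sin_1 m
    unfold sTerm
    push_cast at this ⊢
    rw [this]
    ring
  have r2 : ∀ m : ℕ, sTerm (((1 + 3 * m : ℕ) : ℤ) + 1) =
      -(√3 / 2 * ((3 * m + 2) * Real.exp (-((3 * (m : ℝ) + 2) ^ 2 / 6)))) := by
    intro m
    have := sin_2 m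
    unfold sTerm
    push_cast at this ⊢
    rw [show (1 + 3 * (m : ℝ) + 1) = 3 * m + 2 by ring, this]
    ring
  have r3 : ∀ m : ℕ, sTerm (((2 + 3 * m : ℕ) : ℤ) + 1) = 0 := by
    intro m
    have := sin_0 m
    unfold sTerm
    push_cast at this ⊢
    rw [show (2 + 3 * (m : ℝ) + 1) = 3 * m + 3 by ring, this]
    ring
  have s1 : Summable fun m : ℕ => sTerm (((3 * m : ℕ) : ℤ) + 1) := by
    have hinj : Function.Injective fun m : ℕ => 3 * m := fun a b h => by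
      simpa using h
    exact hsn.comp_injective hinj
  have s2 : Summable fun m : ℕ => sTerm (((1 + 3 * m : ℕ) : ℤ) + 1) := by
    have hinj : Function.Injective fun m : ℕ => 1 + 3 * m := fun a b h => by
      simpa using h
    exact hsn.comp_injective hinj
  have hsum3 : ∑' n : ℕ, sTerm ((n : ℤ) + 1) = ∑' m : ℕ, sTerm (((3 * m : ℕ) : ℤ) + 1) +
      ∑' m : ℕ, sTerm (((1 + 3 * m : ℕ) : ℤ) + 1) +
      ∑' m : ℕ, sTerm (((2 + 3 * m : ℕ) : ℤ) + 1) := by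
    rw [hres]
    have hz : ∀ F : ZMod 3 → ℝ, ∑ j : ZMod 3, F j = F 0 + F 1 + F 2 := by
      intro F
      exact Fin.sum_univ_three F
    rw [hz]
    have v0 : (0 : ZMod 3).val = 0 := rfl
    have v1 : (1 : ZMod 3).val = 1 := rfl
    have v2 : (2 : ZMod 3).val = 2 := rfl
    rw [v0, v1, v2]
    simp only [zero_add]
  have hb : ∑' n : ℕ, sTerm ((n : ℤ) + 1) = ∑' m : ℕ, (√3 / 2) * bTerm m := by
    rw [hsum3]
    simp only [r3, tsum_zero, add_zero]
    rw [← s1.tsum_add s2]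
    refine tsum_congr fun m => ?_
    rw [r1, r2]
    unfold bTerm
    ring
  rw [hb]
  have sb : Summable fun m : ℕ => (√3 / 2) * bTerm m := by
    refine (s1.add s2).congr fun m => ?_
    rw [r1, r2]
    unfold bTerm
    ring
  have h3 : 0 < √3 / 2 := by positivity
  have hle : ∑ m ∈ Finset.range 2, (√3 / 2) * bTerm m ≤ ∑' m : ℕ, (√3 / 2) * bTerm m := by
    refine sb.sum_le_tsum _ fun m hm => ?_
    have : 1 ≤ m := by
      rw [Finset.mem_range] at hm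
      omega
    exact mul_nonneg h3.le (bTerm_nonneg m this)
  rw [Finset.sum_range_succ, Finset.sum_range_one, ← mul_add] at hle
  have := mul_pos h3 bTerm_pos
  linarith

end Pool.Agent.H655R3.Per
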