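import Pool.Agent.H655R3.PerDefs

/-!
# Topology of the level sets
-/

set_option autoImplicit false

open MeasureTheory Set Filter Topology

namespace Pool.Agent.H655R3.Per

lemma sin_pi_ne_zero {t : ℝ} (h : ¬ ∃ k : ℤ, t = k) : Real.sin (Real.pi * t) ≠ 0 := by
  intro h0
  rw [Real.sin_eq_zero_iff] at h0
  obtain ⟨k, hk⟩ := h0
  refine h ⟨k, ?_⟩
  have hp : Real.pi ≠ 0 := Real.pi_ne_zero
  have : Real.pi * ((k : ℝ) - t) = 0 := by linarith [hk, mul_comm (k : ℝ) Real.pi]
  rcases mul_eq_zero.1 this with h1 | h1
  · exact absurd h1 hp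
  · linarith

lemma frontier_eq {n : ℕ} (u : E n → ℝ) (hu : Continuous u) (w : E n)
    (hw : ∀ (x : E n) (t : ℝ), u (x + t • w) = u x + t) :
    frontier {x | 0 ≤ Real.sin (Real.pi * u x)} = {x | ∃ k : ℤ, u x = k} := by
  have hcont : Continuous fun x => Real.sin (Real.pi * u x) := by fun_prop
  have hclosed : IsClosed {x | 0 ≤ Real.sin (Real.pi * u x)} :=
    isClosed_le continuous_const hcont
  apply Subset.antisymm
  · intro x hx
    by_contra hk
    have hne := sin_pi_ne_zero hk
    rw [hclosed.frontier_eq] at hx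
    have hpos : 0 < Real.sin (Real.pi * u x) := lt_of_le_of_ne hx.1 (Ne.symm hne)
    apply hx.2
    rw [mem_interior_iff_mem_nhds]
    filter_upwards [hcont.continuousAt.eventually (lt_mem_nhds hpos)] with y hy
    exact hy.le
  · rintro x ⟨k, hk⟩
    rw [hclosed.frontier_eq]
    have h0 : Real.sin (Real.pi * u x) = 0 := by
      rw [hk, mul_comm]; exact Real.sin_int_mul_pi k
    refine ⟨by simp [h0], ?_⟩
    intro hint
    rw [mem_interior_iff_mem_nhds] at hint
    -- points x + t w, with sign of sin negative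
    have hpath : Continuous fun t : ℝ => x + t • w := by fun_prop
    have hev : ∀ᶠ t in 𝓝 (0 : ℝ), 0 ≤ Real.sin (Real.pi * u (x + t • w)) := by
      have h2 : Tendsto (fun t : ℝ => x + t • w) (𝓝 0) (𝓝 x) := by
        simpa using hpath.tendsto 0
      exact h2.eventually hint
    have hsin : ∀ t : ℝ, Real.sin (Real.pi * u (x + t • w)) =
        Real.cos (k * Real.pi) * Real.sin (Real.pi * t) := by
      intro t
      rw [hw, hk, mul_add, Real.sin_add, mul_comm Real.pi (k : ℝ), Real.sin_int_mul_pi]
      ring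
    have hcos : Real.cos (k * Real.pi) ≠ 0 := by
      have := Real.sin_sq_add_cos_sq (k * Real.pi)
      rw [Real.sin_int_mul_pi] at this
      intro h
      rw [h] at this
      norm_num at this
    obtain ⟨δ, hδ, hball⟩ := Metric.eventually_nhds_iff.1 hev
    set s : ℝ := min (δ / 2) (1 / 2) with hs
    have hs0 : 0 < s := by positivity
    have hs1 : s < δ := lt_of_le_of_lt (min_le_left _ _) (by linarith)
    have hs2 : s ≤ 1 / 2 := min_le_right _ _
    have hspos : 0 < Real.sin (Real.pi * s) := by
      apply Real.sin_pos_of_pos_of_lt_pi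
      · positivity
      · nlinarith [Real.pi_pos]
    have h1 := hball (y := s) (by rw [Real.dist_eq, sub_zero, abs_of_pos hs0]; exact hs1)
    have h2 := hball (y := -s) (by rw [Real.dist_eq, sub_zero, abs_neg, abs_of_pos hs0]; exact hs1)
    rw [hsin] at h1 h2
    rw [mul_neg, Real.sin_neg, mul_neg] at h2
    have : Real.cos (k * Real.pi) * Real.sin (Real.pi * s) = 0 := le_antisymm (by linarith) h1
    rcases mul_eq_zero.1 this with h3 | h3
    · exact hcos h3
    · exact hspos.ne' h3

lemma isPeriodic_of {n : ℕ} (u : E n → ℝ) (hu : Continuous u) (w : E n)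
    (hw : ∀ (x : E n) (t : ℝ), u (x + t • w) = u x + t)
    (hodd : ∀ x, u (-x) = - u x)
    (hper : ∀ x i, u (x - v i) = u x - 1 ∨ u (x - v i) = u x + 1) :
    IsPeriodic {x : E n | 0 ≤ Real.sin (Real.pi * u x)} := by
  unfold IsPeriodic
  rw [frontier_eq u hu w hw]
  refine ⟨?_, ?_⟩
  · intro i x hx
    have hne := sin_pi_ne_zero hx
    have h1 : Real.sin (Real.pi * u (x - v i)) = - Real.sin (Real.pi * u x) := by
      rcases hper x i with h | h
      · rw [h, mul_sub, mul_one, Real.sin_sub_pi]
      · rw [h, mul_add, mul_one, Real.sin_add_pi]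
    simp only [mem_ofPred_eq, h1, not_le]
    constructor
    · intro h
      exact lt_of_le_of_ne (by linarith) hne
    · intro h
      linarith
  · intro x hx
    have hne := sin_pi_ne_zero hx
    simp only [mem_ofPred_eq, hodd, mul_neg, Real.sin_neg, not_le]
    constructor
    · intro h
      exact lt_of_le_of_ne (by linarith) hne
    · intro h
      linarith

end Pool.Agent.H655R3.Per
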