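import Pool.Agent.H655R3.PerMeas
import Pool.Agent.H655R3.PerTop
import Pool.Agent.H655R3.PerInt2

/-!
# The Gaussian surface area of the periodic half spaces
-/

set_option autoImplicit false

open MeasureTheory Set Filter Topology

open scoped ENNReal NNReal

namespace Pool.Agent.H655R3.Per

/-- the constant -/
noncomputable def C3 : ℝ := (2 * Real.pi) ^ (-((3 : ℕ) : ℝ) / 2)

lemma C3_pos : 0 < C3 := by unfold C3; positivity

noncomputable def c0 : ℝ := C3 * √(2 * Real.pi) * √(3 / 2)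

lemma c0_pos : 0 < c0 := by
  unfold c0
  have := C3_pos
  positivity

lemma gauss_meas : Measurable fun x : E 3 => ENNReal.ofReal (gaussDensity 3 x) := by
  unfold gaussDensity
  fun_prop

lemma lintegral_gauss1 : ∫⁻ t : ℝ, ENNReal.ofReal (Real.exp (-(t ^ 2 / 2))) =
    ENNReal.ofReal √(2 * Real.pi) := by
  have h : ∀ t : ℝ, Real.exp (-(t ^ 2 / 2)) = Real.exp (-(1 / 2) * t ^ 2) := by
    intro t; congr 1; ring
  have hi : Integrable fun t : ℝ => Real.exp (-(1 / 2) * t ^ 2) :=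
    integrable_exp_neg_mul_sq (by norm_num)
  simp_rw [h]
  rw [← ofReal_integral_eq_lintegral_ofReal hi (Eventually.of_forall fun t => (Real.exp_pos _).le),
    integral_gaussian]
  congr 2
  ring

/-- isometric parametrisation of the plane `∑ ε_i x_i = k` -/
noncomputable def TT (ε : Fin 3 → ℝ) (k : ℝ) (y : E 2) : E 3 :=
  !₂[ε 0 * (k / 3 + 2 * y 1 / √6), ε 1 * (k / 3 + y 0 / √2 - y 1 / √6),
    ε 2 * (k / 3 - y 0 / √2 - y 1 / √6)]

lemma sq_sign {s : ℝ} (h : s = 1 ∨ s = -1) : s ^ 2 = 1 := by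
  rcases h with h | h <;> rw [h] <;> norm_num

lemma TT_normsq (ε : Fin 3 → ℝ) (hε : ∀ i, ε i = 1 ∨ ε i = -1) (k : ℝ) (y : E 2) :
    ‖TT ε k y‖ ^ 2 = k ^ 2 / 3 + (y 0) ^ 2 + (y 1) ^ 2 := by
  have h0 := sq_sign (hε 0)
  have h1 := sq_sign (hε 1)
  have h2 := sq_sign (hε 2)
  have s2 : (√2 : ℝ) ^ 2 = 2 := Real.sq_sqrt (by norm_num)
  have s6 : (√6 : ℝ) ^ 2 = 6 := Real.sq_sqrt (by norm_num)
  have p2 : (√2 : ℝ) ≠ 0 := by positivity
  have p6 : (√6 : ℝ) ≠ 0 := by positivity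
  rw [EuclideanSpace.norm_sq_eq, Fin.sum_univ_three]
  simp only [TT, Real.norm_eq_abs, sq_abs, mul_pow]
  simp only [PiLp.toLp_apply, Matrix.cons_val_zero, Matrix.cons_val_one, Matrix.cons_val, mul_pow,
    h0, h1, h2, one_mul]
  have e1 : (k / 3 + 2 * y 1 / √6) ^ 2 = k ^ 2 / 9 + 4 * k * (y 1 / √6) / 3 +
      4 * (y 1) ^ 2 / (√6) ^ 2 := by
    field_simp; ring
  have e2 : (k / 3 + y 0 / √2 - y 1 / √6) ^ 2 + (k / 3 - y 0 / √2 - y 1 / √6) ^ 2 =
      2 * (k ^ 2 / 9 - 2 * k * (y 1 / √6) / 3 + (y 1) ^ 2 / (√6) ^ 2) +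
        2 * ((y 0) ^ 2 / (√2) ^ 2) := by
    field_simp; ring
  rw [add_assoc, e2, e1, s2, s6]
  ring

lemma TT_isometry (ε : Fin 3 → ℝ) (hε : ∀ i, ε i = 1 ∨ ε i = -1) (k : ℝ) :
    Isometry (TT ε k) := by
  refine Isometry.of_dist_eq fun y z => ?_
  have h : TT ε k y - TT ε k z = TT ε 0 (y - z) := by
    ext i
    fin_cases i <;> simp [TT] <;> ring
  rw [dist_eq_norm, dist_eq_norm, h]
  have h1 := TT_normsq ε hε 0 (y - z)
  have h2 : ‖y - z‖ ^ 2 = ((y - z) 0) ^ 2 + ((y - z) 1) ^ 2 := by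
    rw [EuclideanSpace.norm_sq_eq, Fin.sum_univ_two]
    simp only [Real.norm_eq_abs, sq_abs]
  have h3 : ‖TT ε 0 (y - z)‖ ^ 2 = ‖y - z‖ ^ 2 := by rw [h1, h2]; ring
  have := congrArg Real.sqrt h3
  rwa [Real.sqrt_sq (norm_nonneg _), Real.sqrt_sq (norm_nonneg _)] at this

lemma range_TT (ε : Fin 3 → ℝ) (hε : ∀ i, ε i = 1 ∨ ε i = -1) (k : ℝ) :
    range (TT ε k) ⊆ {x : E 3 | ∑ i, ε i * x i = k} := by
  rintro x ⟨y, rfl⟩
  have h0 := sq_sign (hε 0)
  have h1 := sq_sign (hε 1)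
  have h2 := sq_sign (hε 2)
  rw [mem_ofPred_eq, Fin.sum_univ_three]
  simp only [TT, PiLp.toLp_apply, Matrix.cons_val_zero, Matrix.cons_val_one, Matrix.cons_val]
  have : ∀ s t : ℝ, s * (s * t) = s ^ 2 * t := fun s t => by ring
  rw [this, this, this, h0, h1, h2]
  ring

lemma plane_area (ε : Fin 3 → ℝ) (hε : ∀ i, ε i = 1 ∨ ε i = -1) (k : ℝ) :
    ENNReal.ofReal (c0 * alphaK k) ≤ ∫⁻ x in {x : E 3 | ∑ i, ε i * x i = k},
      ENNReal.ofReal (gaussDensity 3 x) ∂(surfaceMeasure 3) := by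
  calc ENNReal.ofReal (c0 * alphaK k)
      = ∫⁻ y : E 2, ENNReal.ofReal (gaussDensity 3 (TT ε k y)) := by
        have h : ∀ y : E 2, ENNReal.ofReal (gaussDensity 3 (TT ε k y)) =
            ENNReal.ofReal (C3 * Real.exp (-(k ^ 2 / 6))) *
            (ENNReal.ofReal (Real.exp (-((y 0) ^ 2 / 2))) *
              ENNReal.ofReal (Real.exp (-((y 1) ^ 2 / 2)))) := by
          intro y
          rw [← ENNReal.ofReal_mul (Real.exp_pos _).le,
            ← ENNReal.ofReal_mul (by have := C3_pos; positivity)]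
          congr 1
          unfold gaussDensity
          rw [TT_normsq ε hε, ← Real.exp_add, mul_assoc, ← Real.exp_add]
          unfold C3
          congr 2
          ring
        simp_rw [h]
        rw [lintegral_const_mul _ (by fun_prop),
          lintegral_E2 (fun t => ENNReal.ofReal (Real.exp (-(t ^ 2 / 2))))
            (fun t => ENNReal.ofReal (Real.exp (-(t ^ 2 / 2)))) (by fun_prop) (by fun_prop),
          lintegral_gauss1, ← ENNReal.ofReal_mul (by positivity),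
          ← ENNReal.ofReal_mul (by have := C3_pos; positivity)]
        congr 1
        unfold c0 alphaK
        have e : √(3 / 2) * √(Real.pi / (3 / 4)) = √(2 * Real.pi) := by
          rw [← Real.sqrt_mul (by norm_num)]
          congr 1
          ring
        calc C3 * √(2 * Real.pi) * √(3 / 2) * (Real.exp (-(k ^ 2 / 6)) * √(Real.pi / (3 / 4)))
            = C3 * √(2 * Real.pi) * (Real.exp (-(k ^ 2 / 6)) * (√(3 / 2) * √(Real.pi / (3 / 4)))) := by
              ring
          _ = _ := by rw [e]; ring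
    _ = ∫⁻ x in range (TT ε k), ENNReal.ofReal (gaussDensity 3 x) ∂(surfaceMeasure 3) :=
        (surf_isometry (TT ε k) (TT_isometry ε hε k) _ gauss_meas).symm
    _ ≤ _ := lintegral_mono_set (range_TT ε hε k)

lemma halfSpace_frontier (ε : Fin 3 → ℝ) (hε : ∀ i, ε i = 1 ∨ ε i = -1) :
    frontier (halfSpace ε) = {x : E 3 | ∃ k : ℤ, ∑ i, ε i * x i = k} := by
  unfold halfSpace
  refine frontier_eq (fun x : E 3 => ∑ i, ε i * x i) (by fun_prop) (ε 0 • v 0) ?_
  intro x t
  have h0 := sq_sign (hε 0)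
  simp only [Fin.sum_univ_three, v, PiLp.add_apply, PiLp.smul_apply, smul_eq_mul]
  simp
  linear_combination t * h0

lemma halfSpace_periodic (ε : Fin 3 → ℝ) (hε : ∀ i, ε i = 1 ∨ ε i = -1) :
    IsPeriodic (halfSpace ε) := by
  unfold halfSpace
  refine isPeriodic_of (fun x : E 3 => ∑ i, ε i * x i) (by fun_prop) (ε 0 • v 0) ?_ ?_ ?_
  · intro x t
    have h0 := sq_sign (hε 0)
    simp only [Fin.sum_univ_three, v, PiLp.add_apply, PiLp.smul_apply, smul_eq_mul]
    simp
    linear_combination t * h0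
  · intro x
    simp [Fin.sum_univ_three]
  · intro x i
    have : ∑ j, ε j * (x - v i) j = ∑ j, ε j * x j - ε i := by
      simp only [PiLp.sub_apply, mul_sub, Finset.sum_sub_distrib]
      congr 1
      rw [Finset.sum_eq_single i]
      · simp [v]
      · intro j _ hj
        simp [v, hj]
      · simp
    simp only [this]
    rcases hε i with h | h <;> rw [h]
    · left; rfl
    · right; ring

lemma halfSpace_area (ε : Fin 3 → ℝ) (hε : ∀ i, ε i = 1 ∨ ε i = -1) :
    ∑' k : ℤ, ENNReal.ofReal (c0 * alphaK k) ≤ gaussianSurfaceArea (halfSpace ε) := by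
  unfold gaussianSurfaceArea
  rw [halfSpace_frontier ε hε]
  have hU : {x : E 3 | ∃ k : ℤ, ∑ i, ε i * x i = k} =
      ⋃ k : ℤ, {x : E 3 | ∑ i, ε i * x i = k} := by
    ext x; simp
  rw [hU, lintegral_iUnion]
  · exact ENNReal.tsum_le_tsum fun k => plane_area ε hε k
  · intro k
    exact (isClosed_eq (by fun_prop) continuous_const).measurableSet
  · intro k l hkl
    rw [Function.onFun, Set.disjoint_left]
    intro x hx hy
    apply hkl
    have : (k : ℝ) = l := by
      rw [mem_ofPred_eq] at hx hy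
      rw [← hx, ← hy]
    exact_mod_cast this

end Pool.Agent.H655R3.Per
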